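import Mathlib

set_option autoImplicit false

namespace Pool.Agent.H597Z.BM

open Filter Topology Finset

abbrev II (n k : ℕ) := {α : Fin n → Fin (k+1) // ∑ i, (α i : ℕ) ≤ k}

variable {n : ℕ}

noncomputable def toF {k : ℕ} (a : II n k) : Fin n →₀ ℕ :=
  Finsupp.equivFunOnFinite.symm fun i => (a.1 i : ℕ)

@[simp] lemma toF_apply {k : ℕ} (a : II n k) (i : Fin n) : toF a i = a.1 i := rfl

lemma degree_eq (β : Fin n →₀ ℕ) : β.degree = ∑ i, β i := Finsupp.degree_eq_sum β

lemma toF_degree {k : ℕ} (a : II n k) : (toF a).degree = ∑ i, (a.1 i : ℕ) := by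
  rw [degree_eq]; rfl

lemma toF_le {k : ℕ} (a : II n k) : (toF a).degree ≤ k := by rw [toF_degree]; exact a.2

lemma toF_inj {k : ℕ} : Function.Injective (toF (n := n) (k := k)) := by
  intro a b h
  ext i
  exact DFunLike.congr_fun h i

def ofF {k : ℕ} (β : Fin n →₀ ℕ) (h : β.degree ≤ k) : II n k :=
  ⟨fun i => ⟨β i, Nat.lt_succ_of_le ((Finsupp.le_degree i β).trans h)⟩, by
    rw [degree_eq] at h; exact h⟩

@[simp] lemma toF_ofF {k : ℕ} (β : Fin n →₀ ℕ) (h : β.degree ≤ k) : toF (ofF β h) = β := by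
  ext i; rfl

def NN (n k : ℕ) : ℕ := Fintype.card (II n k)

noncomputable def SS (h : (Fin n →₀ ℕ) → ℝ) (k : ℕ) : ℝ := ∑ a : II n k, h (toF a)

noncomputable def ll (n k : ℕ) : ℝ := ∑ a : II n k, ∑ i, ((a.1 i : ℕ) : ℝ)

lemma ll_eq (k : ℕ) : ll n k = ∑ a : II n k, ((toF a).degree : ℝ) := by
  simp [ll, toF_degree]

lemma NN_pos (k : ℕ) : 0 < NN n k :=
  Fintype.card_pos_iff.mpr ⟨ofF 0 (by simp)⟩

lemma NN_le (k : ℕ) : NN n k ≤ (k + 1) ^ n := by
  have := Fintype.card_subtype_le (fun α : Fin n → Fin (k+1) => ∑ i, (α i : ℕ) ≤ k)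
  simpa [NN] using this

lemma ll_le (k : ℕ) : ll n k ≤ k * NN n k := by
  rw [ll_eq]
  have := Finset.sum_le_card_nsmul univ (fun a : II n k => ((toF a).degree : ℝ)) k
    (fun a _ => by exact_mod_cast toF_le a)
  simpa [NN, mul_comm] using this

lemma le_ll (hn : 1 ≤ n) (k : ℕ) : (k : ℝ) * NN n k ≤ 2 * ll n k := by
  obtain ⟨n, rfl⟩ : ∃ m, n = m + 1 := ⟨n - 1, by omega⟩
  let f : II (n + 1) k → II (n + 1) k := fun a =>
    ⟨Fin.cons ⟨k - ∑ i, (a.1 i : ℕ), by omega⟩ (Fin.tail a.1), by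
      have := a.2
      simp only [Fin.sum_univ_succ, Fin.cons_zero, Fin.cons_succ, Fin.tail] at *
      omega⟩
  have hf : Function.Involutive f := by
    intro a
    have := a.2
    ext i
    refine Fin.cases ?_ (fun j => ?_) i
    · simp only [f, Fin.sum_univ_succ, Fin.cons_zero, Fin.cons_succ, Fin.tail] at *
      omega
    · simp [f, Fin.tail]
  have h1 : ∑ a : II (n + 1) k, (((f a).1 0 : ℕ) : ℝ) = ∑ a : II (n + 1) k, ((a.1 0 : ℕ) : ℝ) :=
    Equiv.sum_comp hf.toPerm fun a => ((a.1 0 : ℕ) : ℝ)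
  have h2 : ∑ a : II (n + 1) k, (((f a).1 0 : ℕ) : ℝ) = k * NN (n + 1) k - ll (n + 1) k := by
    have : ∀ a : II (n + 1) k, (((f a).1 0 : ℕ) : ℝ) = k - ∑ i, ((a.1 i : ℕ) : ℝ) := by
      intro a
      simp only [f, Fin.cons_zero]
      rw [Nat.cast_sub a.2]
      simp
    simp only [this, Finset.sum_sub_distrib, ll, NN]
    simp [mul_comm]
  have h3 : ∑ a : II (n + 1) k, ((a.1 0 : ℕ) : ℝ) ≤ ll (n + 1) k :=
    Finset.sum_le_sum fun a _ => Finset.single_le_sum (f := fun i => ((a.1 i : ℕ) : ℝ))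
      (fun _ _ => Nat.cast_nonneg _) (mem_univ 0)
  linarith

lemma tile {k m q : ℕ} (hq : q * m + n * (q - 1) ≤ k) (g : (Fin n →₀ ℕ) → ℝ) (hg : ∀ β, 0 ≤ g β) :
    ∑ x : II n m × (Fin n → Fin q),
      g (q • toF x.1 + Finsupp.equivFunOnFinite.symm fun i => (x.2 i : ℕ)) ≤ SS g k := by
  classical
  have hd : ∀ x : II n m × (Fin n → Fin q),
      (q • toF x.1 + Finsupp.equivFunOnFinite.symm fun i => (x.2 i : ℕ)).degree ≤ k := by
    intro x
    have h1 := toF_le x.1
    have h2 : ∑ i, (x.2 i : ℕ) ≤ n * (q - 1) := by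
      have := Finset.sum_le_card_nsmul univ (fun i => (x.2 i : ℕ)) (q - 1)
        (fun i _ => Nat.le_sub_one_of_lt (x.2 i).2)
      simpa using this
    rw [map_add, map_nsmul, degree_eq (Finsupp.equivFunOnFinite.symm _)]
    simp only [Finsupp.equivFunOnFinite_symm_apply_apply, smul_eq_mul]
    have := Nat.mul_le_mul_left q h1
    omega
  let F : II n m × (Fin n → Fin q) → II n k := fun x => ofF _ (hd x)
  have hF : Function.Injective F := by
    rintro ⟨a, r⟩ ⟨b, s⟩ h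
    have h1 : ∀ i, q * (a.1 i : ℕ) + r i = q * (b.1 i : ℕ) + s i := fun i => by
      have := DFunLike.congr_fun (congrArg toF h) i
      simpa [F] using this
    have h2 : ∀ i, (r i : ℕ) = s i := fun i => by
      have := congrArg (· % q) (h1 i)
      simpa [Nat.mod_eq_of_lt (r i).2, Nat.mod_eq_of_lt (s i).2] using this
    refine Prod.ext ?_ (funext fun i => Fin.ext (h2 i))
    ext i
    have h3 := h1 i
    rw [h2 i] at h3
    exact Nat.eq_of_mul_eq_mul_left (r i).pos (Nat.add_right_cancel h3)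
  have := Finset.sum_le_sum_of_subset_of_nonneg (f := fun a : II n k => g (toF a))
    (subset_univ (univ.image F)) (fun a _ _ => hg _)
  rw [Finset.sum_image fun x _ y _ h => hF h] at this
  simpa [F, SS] using this

lemma NN_ge (hn : 1 ≤ n) (j : ℕ) : ((j : ℝ) / n) ^ n ≤ NN n j := by
  have h := tile (n := n) (k := j) (m := 0) (q := j / n + 1)
    (by simpa using Nat.mul_div_le j n) (fun _ => 1) (fun _ => zero_le_one)
  have h1 : (1 : ℝ) ≤ NN n 0 := by exact_mod_cast NN_pos 0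
  simp only [sum_const, card_univ, Fintype.card_prod, Fintype.card_pi, Fintype.card_fin,
    prod_const, nsmul_eq_mul, mul_one, SS] at h
  have h2 : (j : ℝ) / n ≤ (j / n + 1 : ℕ) := by
    have hn' : (0 : ℝ) < n := by exact_mod_cast hn
    rw [div_le_iff₀ hn']
    have := Nat.lt_div_mul_add (a := j) (b := n) hn
    have h3 : j ≤ (j / n + 1) * n := by nlinarith
    exact_mod_cast h3
  calc ((j : ℝ) / n) ^ n ≤ ((j / n + 1 : ℕ) : ℝ) ^ n := by gcongr
    _ ≤ NN n 0 * ((j / n + 1 : ℕ) : ℝ) ^ n := le_mul_of_one_le_left (by positivity) h1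
    _ ≤ NN n j := by
      rw [Nat.cast_mul, Nat.cast_pow] at h
      exact h

lemma SS_tile {h : (Fin n →₀ ℕ) → ℝ} (h0 : ∀ β, h β ≤ 0)
    (hs : ∀ α β, h (α + β) ≤ h α + h β) {k m q : ℕ} (hq : q * (m + n) ≤ k) :
    SS h k ≤ (q : ℝ) ^ (n + 1) * SS h m := by
  have h1 := tile (n := n) (k := k) (m := m) (q := q) (by
    have : n * (q - 1) ≤ n * q := Nat.mul_le_mul_left _ (Nat.sub_le _ _)
    nlinarith) (fun β => -h β) (fun β => by simpa using h0 β)
  have h2 : ∀ (q : ℕ) β, h (q • β) ≤ q * h β := by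
    intro q β
    induction q with
    | zero => simpa using h0 0
    | succ q ih =>
      rw [succ_nsmul]
      have := hs (q • β) β
      push_cast
      linarith
  have h3 : ∑ x : II n m × (Fin n → Fin q), -(q * h (toF x.1)) ≤ ∑ x : II n m × (Fin n → Fin q),
      -h (q • toF x.1 + Finsupp.equivFunOnFinite.symm fun i => (x.2 i : ℕ)) := by
    refine Finset.sum_le_sum fun x _ => neg_le_neg ?_
    have := hs (q • toF x.1) (Finsupp.equivFunOnFinite.symm fun i => (x.2 i : ℕ))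
    have := h0 (Finsupp.equivFunOnFinite.symm fun i => (x.2 i : ℕ))
    have := h2 q (toF x.1)
    linarith
  have h4 := h3.trans h1
  simp only [Fintype.sum_prod_type, sum_const, card_univ, Fintype.card_pi, Fintype.card_fin,
    prod_const, nsmul_eq_mul, SS, sum_neg_distrib, neg_le_neg_iff] at h4
  simp only [SS, Finset.mul_sum]
  refine h4.trans (le_of_eq (Finset.sum_congr rfl fun a _ => ?_))
  push_cast
  ring

lemma SS_tendsto (hn : 1 ≤ n) {h : (Fin n →₀ ℕ) → ℝ} (h0 : ∀ β, h β ≤ 0)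
    (hs : ∀ α β, h (α + β) ≤ h α + h β) (C : ℝ) (hC : 0 ≤ C) (hb : ∀ β, -(C * β.degree) ≤ h β) :
    ∃ L, Tendsto (fun k : ℕ => SS h k / (k : ℝ) ^ (n + 1)) atTop (𝓝 L) := by
  let u : ℕ → ℝ := fun m => SS h m / ((m : ℝ) + n) ^ (n + 1)
  have hn' : (1 : ℝ) ≤ n := by exact_mod_cast hn
  have hS0 : ∀ m, SS h m ≤ 0 := fun m => Finset.sum_nonpos fun a _ => h0 _
  have hu : ∀ m, -C ≤ u m := by
    intro m
    have h1 : -(C * ll n m) ≤ SS h m := by
      rw [ll_eq, Finset.mul_sum, ← Finset.sum_neg_distrib]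
      exact Finset.sum_le_sum fun a _ => hb _
    have h2 : ll n m ≤ ((m : ℝ) + n) ^ (n + 1) := by
      have h3 : (NN n m : ℝ) ≤ ((m : ℝ) + 1) ^ n := by exact_mod_cast NN_le m
      calc ll n m ≤ m * NN n m := ll_le m
        _ ≤ ((m : ℝ) + n) * ((m : ℝ) + n) ^ n := by
          gcongr
          · linarith
          · exact h3.trans (by gcongr)
        _ = _ := by ring
    rw [le_div_iff₀ (by positivity)]
    nlinarith
  have hbdd : BddBelow (Set.range u) := ⟨-C, by rintro _ ⟨m, rfl⟩; exact hu m⟩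
  refine ⟨⨅ m, u m, tendsto_order.2 ⟨fun a ha => ?_, fun a ha => ?_⟩⟩
  · have h1 : Tendsto (fun k : ℕ => (⨅ m, u m) * (1 + n * ((k : ℝ))⁻¹) ^ (n + 1)) atTop
        (𝓝 ((⨅ m, u m) * (1 + n * 0) ^ (n + 1))) :=
      ((tendsto_inv_atTop_nhds_zero_nat.const_mul _).const_add _ |>.pow _).const_mul _
    simp only [mul_zero, add_zero, one_pow, mul_one] at h1
    filter_upwards [h1.eventually (lt_mem_nhds ha), eventually_gt_atTop 0] with k hk hk0
    have hk' : (0 : ℝ) < k := by exact_mod_cast hk0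
    refine hk.trans_le ?_
    have : SS h k / (k : ℝ) ^ (n + 1) = u k * (1 + n * ((k : ℝ))⁻¹) ^ (n + 1) := by
      have : 1 + n * ((k : ℝ))⁻¹ = (k + n) / k := by field_simp
      rw [this, div_pow]
      simp only [u]
      field_simp
    rw [this]
    exact mul_le_mul_of_nonneg_right (ciInf_le hbdd k) (by positivity)
  · obtain ⟨m, hm⟩ := exists_lt_of_ciInf_lt ha
    have hmn : (0 : ℝ) < m + n := by positivity
    have h1 : Tendsto (fun k : ℕ => ((⌊((m : ℝ) + n)⁻¹ * k⌋₊ : ℝ) / k) ^ (n + 1) * SS h m) atTop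
        (𝓝 ((((m : ℝ) + n)⁻¹) ^ (n + 1) * SS h m)) :=
      (((tendsto_nat_floor_mul_div_atTop (by positivity)).comp
        tendsto_natCast_atTop_atTop).pow _).mul_const _
    have h2 : (((m : ℝ) + n)⁻¹) ^ (n + 1) * SS h m = u m := by
      simp only [u]; rw [inv_pow]; ring
    rw [h2] at h1
    filter_upwards [h1.eventually (gt_mem_nhds hm), eventually_gt_atTop 0] with k hk hk0
    have hk' : (0 : ℝ) < k := by exact_mod_cast hk0
    refine lt_of_le_of_lt ?_ hk
    have h3 : ⌊((m : ℝ) + n)⁻¹ * k⌋₊ * (m + n) ≤ k := by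
      have := Nat.floor_le (a := ((m : ℝ) + n)⁻¹ * k) (by positivity)
      rw [inv_mul_eq_div, le_div_iff₀ hmn] at this
      rw [inv_mul_eq_div]
      exact_mod_cast this
    rw [div_pow, div_mul_eq_mul_div]
    exact div_le_div_of_nonneg_right (SS_tile h0 hs h3) (by positivity)

lemma ll_pos (hn : 1 ≤ n) {k : ℕ} (hk : 1 ≤ k) : 0 < ll n k := by
  have h1 := le_ll hn k
  have h2 : (0 : ℝ) < k * NN n k := by
    have := NN_pos (n := n) k
    positivity
  linarith

lemma SS_div_ll (hn : 1 ≤ n) {h : (Fin n →₀ ℕ) → ℝ} (h0 : ∀ β, h β ≤ 0)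
    (hs : ∀ α β, h (α + β) ≤ h α + h β) (C : ℝ) (hC : 0 ≤ C) (hb : ∀ β, -(C * β.degree) ≤ h β) :
    ∃ L, Tendsto (fun k : ℕ => SS h k / ll n k) atTop (𝓝 L) := by
  obtain ⟨L, hL⟩ := SS_tendsto hn h0 hs C hC hb
  obtain ⟨L', hL'⟩ := SS_tendsto hn (h := fun β => -(β.degree : ℝ)) (fun β => by simp)
    (fun α β => by simp [add_comm]) 1 zero_le_one (fun β => by simp)
  have e : ∀ k, SS (fun β : Fin n →₀ ℕ => -(β.degree : ℝ)) k = -ll n k := by
    intro k; simp [SS, ll_eq]
  simp only [e] at hL'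
  have hn' : (0 : ℝ) < n := by exact_mod_cast hn
  have hneg : L' ≤ -(1 / (2 * (n : ℝ) ^ n)) := by
    refine le_of_tendsto hL' ?_
    filter_upwards [eventually_gt_atTop 0] with k hk0
    have hk' : (0 : ℝ) < k := by exact_mod_cast hk0
    have h1 := le_ll hn k
    have h2 := NN_ge hn k
    rw [neg_div, neg_le_neg_iff, div_le_div_iff₀ (by positivity) (by positivity)]
    rw [div_pow, div_le_iff₀ (by positivity)] at h2
    have h3 : (0 : ℝ) < (n : ℝ) ^ n := by positivity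
    calc 1 * (k : ℝ) ^ (n + 1) = k * k ^ n := by ring
      _ ≤ k * (NN n k * n ^ n) := by gcongr
      _ = (k * NN n k) * n ^ n := by ring
      _ ≤ (2 * ll n k) * n ^ n := by gcongr
      _ = _ := by ring
  have hne : L' ≠ 0 := by
    have : 0 < 1 / (2 * (n : ℝ) ^ n) := by positivity
    linarith
  refine ⟨-(L / L'), (hL.div hL' hne).neg.congr' ?_⟩
  filter_upwards [eventually_gt_atTop 0] with k hk0
  have hk' : (0 : ℝ) < k := by exact_mod_cast hk0
  have := ll_pos hn hk0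
  simp only [Pi.div_apply]
  field_simp

lemma NN_div_ll (hn : 1 ≤ n) {k : ℕ} (hk : 1 ≤ k) : (NN n k : ℝ) / ll n k ≤ 2 / k := by
  have hk' : (0 : ℝ) < k := by exact_mod_cast hk
  rw [div_le_div_iff₀ (ll_pos hn hk) hk']
  have := le_ll hn k
  linarith

lemma err_tendsto (hn : 1 ≤ n) {A : ℝ} (hA : 1 ≤ A) :
    Tendsto (fun k : ℕ => NN n k * Real.log (A * NN n k) / ll n k) atTop (𝓝 0) := by
  have h1 : Tendsto (fun k : ℕ => Real.log ((k : ℝ) + 1) / k) atTop (𝓝 0) := by
    have := (Real.tendsto_pow_log_div_mul_add_atTop 1 (-1) 1 one_ne_zero).comp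
      (tendsto_atTop_add_const_right _ 1 tendsto_natCast_atTop_atTop)
    refine this.congr fun k => ?_
    simp
  have h2 : Tendsto (fun k : ℕ => 2 * (Real.log A / k + n * (Real.log ((k : ℝ) + 1) / k))) atTop
      (𝓝 (2 * (0 + n * 0))) :=
    ((tendsto_const_div_atTop_nhds_zero_nat _).add (h1.const_mul _)).const_mul _
  simp only [mul_zero, add_zero] at h2
  refine squeeze_zero' ?_ ?_ h2
  · filter_upwards [eventually_gt_atTop 0] with k hk0
    have h3 : (1 : ℝ) ≤ NN n k := by exact_mod_cast NN_pos k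
    have := ll_pos hn hk0
    have := Real.log_nonneg (x := A * NN n k) (by nlinarith)
    positivity
  · filter_upwards [eventually_gt_atTop 0] with k hk0
    have hk' : (0 : ℝ) < k := by exact_mod_cast hk0
    have h3 : (1 : ℝ) ≤ NN n k := by exact_mod_cast NN_pos k
    have h4 : (NN n k : ℝ) ≤ ((k : ℝ) + 1) ^ n := by exact_mod_cast NN_le k
    have h5 := Real.log_nonneg (x := A * NN n k) (by nlinarith)
    have h6 : Real.log (A * NN n k) ≤ Real.log A + n * Real.log ((k : ℝ) + 1) := by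
      rw [Real.log_mul (by linarith) (by linarith), ← Real.log_pow]
      gcongr
    calc NN n k * Real.log (A * NN n k) / ll n k = NN n k / ll n k * Real.log (A * NN n k) := by
          ring
      _ ≤ 2 / k * (Real.log A + n * Real.log ((k : ℝ) + 1)) :=
          mul_le_mul (NN_div_ll hn hk0) h6 h5 (by positivity)
      _ = _ := by ring

end Pool.Agent.H597Z.BM
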