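import Mathlib

set_option autoImplicit false

namespace Pool.Agent.H597Z.BM

open Filter Topology Finset MeasureTheory

variable {ι X : Type*} [Fintype ι] [DecidableEq ι]

noncomputable def vdm (f : ι → X → ℂ) (x : ι → X) : ℂ := (Matrix.of fun a b => f b (x a)).det

noncomputable def comb (f : ι → X → ℂ) (c : ι → ℂ) (x : X) : ℂ := ∑ b, c b * f b x

def Mon (lo : LinearOrder ι) (i : ι) (c : ι → ℂ) : Prop := c i = 1 ∧ ∀ j, lo.lt i j → c j = 0

lemma vdm_comb (lo : LinearOrder ι) (f : ι → X → ℂ) (t : ι → ι → ℂ) (ht : ∀ i, Mon lo i (t i))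
    (x : ι → X) : vdm (fun b => comb f (t b)) x = vdm f x := by
  let _ := lo
  have h1 : (Matrix.of fun a b => comb f (t b) (x a)) =
      (Matrix.of fun a b => f b (x a)) * Matrix.of fun j b => t b j := by
    ext a b
    simp [Matrix.mul_apply, comb, mul_comm]
  have h2 : (Matrix.of fun j b => t b j).det = 1 := by
    have : (Matrix.of fun j b => t b j).BlockTriangular id := fun j b h => (ht b).2 j h
    have h3 := Matrix.det_of_isUpperTriangular this
    have h4 : ∏ i, (Matrix.of fun j b => t b j) i i = 1 :=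
      Finset.prod_eq_one fun i _ => (ht i).1
    rw [h4] at h3
    convert h3
  rw [vdm, vdm, h1, Matrix.det_mul, h2, mul_one]

lemma leja (lo : LinearOrder ι) (f : ι → X → ℂ) (K : Set X) (hK : K.Nonempty) (Y : ι → ℝ)
    (hY : ∀ i, 0 ≤ Y i) (h : ∀ i c, Mon lo i c → ∃ x ∈ K, Y i ≤ ‖comb f c x‖) :
    ∃ x : ι → X, (∀ a, x a ∈ K) ∧ ∏ i, Y i ≤ ‖vdm f x‖ := by
  let _ := lo
  let M : Finset ι → (ι → X) → Matrix ι ι ℂ := fun s x =>
    Matrix.of fun a b => if a ∈ s then f b (x a) else if a = b then 1 else 0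
  have key : ∀ s : Finset ι, (∀ a ∈ s, ∀ b, b < a → b ∈ s) →
      ∃ x : ι → X, (∀ a, x a ∈ K) ∧ ∏ i ∈ s, Y i ≤ ‖(M s x).det‖ := by
    intro s
    induction s using Finset.induction_on_max with
    | empty =>
      intro _
      obtain ⟨x0, hx0⟩ := hK
      refine ⟨fun _ => x0, fun _ => hx0, ?_⟩
      have : M ∅ (fun _ => x0) = 1 := by
        ext a b; simp [M, Matrix.one_apply]
      simp [this]
    | insert i s hi ih =>
      intro hs
      have his : i ∉ s := fun h => lt_irrefl _ (hi i h)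
      obtain ⟨x, hx, hx'⟩ := ih (fun a ha b hb => by
        rcases mem_insert.mp (hs a (by simp [ha]) b hb) with h | h
        · exact absurd (hi a ha) (by rw [← h]; exact not_lt.mpr hb.le)
        · exact h)
      rw [Finset.prod_insert his]
      by_cases h0 : (M s x).det = 0
      · refine ⟨x, hx, ?_⟩
        rw [h0, norm_zero] at hx'
        exact (mul_nonpos_of_nonneg_of_nonpos (hY i) hx').trans (norm_nonneg _)
      have hrow : ∀ j, j ∉ s → M s x j = Pi.single j 1 := by
        intro j hj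
        funext b
        simp [M, hj, Pi.single_apply, eq_comm]
      let c : ι → ℂ := fun b => ((M s x).updateRow i (Pi.single b 1)).det / (M s x).det
      have hc : Mon lo i c := by
        constructor
        · simp only [c]
          rw [← hrow i his, Matrix.updateRow_eq_self, div_self h0]
        · intro j hj
          have hjs : j ∉ s := fun h => lt_asymm hj (hi j h)
          have hne : i ≠ j := ne_of_lt hj
          simp only [c]
          rw [Matrix.det_zero_of_row_eq hne, zero_div]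
          rw [Matrix.updateRow_self, Matrix.updateRow_ne hne.symm, hrow j hjs]
      obtain ⟨y, hy, hy'⟩ := h i c hc
      refine ⟨Function.update x i y, fun a => ?_, ?_⟩
      · by_cases ha : a = i
        · subst ha; simpa using hy
        · simpa [Function.update_of_ne ha] using hx a
      have e1 : M (insert i s) (Function.update x i y) =
          (M s x).updateRow i (∑ b, f b y • (Pi.single b 1 : ι → ℂ)) := by
        ext a b
        by_cases ha : a = i
        · subst ha
          simp [M, Finset.sum_apply, Pi.single_apply]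
        · simp [M, ha]
      have e2 : (M (insert i s) (Function.update x i y)).det = (M s x).det * comb f c y := by
        rw [e1]
        have : ∀ v, ((M s x).updateRow i v).det =
          (Matrix.detRowAlternating.toMultilinearMap.toLinearMap (M s x) i) v := fun v => rfl
        rw [this, map_sum, comb, Finset.mul_sum]
        refine Finset.sum_congr rfl fun b _ => ?_
        rw [map_smul, ← this]
        simp only [c, smul_eq_mul]
        field_simp
      rw [e2, norm_mul, mul_comm]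
      exact mul_le_mul hx' hy' (hY i) (norm_nonneg _)
  obtain ⟨x, hx, hx'⟩ := key univ (fun _ _ _ _ => mem_univ _)
  refine ⟨x, hx, ?_⟩
  have : M univ x = Matrix.of fun a b => f b (x a) := by
    ext a b; simp [M]
  rwa [this] at hx'

lemma norm_vdm_le (f : ι → X → ℂ) (x : ι → X) :
    ‖vdm f x‖ ≤ ∑ σ : Equiv.Perm ι, ∏ i, ‖f i (x (σ i))‖ := by
  rw [vdm, Matrix.det_apply]
  refine (norm_sum_le _ _).trans (Finset.sum_le_sum fun σ _ => le_of_eq ?_)
  rcases Int.units_eq_one_or (Equiv.Perm.sign σ) with h | h <;> simp [h]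

lemma norm_vdm_le' (f : ι → X → ℂ) (x : ι → X) (B : ι → ℝ) (h : ∀ i a, ‖f i (x a)‖ ≤ B i) :
    ‖vdm f x‖ ≤ (Fintype.card ι).factorial * ∏ i, B i := by
  refine (norm_vdm_le f x).trans ?_
  have := Finset.sum_le_card_nsmul univ (fun σ : Equiv.Perm ι => ∏ i, ‖f i (x (σ i))‖) (∏ i, B i)
    (fun σ _ => Finset.prod_le_prod (fun _ _ => norm_nonneg _) fun i _ => h i _)
  simpa [Fintype.card_perm] using this

lemma vdm_update (f : ι → X → ℂ) (x : ι → X) (i : ι) :
    ∃ c : ι → ℂ, ∀ y, vdm f (Function.update x i y) = comb f c y := by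
  let M : Matrix ι ι ℂ := Matrix.of fun a b => f b (x a)
  refine ⟨fun b => (M.updateRow i (Pi.single b 1)).det, fun y => ?_⟩
  have e1 : (Matrix.of fun a b => f b (Function.update x i y a)) =
      M.updateRow i (∑ b, f b y • (Pi.single b 1 : ι → ℂ)) := by
    ext a b
    by_cases ha : a = i
    · subst ha
      simp [Finset.sum_apply, Pi.single_apply]
    · simp [M, ha]
  have : ∀ v, (M.updateRow i v).det =
    (Matrix.detRowAlternating.toMultilinearMap.toLinearMap M i) v := fun v => rfl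
  rw [vdm, e1, this, map_sum, comb]
  refine Finset.sum_congr rfl fun b _ => ?_
  rw [map_smul, ← this, smul_eq_mul, mul_comm]

omit [DecidableEq ι] in
lemma le_prod_inf {T : ι → Type*} [∀ i, Nonempty (T i)] (g : ∀ i, T i → ℝ) (θ : ι → ℝ) (z A : ℝ)
    (hA : 0 ≤ A) (hθ : ∀ i, 0 ≤ θ i) (hg : ∀ i t, 0 ≤ g i t)
    (h : ∀ t : ∀ i, T i, z ≤ A * ∏ i, (θ i * g i (t i) ^ 2)) :
    z ≤ A * ∏ i, (θ i * (⨅ t, g i t) ^ 2) := by
  have h1 : Tendsto (fun η : ℝ => A * ∏ i, (θ i * ((⨅ t, g i t) + η) ^ 2)) (𝓝[>] 0)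
      (𝓝 (A * ∏ i, (θ i * ((⨅ t, g i t) + 0) ^ 2))) := by
    apply Tendsto.mono_left _ nhdsWithin_le_nhds
    apply Continuous.tendsto (f := fun η : ℝ => A * ∏ i, (θ i * ((⨅ t, g i t) + η) ^ 2))
    fun_prop
  simp only [add_zero] at h1
  refine ge_of_tendsto h1 ?_
  filter_upwards [self_mem_nhdsWithin] with η hη
  choose t ht using fun i => exists_lt_of_ciInf_lt
    (lt_add_of_pos_right (⨅ t, g i t) (show (0 : ℝ) < η from hη))
  refine (h t).trans (mul_le_mul_of_nonneg_left (Finset.prod_le_prod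
    (fun i _ => mul_nonneg (hθ i) (sq_nonneg _)) fun i _ => ?_) hA)
  have := hg i (t i)
  have := (ht i).le
  have := hθ i
  gcongr

section meas

variable [TopologicalSpace X] [SecondCountableTopology X] [MeasurableSpace X] [BorelSpace X]
  {K : Set X} (ν : Measure X) [IsFiniteMeasure ν]

omit [SecondCountableTopology X] in
lemma integrable_of_compact (hK : IsCompact K) (hν : ν Kᶜ = 0) {g : X → ℝ} (hg : Continuous g) :
    Integrable g ν := by
  obtain ⟨C, hC⟩ := hK.exists_bound_of_continuousOn hg.continuousOn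
  refine Integrable.of_bound hg.measurable.aestronglyMeasurable C ?_
  have : ∀ᵐ x ∂ν, x ∈ K := hν
  filter_upwards [this] with x hx using hC x hx

omit [DecidableEq ι] [TopologicalSpace X] [SecondCountableTopology X] [BorelSpace X] in
lemma ae_pi_mem (hν : ν Kᶜ = 0) : ∀ᵐ z ∂(Measure.pi fun _ : ι => ν), ∀ a, z a ∈ K := by
  have : ∀ᵐ x ∂ν, x ∈ K := hν
  exact ae_all_iff.mpr fun a => Measure.tendsto_eval_ae_ae.eventually this

omit [DecidableEq ι] in
lemma integrable_pi (hK : IsCompact K) (hν : ν Kᶜ = 0) {g : (ι → X) → ℝ} (hg : Continuous g) :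
    Integrable g (Measure.pi fun _ : ι => ν) := by
  refine integrable_of_compact (K := Set.pi Set.univ fun _ => K) _
    (isCompact_univ_pi fun _ => hK) ?_ hg
  have := ae_pi_mem (ι := ι) ν hν
  refine measure_mono_null ?_ this
  intro z hz
  simpa using hz

omit [SecondCountableTopology X] [MeasurableSpace X] [BorelSpace X] in
lemma continuous_vdm {f : ι → X → ℂ} (hf : ∀ b, Continuous (f b)) : Continuous (vdm f) := by
  unfold vdm
  apply Continuous.matrix_det
  refine continuous_matrix fun a b => ?_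
  exact (hf b).comp (continuous_apply a)

lemma int_le_prod (hK : IsCompact K) (hν : ν Kᶜ = 0) {f : ι → X → ℂ} (hf : ∀ b, Continuous (f b)) :
    ∫ z, ‖vdm f z‖ ^ 2 ∂(Measure.pi fun _ : ι => ν) ≤
      ((Fintype.card ι).factorial : ℝ) ^ 2 * ∏ b, ∫ y, ‖f b y‖ ^ 2 ∂ν := by
  have hc : ∀ σ : Equiv.Perm ι, Continuous fun z : ι → X => ∏ i, ‖f (σ.symm i) (z i)‖ ^ 2 :=
    fun σ => by fun_prop
  have h1 : ∀ z : ι → X, ‖vdm f z‖ ^ 2 ≤ ((Fintype.card ι).factorial : ℝ) *
      ∑ σ : Equiv.Perm ι, ∏ i, ‖f (σ.symm i) (z i)‖ ^ 2 := by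
    intro z
    refine (pow_le_pow_left₀ (norm_nonneg _) (norm_vdm_le f z) 2).trans ?_
    refine sq_sum_le_card_mul_sum_sq.trans (le_of_eq ?_)
    simp only [card_univ, Fintype.card_perm]
    congr 1
    refine Finset.sum_congr rfl fun σ _ => ?_
    rw [← Finset.prod_pow, ← Equiv.prod_comp σ fun i => ‖f (σ.symm i) (z i)‖ ^ 2]
    simp
  refine (integral_mono (integrable_pi ν hK hν ((continuous_vdm hf).norm.pow 2))
    (integrable_pi ν hK hν (by fun_prop)) h1).trans (le_of_eq ?_)
  rw [integral_const_mul, integral_finsetSum _ fun σ _ => integrable_pi ν hK hν (hc σ)]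
  have : ∀ σ : Equiv.Perm ι, ∫ z : ι → X, ∏ i, ‖f (σ.symm i) (z i)‖ ^ 2
      ∂(Measure.pi fun _ : ι => ν) = ∏ b, ∫ y, ‖f b y‖ ^ 2 ∂ν := by
    intro σ
    rw [integral_fintype_prod_eq_prod (fun i y => ‖f (σ.symm i) y‖ ^ 2)]
    exact Equiv.prod_comp σ.symm fun b => ∫ y, ‖f b y‖ ^ 2 ∂ν
  simp only [this, sum_const, card_univ, Fintype.card_perm, nsmul_eq_mul]
  ring

lemma int_le_sup (hK : IsCompact K) (hν : ν Kᶜ = 0) {f : ι → X → ℂ} (hf : ∀ b, Continuous (f b))
    (V : ℝ) (hV : ∀ x : ι → X, (∀ a, x a ∈ K) → ‖vdm f x‖ ≤ V) :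
    ∫ z, ‖vdm f z‖ ^ 2 ∂(Measure.pi fun _ : ι => ν) ≤
      (ν.real Set.univ) ^ Fintype.card ι * V ^ 2 := by
  refine (integral_mono_ae (integrable_pi ν hK hν ((continuous_vdm hf).norm.pow 2))
    (integrable_const (V ^ 2)) ?_).trans (le_of_eq ?_)
  · filter_upwards [ae_pi_mem (ι := ι) ν hν] with z hz
    exact pow_le_pow_left₀ (norm_nonneg _) (hV z hz) 2
  · simp [Measure.real, Measure.pi_univ]

lemma sup_le_int (hK : IsCompact K) (hν : ν Kᶜ = 0) {f : ι → X → ℂ} (hf : ∀ b, Continuous (f b))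
    (M : ℝ) (hM : 0 ≤ M)
    (h : ∀ c : ι → ℂ, ∀ x ∈ K, ‖comb f c x‖ ^ 2 ≤ M * ∫ y, ‖comb f c y‖ ^ 2 ∂ν)
    (x : ι → X) (hx : ∀ a, x a ∈ K) :
    ‖vdm f x‖ ^ 2 ≤ M ^ Fintype.card ι * ∫ z, ‖vdm f z‖ ^ 2 ∂(Measure.pi fun _ : ι => ν) := by
  let F : (ι → X) → ENNReal := fun z => ENNReal.ofReal (‖vdm f z‖ ^ 2)
  have hF : Measurable F := ((continuous_vdm hf).norm.pow 2).measurable.ennreal_ofReal
  have key : ∀ s : Finset ι, ∀ x : ι → X, (∀ a, x a ∈ K) →
      F x ≤ ENNReal.ofReal M ^ s.card * (∫⋯∫⁻_s, F ∂fun _ => ν) x := by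
    intro s
    induction s using Finset.induction_on with
    | empty => intro x _; simp
    | insert i s hi ih =>
      intro x hx
      obtain ⟨c, hc⟩ := vdm_update f x i
      have hcc : Continuous fun y => ‖comb f c y‖ ^ 2 := by unfold comb; fun_prop
      have h1 : F x ≤ ENNReal.ofReal M * ∫⁻ y, F (Function.update x i y) ∂ν := by
        have h2 := h c (x i) (hx i)
        rw [← hc, Function.update_eq_self] at h2
        simp only [F, hc]
        rw [← ofReal_integral_eq_lintegral_ofReal (integrable_of_compact ν hK hν hcc)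
          (ae_of_all _ fun y => by positivity), ← ENNReal.ofReal_mul hM]
        exact ENNReal.ofReal_le_ofReal h2
      rw [lmarginal_insert _ hF hi, card_insert_of_notMem hi, pow_succ', mul_assoc]
      refine h1.trans (mul_le_mul_right ?_ _)
      rw [← lintegral_const_mul' _ _ (ENNReal.pow_ne_top ENNReal.ofReal_ne_top)]
      refine lintegral_mono_ae ?_
      have : ∀ᵐ y ∂ν, y ∈ K := hν
      filter_upwards [this] with y hy
      refine ih _ fun a => ?_
      by_cases ha : a = i
      · subst ha; simpa using hy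
      · simpa [Function.update_of_ne ha] using hx a
  have h1 := key univ x hx
  have hcc : Continuous fun z : ι → X => ‖vdm f z‖ ^ 2 := (continuous_vdm hf).norm.pow 2
  rw [← lintegral_eq_lmarginal_univ, ← ofReal_integral_eq_lintegral_ofReal
    (integrable_pi ν hK hν hcc) (ae_of_all _ fun y => by positivity),
    ← ENNReal.ofReal_pow hM, ← ENNReal.ofReal_mul (by positivity)] at h1
  exact (ENNReal.ofReal_le_ofReal_iff
    (mul_nonneg (by positivity) (integral_nonneg fun _ => by positivity))).mp h1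

end meas

end Pool.Agent.H597Z.BM
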