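import Mathlib

set_option autoImplicit false

namespace Pool.Agent.H597Z.BM

open Filter Topology Finset MvPolynomial

lemma sum_sq_le (P : Polynomial ℂ) (M : ℝ) (h : ∀ t : ℂ, ‖t‖ = 1 → ‖P.eval t‖ ≤ M) :
    ∑ i ∈ P.support, ‖P.coeff i‖ ^ 2 ≤ M ^ 2 := by
  rw [P.sum_sq_norm_coeff_eq_circleAverage]
  apply Real.circleAverage_mono_on_of_le_circle
  · apply ContinuousOn.circleIntegrable'
    fun_prop
  · intro t ht
    exact pow_le_pow_left₀ (norm_nonneg _) (h t (by simpa using ht)) 2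

lemma coeff_le_one (P : Polynomial ℂ) (M : ℝ) (h : ∀ t : ℂ, ‖t‖ = 1 → ‖P.eval t‖ ≤ M) (i : ℕ) :
    ‖P.coeff i‖ ≤ M := by
  have hM : 0 ≤ M := (norm_nonneg _).trans (h 1 (by simp))
  by_cases hi : i ∈ P.support
  · refine (pow_le_pow_iff_left₀ (norm_nonneg _) hM two_ne_zero).mp ?_
    exact (Finset.single_le_sum (f := fun i => ‖P.coeff i‖ ^ 2) (fun _ _ => sq_nonneg _) hi).trans
      (sum_sq_le P M h)
  · rw [Polynomial.notMem_support_iff.mp hi]; simpa using hM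

lemma mahler_le (P : Polynomial ℂ) (M : ℝ) (h : ∀ t : ℂ, ‖t‖ = 1 → ‖P.eval t‖ ≤ M) :
    P.mahlerMeasure ≤ M := by
  have hM : 0 ≤ M := (norm_nonneg _).trans (h 1 (by simp))
  refine P.mahlerMeasure_le_sqrt_sum_sq_norm_coeff.trans ?_
  rw [Real.sqrt_le_left hM]
  exact sum_sq_le P M h

lemma eval_le_mahler (Q : Polynomial ℂ) (T : ℝ) (hT : 0 ≤ T) {j : ℕ} (hj : Q.natDegree ≤ j) :
    ‖Q.eval (T : ℂ)‖ ≤ (T + 1) ^ j * Q.mahlerMeasure := by
  have h0 := Q.mahlerMeasure_nonneg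
  rw [Polynomial.eval_eq_sum_range]
  refine (norm_sum_le _ _).trans ?_
  calc ∑ i ∈ range (Q.natDegree + 1), ‖Q.coeff i * (T : ℂ) ^ i‖
      ≤ ∑ i ∈ range (Q.natDegree + 1),
          T ^ i * 1 ^ (Q.natDegree - i) * Q.natDegree.choose i * Q.mahlerMeasure := by
        refine Finset.sum_le_sum fun i _ => ?_
        rw [norm_mul, norm_pow, Complex.norm_real, Real.norm_of_nonneg hT, one_pow, mul_one,
          mul_comm, mul_assoc]
        exact mul_le_mul_of_nonneg_left (Q.norm_coeff_le_choose_mul_mahlerMeasure i)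
          (by positivity)
    _ = (T + 1) ^ Q.natDegree * Q.mahlerMeasure := by rw [← Finset.sum_mul, ← add_pow]
    _ ≤ _ := by gcongr; linarith

lemma coeff_le : ∀ (n : ℕ) (p : MvPolynomial (Fin n) ℂ) (M : ℝ),
    (∀ z : Fin n → ℂ, (∀ i, ‖z i‖ = 1) → ‖eval z p‖ ≤ M) → ∀ α, ‖coeff α p‖ ≤ M := by
  intro n
  induction n with
  | zero =>
    intro p M h α
    have := h (fun _ => 1) (fun _ => by simp)
    rw [eq_C_of_isEmpty p, eval_C] at this
    rwa [Subsingleton.elim α 0]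
  | succ n ih =>
    intro p M h α
    rw [← Finsupp.cons_tail α, ← finSuccEquiv_coeff_coeff]
    refine ih _ M (fun z hz => ?_) _
    rw [← Polynomial.coeff_map]
    refine coeff_le_one _ M (fun t ht => ?_) _
    rw [← eval_eq_eval_mv_eval']
    exact h _ fun i => Fin.cases (by simpa using ht) (fun j => by simpa using hz j) i

variable {n : ℕ}

noncomputable def nK (K : Set (Fin n → ℂ)) (p : MvPolynomial (Fin n) ℂ) : ℝ :=
  sSup ((fun x => ‖eval x p‖) '' K)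

structure Reg (K : Set (Fin n → ℂ)) (V : (Fin n → ℂ) → ℝ) : Prop where
  cpt : IsCompact K
  cont : Continuous V
  lub : ∀ z : Fin n → ℂ,
      IsLUB {t : ℝ | ∃ k : ℕ, 1 ≤ k ∧ ∃ p : MvPolynomial (Fin n) ℂ, p.totalDegree ≤ k ∧
        (∀ x ∈ K, ‖MvPolynomial.eval x p‖ ≤ 1) ∧
        t = Real.log ‖MvPolynomial.eval z p‖ / (k : ℝ)} (V z)

lemma cont_eval (p : MvPolynomial (Fin n) ℂ) : Continuous fun x : Fin n → ℂ => eval x p :=
  MvPolynomial.continuous_eval p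

variable {K : Set (Fin n → ℂ)} {V : (Fin n → ℂ) → ℝ}

lemma Reg.ne (h : Reg K V) : K.Nonempty := by
  by_contra hK
  rw [Set.not_nonempty_iff_eq_empty] at hK
  have := (h.lub 0).1 ⟨1, le_rfl, C ((Real.exp (V 0 + 1) : ℝ) : ℂ), by simp,
    by simp [hK], rfl⟩
  rw [eval_C, Complex.norm_real, Real.norm_of_nonneg (Real.exp_pos _).le, Real.log_exp] at this
  simp at this
  linarith

lemma Reg.le_nK (h : Reg K V) (p : MvPolynomial (Fin n) ℂ) {x : Fin n → ℂ} (hx : x ∈ K) :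
    ‖eval x p‖ ≤ nK K p :=
  le_csSup (h.cpt.image (cont_eval p).norm).bddAbove ⟨x, hx, rfl⟩

lemma Reg.nK_le (h : Reg K V) {p : MvPolynomial (Fin n) ℂ} {B : ℝ}
    (hB : ∀ x ∈ K, ‖eval x p‖ ≤ B) : nK K p ≤ B :=
  csSup_le (h.ne.image _) (by rintro _ ⟨x, hx, rfl⟩; exact hB x hx)

lemma Reg.exists_nK (h : Reg K V) (p : MvPolynomial (Fin n) ℂ) :
    ∃ x ∈ K, nK K p = ‖eval x p‖ := by
  obtain ⟨x, hx, hx'⟩ := h.cpt.exists_isMaxOn h.ne (cont_eval p).norm.continuousOn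
  exact ⟨x, hx, le_antisymm (h.nK_le fun y hy => hx' hy) (h.le_nK p hx)⟩

lemma Reg.nK_nonneg (h : Reg K V) (p : MvPolynomial (Fin n) ℂ) : 0 ≤ nK K p := by
  obtain ⟨x, _, hx⟩ := h.exists_nK p
  rw [hx]; exact norm_nonneg _

lemma Reg.nK_mul (h : Reg K V) (p q : MvPolynomial (Fin n) ℂ) :
    nK K (p * q) ≤ nK K p * nK K q :=
  h.nK_le fun x hx => by
    rw [map_mul, norm_mul]
    exact mul_le_mul (h.le_nK p hx) (h.le_nK q hx) (norm_nonneg _) (h.nK_nonneg p)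

lemma Reg.V_le (h : Reg K V) {x : Fin n → ℂ} (hx : x ∈ K) : V x ≤ 0 :=
  (h.lub x).2 (by
    rintro _ ⟨k, _, p, _, hp, rfl⟩
    exact div_nonpos_of_nonpos_of_nonneg (Real.log_nonpos (norm_nonneg _) (hp x hx))
      (Nat.cast_nonneg _))

lemma Reg.bw (h : Reg K V) {k : ℕ} {p : MvPolynomial (Fin n) ℂ} (hp : p.totalDegree ≤ k)
    (z : Fin n → ℂ) : ‖eval z p‖ ≤ nK K p * Real.exp (k * V z) := by
  rcases Nat.eq_zero_or_pos k with rfl | hk
  · obtain ⟨x, hx⟩ := h.ne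
    have := h.le_nK p hx
    rw [totalDegree_eq_zero_iff_eq_C.mp (Nat.le_zero.mp hp)] at this ⊢
    simpa using this
  rw [← div_le_iff₀ (Real.exp_pos _)]
  refine le_of_forall_gt_imp_ge_of_dense fun η hη => ?_
  have hη0 : 0 < η := (h.nK_nonneg p).trans_lt hη
  rw [div_le_iff₀ (Real.exp_pos _)]
  by_cases h0 : eval z p = 0
  · rw [h0, norm_zero]; positivity
  have e : ∀ x, ‖eval x (C ((η⁻¹ : ℝ) : ℂ) * p)‖ = ‖eval x p‖ / η := by
    intro x
    rw [map_mul, eval_C, norm_mul, Complex.norm_real, Real.norm_of_nonneg (by positivity)]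
    ring
  have := (h.lub z).1 ⟨k, hk, C ((η⁻¹ : ℝ) : ℂ) * p,
    (totalDegree_mul _ _).trans (by simpa using hp), fun x hx => by
      rw [e, div_le_one hη0]; exact (h.le_nK p hx).trans hη.le, rfl⟩
  rw [e, div_le_iff₀ (by exact_mod_cast hk), Real.log_le_iff_le_exp (by positivity),
    div_le_iff₀ hη0] at this
  rw [mul_comm (k : ℝ), mul_comm η]
  exact this

lemma Reg.exists_bound (h : Reg K V) : ∃ R : ℝ, 1 ≤ R ∧ ∀ x ∈ K, ‖x‖ ≤ R := by
  obtain ⟨R, hR⟩ := h.cpt.isBounded.exists_norm_le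
  exact ⟨max R 1, le_max_right _ _, fun x hx => (hR x hx).trans (le_max_left _ _)⟩

lemma Reg.coeff_bound (h : Reg K V) : ∃ A : ℝ, 0 ≤ A ∧ ∀ (k : ℕ) (p : MvPolynomial (Fin n) ℂ),
    p.totalDegree ≤ k → ∀ α, ‖coeff α p‖ ≤ nK K p * Real.exp (k * A) := by
  obtain ⟨A, hA⟩ := (isCompact_closedBall (0 : Fin n → ℂ) 1).exists_bound_of_continuousOn
    h.cont.continuousOn
  refine ⟨max A 0, le_max_right _ _, fun k p hp => coeff_le n p _ fun z hz => ?_⟩
  refine (h.bw hp z).trans ?_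
  have h1 : V z ≤ max A 0 := by
    refine (le_abs_self _).trans ((hA z ?_).trans (le_max_left _ _))
    rw [mem_closedBall_zero_iff, pi_norm_le_iff_of_nonneg zero_le_one]
    exact fun i => (hz i).le
  have := h.nK_nonneg p
  gcongr

lemma Reg.prod_lb (h : Reg K V) {a : ℝ} (ha : 0 < a) : ∃ B : ℝ, 1 ≤ B ∧
    ∀ (k j : ℕ) (p q : MvPolynomial (Fin n) ℂ), p.totalDegree ≤ k → q.totalDegree ≤ j →
      nK K p * nK K q ≤ B ^ j * (nK K (p * q) * Real.exp ((k + j : ℕ) * a)) := by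
  obtain ⟨r, hr, hr'⟩ := h.cpt.exists_thickening_subset_open (t := V ⁻¹' Set.Iio a)
    (isOpen_Iio.preimage h.cont) (fun x hx => (h.V_le hx).trans_lt ha)
  obtain ⟨R, hR, hR'⟩ := h.exists_bound
  let T : ℝ := 4 * R / r
  have hT : 0 < T := by positivity
  refine ⟨T + 1, by linarith, fun k j p q hp hq => ?_⟩
  obtain ⟨z, hz, hz'⟩ := h.exists_nK p
  obtain ⟨w, hw, hw'⟩ := h.exists_nK q
  let u : Fin n → ℂ := ((T⁻¹ : ℝ) : ℂ) • (w - z)
  let g : Fin n → Polynomial ℂ := fun i => Polynomial.C (u i) * Polynomial.X + Polynomial.C (z i)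
  have hg : ∀ (t : ℂ) (f : MvPolynomial (Fin n) ℂ), (aeval g f).eval t = eval (t • u + z) f := by
    intro t f
    induction f using MvPolynomial.induction_on with
    | C c => simp
    | add f f' h1 h2 => simp [h1, h2]
    | mul_X f i h1 =>
      rw [map_mul, Polynomial.eval_mul, h1, map_mul, aeval_X, eval_X]
      simp only [g, Polynomial.eval_add, Polynomial.eval_mul, Polynomial.eval_C, Polynomial.eval_X,
        Pi.add_apply, Pi.smul_apply, smul_eq_mul, mul_comm t]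
  have h1 : nK K p ≤ (aeval g p).mahlerMeasure := by
    have := (aeval g p).norm_coeff_le_choose_mul_mahlerMeasure 0
    rw [Polynomial.coeff_zero_eq_eval_zero, hg] at this
    simpa [hz'] using this
  have h2 : nK K q ≤ (T + 1) ^ j * (aeval g q).mahlerMeasure := by
    have := eval_le_mahler (aeval g q) T hT.le (j := j) (by
      simpa using aeval_natDegree_le q hq g (n := 1) fun i => Polynomial.natDegree_linear_le)
    have e : (T : ℂ) • u + z = w := by
      simp only [u, smul_smul]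
      rw [← Complex.ofReal_mul, mul_inv_cancel₀ hT.ne']
      simp
    rwa [hg, e, ← hw'] at this
  have h3 : (aeval g (p * q)).mahlerMeasure ≤ nK K (p * q) * Real.exp ((k + j : ℕ) * a) := by
    refine mahler_le _ _ fun t ht => ?_
    rw [hg]
    refine (h.bw ((totalDegree_mul _ _).trans (add_le_add hp hq)) _).trans ?_
    have h4 : V (t • u + z) ≤ a := by
      refine le_of_lt (hr' (Metric.mem_thickening_iff.mpr ⟨z, hz, ?_⟩))
      rw [dist_eq_norm, add_sub_cancel_right, norm_smul, ht, one_mul, norm_smul, Complex.norm_real,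
        Real.norm_of_nonneg (by positivity), inv_mul_lt_iff₀ hT]
      have := (norm_sub_le w z).trans (add_le_add (hR' w hw) (hR' z hz))
      have e : T * r = 4 * R := by simp only [T]; field_simp
      linarith
    have := h.nK_nonneg (p * q)
    gcongr
  rw [map_mul, Polynomial.mahlerMeasure_mul] at h3
  calc nK K p * nK K q ≤ (aeval g p).mahlerMeasure * ((T + 1) ^ j * (aeval g q).mahlerMeasure) :=
        mul_le_mul h1 h2 (h.nK_nonneg q) (Polynomial.mahlerMeasure_nonneg _)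
    _ = (T + 1) ^ j * ((aeval g p).mahlerMeasure * (aeval g q).mahlerMeasure) := by ring
    _ ≤ _ := by gcongr

open MonomialOrder

abbrev MonD (α : Fin n →₀ ℕ) :=
  {p : MvPolynomial (Fin n) ℂ // degLex.Monic p ∧ degLex.degree p = α}

instance (α : Fin n →₀ ℕ) : Nonempty (MonD α) :=
  ⟨⟨monomial α 1, monic_monomial_one, by classical simp [degree_monomial]⟩⟩

lemma MonD.deg {α : Fin n →₀ ℕ} (p : MonD α) : p.1.totalDegree = α.degree := by
  rw [← degree_degLexDegree, p.2.2]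

noncomputable def YY (K : Set (Fin n → ℂ)) (α : Fin n →₀ ℕ) : ℝ := ⨅ p : MonD α, nK K p.1

lemma Reg.YY_le (h : Reg K V) {α : Fin n →₀ ℕ} (p : MonD α) : YY K α ≤ nK K p.1 :=
  ciInf_le ⟨0, by rintro _ ⟨q, rfl⟩; exact h.nK_nonneg _⟩ p

lemma Reg.YY_lb (h : Reg K V) : ∃ A : ℝ, 0 ≤ A ∧ ∀ α, Real.exp (-(α.degree * A)) ≤ YY K α := by
  obtain ⟨A, hA, hA'⟩ := h.coeff_bound
  refine ⟨A, hA, fun α => le_ciInf fun p => ?_⟩
  have := hA' _ p.1 p.deg.le (degLex.degree p.1)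
  rw [p.2.1.coeff_degree, norm_one] at this
  rw [Real.exp_neg, inv_le_iff_one_le_mul₀ (Real.exp_pos _)]
  exact this

lemma Reg.YY_pos (h : Reg K V) (α : Fin n →₀ ℕ) : 0 < YY K α := by
  obtain ⟨A, _, hA⟩ := h.YY_lb
  exact (Real.exp_pos _).trans_le (hA α)

lemma Reg.YY_ub (h : Reg K V) {R : ℝ} (hR : ∀ x ∈ K, ‖x‖ ≤ R) (α : Fin n →₀ ℕ) :
    YY K α ≤ R ^ α.degree := by
  refine (h.YY_le ⟨monomial α 1, monic_monomial_one, by classical simp [degree_monomial]⟩).trans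
    (h.nK_le fun x hx => ?_)
  rw [eval_monomial, one_mul, Finsupp.prod_fintype _ _ (by simp), norm_prod, Finsupp.degree_eq_sum,
    ← Finset.prod_pow_eq_pow_sum]
  refine Finset.prod_le_prod (fun _ _ => norm_nonneg _) fun i _ => ?_
  rw [norm_pow]
  exact pow_le_pow_left₀ (norm_nonneg _) ((norm_le_pi_norm x i).trans (hR x hx)) _

lemma Reg.YY_add (h : Reg K V) (α β : Fin n →₀ ℕ) : YY K (α + β) ≤ YY K α * YY K β := by
  rw [← div_le_iff₀ (h.YY_pos β)]
  refine le_ciInf fun p => ?_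
  have hp : 0 < nK K p.1 := (h.YY_pos α).trans_le (h.YY_le p)
  rw [div_le_iff₀ (h.YY_pos β), ← div_le_iff₀' hp]
  refine le_ciInf fun q => ?_
  rw [div_le_iff₀' hp]
  refine (h.YY_le ⟨p.1 * q.1, p.2.1.mul q.2.1, ?_⟩).trans (h.nK_mul _ _)
  rw [degree_mul p.2.1.ne_zero q.2.1.ne_zero, p.2.2, q.2.2]

end Pool.Agent.H597Z.BM
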