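import Mathlib
import Pool.Agent.H597Z.BMA
import Pool.Agent.H597Z.BMB
import Pool.Agent.H597Z.BMC

set_option autoImplicit false

namespace Pool.Agent.H597Z.BM

open Filter Topology Finset MvPolynomial MonomialOrder MeasureTheory

variable {n : ℕ}

noncomputable def mon (n k : ℕ) : II n k → (Fin n → ℂ) → ℂ := fun b x => ∏ i, x i ^ (b.1 i : ℕ)

noncomputable def VV (K : Set (Fin n → ℂ)) (k : ℕ) : ℝ :=
  sSup {s : ℝ | ∃ z : II n k → (Fin n → ℂ), (∀ a, z a ∈ K) ∧ s = ‖vdm (mon n k) z‖}

noncomputable def ZZ (ν : Measure (Fin n → ℂ)) (k : ℕ) : ℝ :=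
  ∫ z, ‖vdm (mon n k) z‖ ^ 2 ∂(Measure.pi fun _ : II n k => ν)

lemma cont_mon (k : ℕ) (b : II n k) : Continuous (mon n k b) := by unfold mon; fun_prop

noncomputable def poly {k : ℕ} (c : II n k → ℂ) : MvPolynomial (Fin n) ℂ :=
  ∑ b, monomial (toF b) (c b)

lemma eval_poly {k : ℕ} (c : II n k → ℂ) (x : Fin n → ℂ) :
    eval x (poly c) = comb (mon n k) c x := by
  simp only [poly, comb, map_sum, eval_monomial, mon]
  refine Finset.sum_congr rfl fun b _ => ?_
  rw [Finsupp.prod_fintype _ _ (by simp)]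
  rfl

lemma coeff_poly {k : ℕ} (c : II n k → ℂ) (a : II n k) : coeff (toF a) (poly c) = c a := by
  simp [poly, coeff_sum, coeff_monomial, toF_inj.eq_iff]

lemma coeff_poly' {k : ℕ} (c : II n k → ℂ) {β : Fin n →₀ ℕ} (h : ¬β.degree ≤ k) :
    coeff β (poly c) = 0 := by
  simp only [poly, coeff_sum, coeff_monomial]
  refine Finset.sum_eq_zero fun b _ => if_neg ?_
  rintro rfl
  exact h (toF_le b)

lemma deg_poly {k : ℕ} (c : II n k → ℂ) : (poly c).totalDegree ≤ k := by
  refine Finset.sup_le fun β hβ => ?_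
  by_contra h
  exact mem_support_iff.mp hβ (coeff_poly' c h)

lemma poly_coeff {k : ℕ} {p : MvPolynomial (Fin n) ℂ} (hp : p.totalDegree ≤ k) :
    poly (fun b : II n k => coeff (toF b) p) = p := by
  ext β
  by_cases h : β.degree ≤ k
  · rw [← toF_ofF β h, coeff_poly]
  · rw [coeff_poly' _ h, coeff_eq_zero_of_totalDegree_lt]
    exact lt_of_le_of_lt hp (not_le.mp h)

@[reducible] noncomputable def dl (n k : ℕ) : LinearOrder (II n k) :=
  LinearOrder.lift' (fun a => degLex.toSyn (toF a)) (degLex.toSyn.injective.comp toF_inj)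

lemma mon_of_monD {k : ℕ} (a : II n k) (p : MonD (toF a)) :
    Mon (dl n k) a fun b => coeff (toF b) p.1 := by
  constructor
  · have := p.2.1.coeff_degree
    rwa [p.2.2] at this
  · intro b hb
    apply degLex.coeff_eq_zero_of_lt
    rw [p.2.2]
    exact hb

lemma monD_of_mon {k : ℕ} (a : II n k) (c : II n k → ℂ) (hc : Mon (dl n k) a c) :
    degLex.Monic (poly c) ∧ degLex.degree (poly c) = toF a := by
  have h1 : degLex.degree (poly c) = toF a := by
    apply degLex.toSyn.injective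
    apply le_antisymm
    · rw [degree_le_iff]
      intro β hβ
      rw [mem_support_iff] at hβ
      have h : β.degree ≤ k := by
        by_contra h
        exact hβ (coeff_poly' c h)
      rw [← toF_ofF β h, coeff_poly] at hβ
      by_contra h2
      apply hβ
      apply hc.2
      change degLex.toSyn (toF a) < degLex.toSyn (toF (ofF β h))
      rw [toF_ofF]
      exact not_le.mp h2
    · apply degLex.le_degree
      rw [mem_support_iff, coeff_poly, hc.1]
      exact one_ne_zero
  refine ⟨?_, h1⟩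
  rw [MonomialOrder.Monic, leadingCoeff, h1, coeff_poly, hc.1]

lemma vdm_monD {k : ℕ} (g : ∀ a : II n k, MonD (toF a)) (z : II n k → Fin n → ℂ) :
    vdm (fun b x => eval x (g b).1) z = vdm (mon n k) z := by
  rw [← vdm_comb (dl n k) (mon n k) _ (fun a => mon_of_monD a (g a))]
  congr 1
  funext b x
  rw [← eval_poly, poly_coeff ((g b).deg.le.trans (toF_le b))]

variable {K : Set (Fin n → ℂ)} {V : (Fin n → ℂ) → ℝ}

lemma Reg.vdm_le (h : Reg K V) (k : ℕ) (z : II n k → Fin n → ℂ) (hz : ∀ a, z a ∈ K) :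
    ‖vdm (mon n k) z‖ ≤ (NN n k).factorial * ∏ a : II n k, (2 * YY K (toF a)) := by
  choose t ht using fun a : II n k => exists_lt_of_ciInf_lt
    (show YY K (toF a) < 2 * YY K (toF a) by have := h.YY_pos (toF a); linarith)
  rw [← vdm_monD t]
  exact norm_vdm_le' _ _ _ fun i a => (h.le_nK _ (hz a)).trans (ht i).le

lemma Reg.le_VV (h : Reg K V) (k : ℕ) (z : II n k → Fin n → ℂ) (hz : ∀ a, z a ∈ K) :
    ‖vdm (mon n k) z‖ ≤ VV K k :=
  le_csSup ⟨_, by rintro _ ⟨z, hz, rfl⟩; exact h.vdm_le k z hz⟩ ⟨z, hz, rfl⟩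

lemma Reg.VV_le (h : Reg K V) (k : ℕ) {B : ℝ}
    (hB : ∀ z : II n k → Fin n → ℂ, (∀ a, z a ∈ K) → ‖vdm (mon n k) z‖ ≤ B) : VV K k ≤ B := by
  obtain ⟨x, hx⟩ := h.ne
  exact csSup_le ⟨_, fun _ => x, fun _ => hx, rfl⟩ (by rintro _ ⟨z, hz, rfl⟩; exact hB z hz)

lemma Reg.prod_le_VV (h : Reg K V) (k : ℕ) : ∏ a : II n k, YY K (toF a) ≤ VV K k := by
  obtain ⟨z, hz, hz'⟩ := leja (dl n k) (mon n k) K h.ne (fun a => YY K (toF a))
    (fun a => (h.YY_pos _).le) (fun a c hc => by
      obtain ⟨x, hx, hx'⟩ := h.exists_nK (poly c)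
      exact ⟨x, hx, by rw [← eval_poly, ← hx']; exact h.YY_le ⟨_, monD_of_mon a c hc⟩⟩)
  exact hz'.trans (h.le_VV k z hz)

lemma Reg.VV_pos (h : Reg K V) (k : ℕ) : 0 < VV K k :=
  (Finset.prod_pos fun _ _ => h.YY_pos _).trans_le (h.prod_le_VV k)

lemma Reg.log_VV (h : Reg K V) (hn : 1 ≤ n) :
    ∃ L, Tendsto (fun k : ℕ => Real.log (VV K k) / ll n k) atTop (𝓝 L) := by
  obtain ⟨R, hR, hR'⟩ := h.exists_bound
  obtain ⟨A, hA, hA'⟩ := h.YY_lb
  have hlR := Real.log_nonneg hR
  obtain ⟨L, hL⟩ := SS_div_ll hn (h := fun α => Real.log (YY K α) - α.degree * Real.log R)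
    (fun α => by
      have := Real.log_le_log (h.YY_pos α) (h.YY_ub hR' α)
      rw [Real.log_pow] at this
      linarith)
    (fun α β => by
      have := Real.log_le_log (h.YY_pos _) (h.YY_add α β)
      rw [Real.log_mul (h.YY_pos α).ne' (h.YY_pos β).ne'] at this
      rw [map_add]
      push_cast
      linarith) (A + Real.log R) (by positivity)
    (fun α => by
      have := Real.log_le_log (Real.exp_pos _) (hA' α)
      rw [Real.log_exp] at this
      linarith)
  have h1 : Tendsto (fun k : ℕ => Real.log (∏ a : II n k, YY K (toF a)) / ll n k) atTop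
      (𝓝 (L + Real.log R)) := by
    refine (hL.add_const _).congr' ?_
    filter_upwards [eventually_gt_atTop 0] with k hk
    have := ll_pos hn hk
    rw [Real.log_prod fun a _ => (h.YY_pos _).ne', SS, Finset.sum_sub_distrib, ← Finset.sum_mul,
      ← ll_eq]
    field_simp
    ring
  have h2 := h1.add (err_tendsto hn (A := 2) one_le_two)
  rw [add_zero] at h2
  refine ⟨L + Real.log R, tendsto_of_tendsto_of_tendsto_of_le_of_le' h1 h2 ?_ ?_⟩
  · filter_upwards [eventually_gt_atTop 0] with k hk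
    exact div_le_div_of_nonneg_right (Real.log_le_log (Finset.prod_pos fun _ _ => h.YY_pos _)
      (h.prod_le_VV k)) (ll_pos hn hk).le
  · filter_upwards [eventually_gt_atTop 0] with k hk
    rw [← add_div]
    refine div_le_div_of_nonneg_right ?_ (ll_pos hn hk).le
    have hp : 0 < ∏ a : II n k, YY K (toF a) := Finset.prod_pos fun _ _ => h.YY_pos _
    have hN : (0 : ℝ) < NN n k := by exact_mod_cast NN_pos k
    rw [← Real.log_pow, ← Real.log_mul hp.ne' (by positivity)]
    refine Real.log_le_log (h.VV_pos k) (h.VV_le k fun z hz => (h.vdm_le k z hz).trans ?_)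
    have h3 : ((NN n k).factorial : ℝ) ≤ (NN n k : ℝ) ^ NN n k := by
      exact_mod_cast Nat.factorial_le_pow _
    rw [Finset.prod_mul_distrib, Finset.prod_const, card_univ]
    calc _ ≤ (NN n k : ℝ) ^ NN n k * (2 ^ NN n k * ∏ a : II n k, YY K (toF a)) :=
          mul_le_mul_of_nonneg_right h3 (by positivity)
      _ = _ := by ring

variable (ν : Measure (Fin n → ℂ)) [IsFiniteMeasure ν]

def IsBM (K : Set (Fin n → ℂ)) (ν : Measure (Fin n → ℂ)) : Prop :=
  ∀ ε : ℝ, 0 < ε → ∃ C : ℝ, ∀ (k : ℕ) (p : MvPolynomial (Fin n) ℂ), p.totalDegree ≤ k →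
    ∀ x ∈ K, ‖MvPolynomial.eval x p‖ ^ 2 ≤
      C * (1 + ε) ^ (2 * k) * ∫ y, ‖MvPolynomial.eval y p‖ ^ 2 ∂ν

omit [IsFiniteMeasure ν] in
lemma ZZ_nonneg (k : ℕ) : 0 ≤ ZZ ν k := integral_nonneg fun _ => by positivity

lemma Reg.sq_le_ZZ (h : Reg K V) (hν : ν Kᶜ = 0) (k : ℕ) {M : ℝ} (hM : 0 ≤ M)
    (hb : ∀ p : MvPolynomial (Fin n) ℂ, p.totalDegree ≤ k → ∀ x ∈ K,
      ‖eval x p‖ ^ 2 ≤ M * ∫ y, ‖eval y p‖ ^ 2 ∂ν) : VV K k ^ 2 ≤ M ^ NN n k * ZZ ν k := by
  have h0 := ZZ_nonneg ν k
  rw [← Real.le_sqrt (h.VV_pos k).le (by positivity)]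
  refine h.VV_le k fun z hz => ?_
  rw [Real.le_sqrt (norm_nonneg _) (by positivity)]
  refine sup_le_int ν h.cpt hν (cont_mon k) M hM (fun c x hx => ?_) z hz
  simpa only [eval_poly] using hb (poly c) (deg_poly c) x hx

lemma Reg.bm_imp (h : Reg K V) (hn : 1 ≤ n) (hν : ν Kᶜ = 0) (hB : IsBM K ν) {L : ℝ}
    (hL : Tendsto (fun k : ℕ => Real.log (VV K k) / ll n k) atTop (𝓝 L)) :
    Tendsto (fun k : ℕ => ZZ ν k ^ ((1 : ℝ) / (2 * ll n k))) atTop (𝓝 (Real.exp L)) := by
  have hB' : ∀ ε : ℝ, 0 < ε → ∃ C : ℝ, 1 ≤ C ∧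
      ∀ k, VV K k ^ 2 ≤ (C * (1 + ε) ^ (2 * k)) ^ NN n k * ZZ ν k := by
    intro ε hε
    obtain ⟨C, hC⟩ := hB ε hε
    refine ⟨max C 1, le_max_right _ _, fun k => h.sq_le_ZZ ν hν k (by positivity)
      fun p hp x hx => (hC k p hp x hx).trans ?_⟩
    have : 0 ≤ ∫ y, ‖eval y p‖ ^ 2 ∂ν := integral_nonneg fun _ => by positivity
    gcongr
    exact le_max_left _ _
  have hZ : ∀ k, 0 < ZZ ν k := by
    intro k
    obtain ⟨C, hC, hC'⟩ := hB' 1 one_pos
    have h1 := (pow_pos (h.VV_pos k) 2).trans_le (hC' k)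
    exact (pos_iff_pos_of_mul_pos h1).mp (by positivity)
  have key : Tendsto (fun k : ℕ => Real.log (ZZ ν k) / (2 * ll n k)) atTop (𝓝 L) := by
    refine tendsto_order.2 ⟨fun b hb => ?_, fun b hb => ?_⟩
    · obtain ⟨C, hC, hC'⟩ := hB' ((L - b) / 4) (by linarith)
      have h1 := hL.sub (tendsto_const_div_atTop_nhds_zero_nat (Real.log C))
      have h2 : (L + b) / 2 < L - 0 := by linarith
      filter_upwards [h1.eventually (lt_mem_nhds h2), eventually_gt_atTop 0] with k hk hk0
      have hk' : (0 : ℝ) < k := by exact_mod_cast hk0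
      have hl := ll_pos hn hk0
      have hε : 0 < (L - b) / 4 := by linarith
      have h3 := Real.log_le_log (pow_pos (h.VV_pos k) 2) (hC' k)
      rw [Real.log_mul (by positivity) (hZ k).ne', Real.log_pow, Real.log_pow,
        Real.log_mul (by positivity) (by positivity), Real.log_pow] at h3
      have h4 : Real.log (1 + (L - b) / 4) ≤ (L - b) / 4 := by
        have := Real.log_le_sub_one_of_pos (x := 1 + (L - b) / 4) (by positivity)
        linarith
      have h5 := Real.log_nonneg hC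
      have h6 : NN n k / ll n k * (Real.log C + 2 * k * Real.log (1 + (L - b) / 4)) ≤
          2 / k * (Real.log C + 2 * k * ((L - b) / 4)) := by
        have := Real.log_nonneg (x := 1 + (L - b) / 4) (by linarith)
        exact mul_le_mul (NN_div_ll hn hk0) (by gcongr) (by positivity) (by positivity)
      have h7 : 2 / k * (Real.log C + 2 * k * ((L - b) / 4)) =
          2 * (Real.log C / k) + (L - b) := by field_simp; ring
      have h8 : 2 * (Real.log (VV K k) / ll n k) ≤
          NN n k / ll n k * (Real.log C + 2 * k * Real.log (1 + (L - b) / 4)) +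
            2 * (Real.log (ZZ ν k) / (2 * ll n k)) := by
        have := div_le_div_of_nonneg_right h3 hl.le
        push_cast at this
        refine le_trans (le_of_eq ?_) (this.trans (le_of_eq ?_))
        · ring
        · field_simp
      linarith
    · have h1 := hL.add (err_tendsto hn (A := max (ν.real Set.univ) 1) (le_max_right _ _))
      rw [add_zero] at h1
      filter_upwards [h1.eventually (gt_mem_nhds hb), eventually_gt_atTop 0] with k hk hk0
      refine lt_of_le_of_lt ?_ hk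
      have hl := ll_pos hn hk0
      have hN : (1 : ℝ) ≤ NN n k := by exact_mod_cast NN_pos k
      have hm : (1 : ℝ) ≤ max (ν.real Set.univ) 1 := le_max_right _ _
      have h2 : ZZ ν k ≤ (VV K k * (max (ν.real Set.univ) 1 * NN n k) ^ NN n k) ^ 2 := by
        refine (int_le_sup ν h.cpt hν (cont_mon k) _ (h.le_VV k)).trans ?_
        rw [mul_pow, mul_comm, ← pow_mul]
        gcongr
        calc ν.real Set.univ ^ Fintype.card (II n k)
            ≤ (max (ν.real Set.univ) 1 * NN n k) ^ NN n k := by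
              refine pow_le_pow_left₀ measureReal_nonneg ((le_max_left _ 1).trans ?_) _
              exact le_mul_of_one_le_right (by positivity) hN
          _ ≤ _ := pow_le_pow_right₀ (by nlinarith) (by omega)
      have h3 := Real.log_le_log (hZ k) h2
      rw [Real.log_pow, Real.log_mul (h.VV_pos k).ne' (by positivity), Real.log_pow] at h3
      rw [← add_div, div_le_div_iff₀ (by positivity) hl]
      push_cast at h3
      nlinarith
  refine ((Real.continuous_exp.tendsto L).comp key).congr fun k => ?_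
  simp only [Function.comp]
  rw [Real.rpow_def_of_pos (hZ k), mul_one_div]

lemma Reg.int_le (h : Reg K V) (hν : ν Kᶜ = 0) (p q : MvPolynomial (Fin n) ℂ) :
    ∫ y, ‖eval y (p * q)‖ ^ 2 ∂ν ≤ nK K q ^ 2 * ∫ y, ‖eval y p‖ ^ 2 ∂ν := by
  rw [← integral_const_mul]
  refine integral_mono_ae (integrable_of_compact ν h.cpt hν ((cont_eval _).norm.pow 2))
    ((integrable_of_compact ν h.cpt hν ((cont_eval _).norm.pow 2)).const_mul _) ?_
  have : ∀ᵐ y ∂ν, y ∈ K := hν
  filter_upwards [this] with y hy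
  rw [map_mul, norm_mul, mul_pow, mul_comm]
  gcongr
  exact h.le_nK q hy

lemma Reg.Z_small (h : Reg K V) (hν : ν Kᶜ = 0) {k j : ℕ} {p : MvPolynomial (Fin n) ℂ}
    (hp : degLex.Monic p) (hk : p.totalDegree ≤ k) {η : ℝ} (hη : 0 ≤ η) (hη1 : η ≤ 1)
    (hq : ∀ q : MvPolynomial (Fin n) ℂ, q.totalDegree ≤ j →
      ∫ y, ‖eval y (p * q)‖ ^ 2 ∂ν ≤ η * nK K (p * q) ^ 2) :
    ZZ ν (k + j) ≤ ((NN n (k + j)).factorial : ℝ) ^ 2 *
      ((max (ν.real Set.univ) 1) ^ NN n (k + j) * η ^ NN n j * VV K (k + j) ^ 2) := by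
  classical
  let d := degLex.degree p
  have hd : d.degree ≤ k := by rw [degree_degLexDegree]; exact hk
  let D : Finset (II n (k + j)) := univ.filter fun b => d ≤ toF b ∧ (toF b - d).degree ≤ j
  let g : ∀ b : II n (k + j), MonD (toF b) := fun b =>
    if hb : b ∈ D then ⟨p * monomial (toF b - d) 1, hp.mul monic_monomial_one, by
      rw [degree_mul hp.ne_zero (degLex.monic_monomial_one).ne_zero, degree_monomial,
        if_neg one_ne_zero]
      exact add_tsub_cancel_of_le (mem_filter.mp hb).2.1⟩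
    else ⟨monomial (toF b) 1, monic_monomial_one, by simp [degree_monomial]⟩
  let f : II n (k + j) → (Fin n → ℂ) → ℂ := fun b x => eval x (g b).1
  let lo : LinearOrder (II n (k + j)) := LinearOrder.lift'
    (fun b => toLex ((if b ∈ D then 0 else 1 : ℕ), Fintype.equivFin _ b))
    (fun a b hab => (Fintype.equivFin _).injective (congrArg (fun x => (ofLex x).2) hab))
  let gp : (II n (k + j) → ℂ) → MvPolynomial (Fin n) ℂ := fun c => ∑ b, C (c b) * (g b).1
  have hgp : ∀ c x, eval x (gp c) = comb f c x := by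
    intro c x; simp [gp, comb, f]
  let m := max (ν.real Set.univ) 1
  have hm : (1 : ℝ) ≤ m := le_max_right _ _
  let θ : II n (k + j) → ℝ := fun b => m * if b ∈ D then η else 1
  have hθ : ∀ b, 0 ≤ θ b := fun b => by simp only [θ]; split_ifs <;> positivity
  have hne : ∀ i, Nonempty {c // Mon lo i c} := fun i =>
    ⟨⟨Pi.single i 1, by simp, fun j hj => Pi.single_eq_of_ne (@ne_of_gt _ lo.toPreorder _ _ hj) _⟩⟩
  have hint : ∀ i c, Mon lo i c → ∫ y, ‖comb f c y‖ ^ 2 ∂ν ≤ θ i * nK K (gp c) ^ 2 := by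
    intro i c hc
    simp only [← hgp]
    by_cases hi : i ∈ D
    · have e : gp c = p * ∑ b, if b ∈ D then monomial (toF b - d) (c b) else 0 := by
        rw [Finset.mul_sum]
        refine Finset.sum_congr rfl fun b _ => ?_
        by_cases hb : b ∈ D
        · simp only [g, hb, dif_pos, if_true]
          rw [mul_left_comm, C_mul_monomial, mul_one]
        · rw [hc.2 b, if_neg hb]
          · simp
          · change toLex ((if i ∈ D then 0 else 1 : ℕ), Fintype.equivFin _ i) <
              toLex ((if b ∈ D then 0 else 1 : ℕ), Fintype.equivFin _ b)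
            rw [Prod.Lex.toLex_lt_toLex]
            simp [hi, hb]
      rw [e]
      refine (hq _ ?_).trans ?_
      · refine totalDegree_finsetSum_le fun b _ => ?_
        split_ifs with hb
        · exact (totalDegree_monomial_le _ _).trans (mem_filter.mp hb).2.2
        · simp
      · simp only [θ, hi, if_true]
        gcongr
        exact le_mul_of_one_le_left hη hm
    · have := h.int_le ν hν 1 (gp c)
      simp only [one_mul, map_one, norm_one, one_pow, integral_const, smul_eq_mul, mul_one] at this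
      refine this.trans ?_
      simp only [θ, hi, if_false, mul_one]
      rw [mul_comm]
      gcongr
      exact le_max_left _ _
  have h1 := le_prod_inf (T := fun i => {c // Mon lo i c}) (fun i c => nK K (gp c.1)) θ
    (ZZ ν (k + j)) (((NN n (k + j)).factorial : ℝ) ^ 2) (by positivity) hθ
    (fun i c => h.nK_nonneg _) (fun t => by
      have e : ∀ z, vdm (mon n (k + j)) z = vdm (fun b => comb f (t b).1) z := fun z => by
        rw [vdm_comb lo f _ fun i => (t i).2, vdm_monD g]
      simp only [ZZ, e]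
      refine (int_le_prod ν h.cpt hν fun b => ?_).trans ?_
      · simp only [← funext (hgp _)]
        exact cont_eval _
      · exact mul_le_mul_of_nonneg_left (Finset.prod_le_prod
          (fun _ _ => integral_nonneg fun _ => by positivity) fun i _ => hint i _ (t i).2)
          (by positivity))
  have hY : ∀ i, 0 ≤ ⨅ c : {c // Mon lo i c}, nK K (gp c.1) := fun i =>
    le_ciInf fun c => h.nK_nonneg _
  obtain ⟨z, hz, hz'⟩ := leja lo f K h.ne (fun i => ⨅ c : {c // Mon lo i c}, nK K (gp c.1)) hY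
    (fun i c hc => by
      obtain ⟨x, hx, hx'⟩ := h.exists_nK (gp c)
      refine ⟨x, hx, ?_⟩
      rw [← hgp, ← hx']
      exact ciInf_le (f := fun c : {c // Mon lo i c} => nK K (gp c.1))
        ⟨0, by rintro _ ⟨q, rfl⟩; exact h.nK_nonneg _⟩ ⟨c, hc⟩)
  rw [vdm_monD g] at hz'
  have h2 := hz'.trans (h.le_VV _ z hz)
  have h3 : NN n j ≤ D.card := by
    have hle : ∀ b : II n j, (d + toF b).degree ≤ k + j := fun b => by
      rw [map_add]; exact add_le_add hd (toF_le b)
    refine Finset.card_le_card_of_injOn (s := univ) (fun b => ofF _ (hle b)) ?_ ?_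
    · intro b _
      simp [D, toF_le b]
    · intro a _ b _ hab
      have := congrArg toF hab
      simp only [toF_ofF, add_right_inj] at this
      exact toF_inj this
  refine h1.trans (mul_le_mul_of_nonneg_left ?_ (by positivity))
  rw [Finset.prod_mul_distrib, Finset.prod_pow]
  refine mul_le_mul ?_ (pow_le_pow_left₀ (Finset.prod_nonneg fun i _ => hY i) h2 2)
    (by positivity) (by positivity)
  simp only [θ]
  rw [Finset.prod_mul_distrib, Finset.prod_const, Finset.prod_ite_mem, univ_inter,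
    Finset.prod_const]
  exact mul_le_mul_of_nonneg_left (pow_le_pow_of_le_one hη hη1 h3) (by positivity)

omit [IsFiniteMeasure ν] in
lemma Reg.bad (h : Reg K V) (hB : ¬IsBM K ν) : ∃ a : ℝ, 0 < a ∧ ∀ k0 : ℕ, ∃ k ≥ k0,
    ∃ p : MvPolynomial (Fin n) ℂ, degLex.Monic p ∧ p.totalDegree ≤ k ∧
      ∫ y, ‖eval y p‖ ^ 2 ∂ν ≤ Real.exp (-(2 * k * a)) * nK K p ^ 2 := by
  unfold IsBM at hB
  push Not at hB
  obtain ⟨ε, hε, hB⟩ := hB
  refine ⟨Real.log (1 + ε), Real.log_pos (by linarith), fun k0 => ?_⟩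
  obtain ⟨k, p, hp, x, hx, hlt⟩ := hB ((1 + ε) ^ (2 * k0))
  have hI : 0 ≤ ∫ y, ‖eval y p‖ ^ 2 ∂ν := integral_nonneg fun _ => by positivity
  have hp0 : p ≠ 0 := by
    rintro rfl
    simp at hlt
  have hc : degLex.leadingCoeff p ≠ 0 := leadingCoeff_ne_zero_iff.mpr hp0
  refine ⟨k0 + k, by omega, C (degLex.leadingCoeff p)⁻¹ * p, ?_, ?_, ?_⟩
  · rw [MonomialOrder.Monic, leadingCoeff_mul, leadingCoeff_C, inv_mul_cancel₀ hc]
  · exact (totalDegree_mul _ _).trans (by simp; omega)
  · have h1 := h.le_nK (C (degLex.leadingCoeff p)⁻¹ * p) hx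
    refine le_trans ?_ (mul_le_mul_of_nonneg_left (pow_le_pow_left₀ (norm_nonneg _) h1 2)
      (Real.exp_pos _).le)
    simp only [map_mul, eval_C, norm_mul, mul_pow]
    rw [integral_const_mul, mul_left_comm]
    refine mul_le_mul_of_nonneg_left ?_ (by positivity)
    have e : Real.exp (-(2 * ((k0 + k : ℕ) : ℝ) * Real.log (1 + ε))) =
        ((1 + ε) ^ (2 * k0) * (1 + ε) ^ (2 * k))⁻¹ := by
      rw [Real.exp_neg, ← pow_add, ← mul_add, ← Real.exp_log (x := (1 + ε) ^ _) (by positivity),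
        Real.log_pow]
      push_cast
      rfl
    rw [e, le_inv_mul_iff₀ (by positivity)]
    exact hlt.le

lemma Reg.not_bm (h : Reg K V) (hn : 1 ≤ n) (hν : ν Kᶜ = 0) (hB : ¬IsBM K ν) :
    ∃ c : ℝ, 0 < c ∧ ∃ᶠ k : ℕ in atTop, ZZ ν k ^ ((1 : ℝ) / (2 * ll n k)) ≤
      Real.exp (Real.log (VV K k) / ll n k +
        NN n k * Real.log (max (ν.real Set.univ) 1 * NN n k) / ll n k - c) := by
  obtain ⟨a, ha, hbad⟩ := h.bad ν hB
  obtain ⟨B, hB1, hB2⟩ := h.prod_lb (a := a / 4) (by positivity)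
  obtain ⟨t, ht⟩ := exists_nat_ge (max (4 * Real.log B / a) 1)
  have ht1 : (1 : ℝ) ≤ t := (le_max_right _ _).trans ht
  have ht1' : 1 ≤ t := by exact_mod_cast ht1
  have ht2 : Real.log B ≤ a * t / 4 := by
    have := (le_max_left _ _).trans ht
    rw [div_le_iff₀ ha] at this
    linarith
  have hn' : (1 : ℝ) ≤ n := by exact_mod_cast hn
  refine ⟨a / (8 * (6 * t * n) ^ n), by positivity, frequently_atTop.mpr fun k0 => ?_⟩
  obtain ⟨k, hk, p, hp, hpk, hI⟩ := hbad (max k0 t)
  have hkt : t ≤ k := (le_max_right _ _).trans hk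
  have hk1 : 1 ≤ k := ht1'.trans hkt
  have hk1' : (1 : ℝ) ≤ k := by exact_mod_cast hk1
  let j := k / t
  have hj1 : (j : ℝ) * t ≤ k := by exact_mod_cast Nat.div_mul_le_self k t
  have hj2 : (j : ℝ) ≤ k := by exact_mod_cast Nat.div_le_self k t
  have hj3 : (k : ℝ) ≤ 2 * j * t := by
    have h1 : 1 ≤ j := Nat.div_pos hkt ht1'
    have h2 := Nat.lt_div_mul_add (a := k) (b := t) ht1'
    have : k ≤ 2 * j * t := by simp only [j] at *; nlinarith
    exact_mod_cast this
  refine ⟨k + j, ((le_max_left _ _).trans hk).trans (Nat.le_add_right _ _), ?_⟩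
  have hZ := h.Z_small ν hν (j := j) hp hpk (η := Real.exp (-(a * k / 2))) (Real.exp_pos _).le
    (Real.exp_le_one_iff.mpr (by have : 0 ≤ a * k / 2 := by positivity
                                 linarith)) (fun q hq => by
      refine (h.int_le ν hν p q).trans ?_
      have h1 := hB2 k j p q hpk hq
      have h2 : B ^ j = Real.exp (j * Real.log B) := by
        rw [← Real.log_pow, Real.exp_log (by positivity)]
      have h3 := pow_le_pow_left₀ (mul_nonneg (h.nK_nonneg p) (h.nK_nonneg q)) h1 2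
      calc nK K q ^ 2 * ∫ y, ‖eval y p‖ ^ 2 ∂ν
          ≤ nK K q ^ 2 * (Real.exp (-(2 * k * a)) * nK K p ^ 2) := by gcongr
        _ = Real.exp (-(2 * k * a)) * (nK K p * nK K q) ^ 2 := by ring
        _ ≤ Real.exp (-(2 * k * a)) *
            (B ^ j * (nK K (p * q) * Real.exp ((k + j : ℕ) * (a / 4)))) ^ 2 := by gcongr
        _ = Real.exp (-(2 * k * a) + 2 * (j * Real.log B) + 2 * ((k + j : ℕ) * (a / 4))) *
            nK K (p * q) ^ 2 := by
          rw [h2, Real.exp_add, Real.exp_add, two_mul (j * Real.log B), Real.exp_add,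
            two_mul (((k + j : ℕ) : ℝ) * (a / 4)), Real.exp_add]
          ring
        _ ≤ _ := by
          gcongr
          have h4 : j * Real.log B ≤ j * (a * t / 4) := by gcongr
          push_cast
          nlinarith)
  set N := NN n (k + j) with hN
  set m := max (ν.real Set.univ) 1 with hm
  have hm1 : (1 : ℝ) ≤ m := le_max_right _ _
  have hN1 : (1 : ℝ) ≤ N := by exact_mod_cast NN_pos (k + j)
  have hl := ll_pos hn (k := k + j) (hk1.trans (Nat.le_add_right _ _))
  have hV := h.VV_pos (k + j)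
  have hc : a / (8 * (6 * t * n) ^ n) * ll n (k + j) ≤ a * k / 4 * NN n j := by
    have h1 : ll n (k + j) ≤ 2 * k * (3 * k) ^ n := by
      have h2 : (N : ℝ) ≤ (((k + j : ℕ) : ℝ) + 1) ^ n := by exact_mod_cast NN_le (k + j)
      refine (ll_le _).trans (mul_le_mul (by push_cast; linarith) (h2.trans ?_) (by positivity)
        (by positivity))
      gcongr
      push_cast
      linarith
    have h2 : ((k : ℝ) / (2 * t * n)) ^ n ≤ NN n j := by
      refine le_trans (pow_le_pow_left₀ (by positivity) ?_ _) (NN_ge hn j)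
      rw [div_le_div_iff₀ (by positivity) (by positivity)]
      nlinarith
    calc a / (8 * (6 * t * n) ^ n) * ll n (k + j)
        ≤ a / (8 * (6 * t * n) ^ n) * (2 * k * (3 * k) ^ n) := by gcongr
      _ = a * k / 4 * ((3 * k) / (6 * t * n)) ^ n := by rw [div_pow]; field_simp; ring
      _ = a * k / 4 * ((k : ℝ) / (2 * t * n)) ^ n := by congr 2; field_simp; ring
      _ ≤ _ := by gcongr
  have hW : ZZ ν (k + j) ≤ Real.exp (2 * Real.log (VV K (k + j)) + 2 * (N * Real.log (m * N)) -
      2 * (a / (8 * (6 * t * n) ^ n) * ll n (k + j))) := by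
    refine hZ.trans ?_
    have h3 : (N.factorial : ℝ) ≤ (N : ℝ) ^ N := by exact_mod_cast Nat.factorial_le_pow _
    have h4 : m ^ N ≤ (m ^ N) ^ 2 := le_self_pow₀ (one_le_pow₀ hm1) two_ne_zero
    have h5 : Real.exp (-(a * k / 2)) ^ NN n j ≤
        Real.exp (-(2 * (a / (8 * (6 * t * n) ^ n) * ll n (k + j)))) := by
      rw [← Real.exp_nat_mul]
      gcongr
      linarith
    calc _ ≤ ((N : ℝ) ^ N) ^ 2 * ((m ^ N) ^ 2 *
          Real.exp (-(2 * (a / (8 * (6 * t * n) ^ n) * ll n (k + j)))) * VV K (k + j) ^ 2) := by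
          gcongr
      _ = _ := by
          rw [sub_eq_add_neg, Real.exp_add, Real.exp_add, ← Real.log_pow, two_mul (Real.log _),
            two_mul (Real.log _), Real.exp_add, Real.exp_add, Real.exp_log hV,
            Real.exp_log (by positivity)]
          ring
  refine (Real.rpow_le_rpow (ZZ_nonneg ν _) hW (by positivity)).trans (le_of_eq ?_)
  rw [← Real.exp_mul]
  congr 1
  field_simp

theorem main (h : Reg K V) (hn : 1 ≤ n) (hν : ν Kᶜ = 0) : IsBM K ν ↔ ∃ d : ℝ,
    Tendsto (fun k : ℕ => VV K k ^ ((1 : ℝ) / ll n k)) atTop (𝓝 d) ∧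
    Tendsto (fun k : ℕ => ZZ ν k ^ ((1 : ℝ) / (2 * ll n k))) atTop (𝓝 d) := by
  obtain ⟨L, hL⟩ := h.log_VV hn
  have h1 : Tendsto (fun k : ℕ => VV K k ^ ((1 : ℝ) / ll n k)) atTop (𝓝 (Real.exp L)) := by
    refine ((Real.continuous_exp.tendsto L).comp hL).congr fun k => ?_
    simp only [Function.comp]
    rw [Real.rpow_def_of_pos (h.VV_pos k), mul_one_div]
  refine ⟨fun hB => ⟨_, h1, h.bm_imp ν hn hν hB hL⟩, ?_⟩
  rintro ⟨d, hd1, hd2⟩
  rw [tendsto_nhds_unique hd1 h1] at hd2
  by_contra hB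
  obtain ⟨c, hc, hf⟩ := h.not_bm ν hn hν hB
  have h2 := (Real.continuous_exp.tendsto _).comp
    ((hL.add (err_tendsto hn (A := max (ν.real Set.univ) 1) (le_max_right _ _))).sub_const c)
  have h3 := h2.eventually_lt hd2 (Real.exp_lt_exp.mpr (by linarith))
  obtain ⟨k, hk1, hk2⟩ := (hf.and_eventually h3).exists
  exact absurd hk1 (not_le.mpr hk2)

end Pool.Agent.H597Z.BM
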