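import Mathlib

set_option autoImplicit false

universe u

namespace Pool.Agent.H597Z.Ur

/-- Formulas with `n` free first-order variables, built from membership, equality, the urelement
predicate and membership in a class variable (indexed by `κ`), with first-order quantifiers only.
For `κ = Empty` these are the formulas of the first-order language of urelement set theory. -/
inductive Fml (κ : Type) : ℕ → Type
  | mem {n : ℕ} (i j : Fin n) : Fml κ n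
  | eq {n : ℕ} (i j : Fin n) : Fml κ n
  | ur {n : ℕ} (i : Fin n) : Fml κ n
  | cls {n : ℕ} (i : Fin n) (k : κ) : Fml κ n
  | bot {n : ℕ} : Fml κ n
  | imp {n : ℕ} (φ ψ : Fml κ n) : Fml κ n
  | all {n : ℕ} (φ : Fml κ (n + 1)) : Fml κ n

/-- Structures for the first-order language: a membership relation and an urelement predicate. -/
structure Str where
  M : Type u
  mem : M → M → Prop
  ur : M → Prop

/-- Satisfaction, the class variable `k` being interpreted by the predicate `W k`. -/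
def Sat (S : Str.{u}) {κ : Type} (W : κ → S.M → Prop) :
    {n : ℕ} → Fml κ n → (Fin n → S.M) → Prop
  | _, .mem i j, v => S.mem (v i) (v j)
  | _, .eq i j, v => v i = v j
  | _, .ur i, v => S.ur (v i)
  | _, .cls i k, v => W k (v i)
  | _, .bot, _ => False
  | _, .imp φ ψ, v => Sat S W φ v → Sat S W ψ v
  | _, .all φ, v => ∀ x, Sat S W φ (Fin.cons x v)

/-- The Kuratowski pair `{{x}, {x, y}}` has the property `P`. -/
def Rel (S : Str.{u}) (P : S.M → Prop) (x y : S.M) : Prop :=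
  ∃ p, P p ∧ ¬ S.ur p ∧ ∀ z, S.mem z p ↔
    ¬ S.ur z ∧ ((∀ t, S.mem t z ↔ t = x) ∨ (∀ t, S.mem t z ↔ t = x ∨ t = y))

/-- Models of ZU + AC. -/
structure ZCU (S : Str.{u}) : Prop where
  urEmpty : ∀ x y, S.ur x → ¬ S.mem y x
  ext : ∀ x y, ¬ S.ur x → ¬ S.ur y → (∀ z, S.mem z x ↔ S.mem z y) → x = y
  found : ∀ x, (∃ y, S.mem y x) → ∃ y, S.mem y x ∧ ∀ z, S.mem z y → ¬ S.mem z x
  pair : ∀ x y, ∃ p, ¬ S.ur p ∧ ∀ z, S.mem z p ↔ z = x ∨ z = y
  union : ∀ x, ¬ S.ur x → ∃ a, ¬ S.ur a ∧ ∀ z, S.mem z a ↔ ∃ y, S.mem y x ∧ S.mem z y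
  power : ∀ x, ¬ S.ur x →
    ∃ p, ¬ S.ur p ∧ ∀ z, S.mem z p ↔ ¬ S.ur z ∧ ∀ t, S.mem t z → S.mem t x
  inf : ∃ a, (∃ e, S.mem e a ∧ ¬ S.ur e ∧ ∀ z, ¬ S.mem z e) ∧
    ∀ x, S.mem x a → ∃ s, S.mem s a ∧ ¬ S.ur s ∧ ∀ z, S.mem z s ↔ S.mem z x ∨ z = x
  sep : ∀ (n : ℕ) (φ : Fml Empty (n + 1)) (v : Fin n → S.M) (w : S.M), ¬ S.ur w →
    ∃ a, ¬ S.ur a ∧ ∀ z, S.mem z a ↔ S.mem z w ∧ Sat S Empty.elim φ (Fin.cons z v)
  ac : ∀ x, ¬ S.ur x → ∃ r, ¬ S.ur r ∧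
    (∀ a b, S.mem a x → S.mem b x → Rel S (fun p => S.mem p r) a b →
      Rel S (fun p => S.mem p r) b a → a = b) ∧
    (∀ a b c, S.mem a x → S.mem b x → S.mem c x → Rel S (fun p => S.mem p r) a b →
      Rel S (fun p => S.mem p r) b c → Rel S (fun p => S.mem p r) a c) ∧
    ∀ y, (∀ z, S.mem z y → S.mem z x) → (∃ z, S.mem z y) →
      ∃ a, S.mem a y ∧ ∀ b, S.mem b y → Rel S (fun p => S.mem p r) a b

/-- Models of ZFCU: ZU, AC, and the schemes of Replacement and Collection. -/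
structure ZFCU (S : Str.{u}) : Prop where
  zcu : ZCU S
  repl : ∀ (n : ℕ) (φ : Fml Empty (n + 2)) (v : Fin n → S.M) (w : S.M), ¬ S.ur w →
    (∀ x, S.mem x w → ∃! y, Sat S Empty.elim φ (Fin.cons y (Fin.cons x v))) →
    ∃ a, ¬ S.ur a ∧ ∀ y, S.mem y a ↔
      ∃ x, S.mem x w ∧ Sat S Empty.elim φ (Fin.cons y (Fin.cons x v))
  coll : ∀ (n : ℕ) (φ : Fml Empty (n + 2)) (v : Fin n → S.M) (w : S.M), ¬ S.ur w →
    (∀ x, S.mem x w → ∃ y, Sat S Empty.elim φ (Fin.cons y (Fin.cons x v))) →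
    ∃ a, ¬ S.ur a ∧ ∀ x, S.mem x w →
      ∃ y, S.mem y a ∧ Sat S Empty.elim φ (Fin.cons y (Fin.cons x v))

/-- Two-sorted models of GBcU_R + Collection + Global Choice: `C` is the sort of classes and
`cm x c` says that the object `x` belongs to the class `c`. -/
structure GBC (S : Str.{u}) (C : Type u) (cm : S.M → C → Prop) : Prop where
  zcu : ZCU S
  cext : ∀ c d, (∀ x, cm x c ↔ cm x d) → c = d
  comp : ∀ (m n : ℕ) (φ : Fml (Fin m) (n + 1)) (W : Fin m → C) (v : Fin n → S.M),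
    ∃ c, ∀ x, cm x c ↔ Sat S (fun k y => cm y (W k)) φ (Fin.cons x v)
  repl : ∀ (c : C) (w : S.M), ¬ S.ur w → (∀ x, S.mem x w → ∃! y, Rel S (fun p => cm p c) x y) →
    ∃ a, ¬ S.ur a ∧ ∀ y, S.mem y a ↔ ∃ x, S.mem x w ∧ Rel S (fun p => cm p c) x y
  coll : ∀ (c : C) (w : S.M), ¬ S.ur w → (∀ x, S.mem x w → ∃ y, Rel S (fun p => cm p c) x y) →
    ∃ a, ¬ S.ur a ∧ ∀ x, S.mem x w → ∃ y, S.mem y a ∧ Rel S (fun p => cm p c) x y
  gc : ∃ c : C, (∀ x y z, Rel S (fun p => cm p c) x y → Rel S (fun p => cm p c) x z → y = z) ∧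
    ∀ x, ¬ S.ur x → (∃ y, S.mem y x) → ∃ y, S.mem y x ∧ Rel S (fun p => cm p c) x y

end Pool.Agent.H597Z.Ur
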