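import Mathlib
import Pool.Agent.H597Z.UrDefs

set_option autoImplicit false

universe u

namespace Pool.Agent.H597Z.Ur

variable {S : Str.{u}}

/-- `p` is the Kuratowski pair of `x` and `y` -/
def OP (S : Str.{u}) (p x y : S.M) : Prop :=
  ¬ S.ur p ∧ ∀ z, S.mem z p ↔
    ¬ S.ur z ∧ ((∀ t, S.mem t z ↔ t = x) ∨ (∀ t, S.mem t z ↔ t = x ∨ t = y))

theorem rel_iff (P : S.M → Prop) (x y : S.M) : Rel S P x y ↔ ∃ p, P p ∧ OP S p x y := Iff.rfl

section pairs

variable (hpair : ∀ x y, ∃ p, ¬ S.ur p ∧ ∀ z, S.mem z p ↔ z = x ∨ z = y)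
  (hext : ∀ x y, ¬ S.ur x → ¬ S.ur y → (∀ z, S.mem z x ↔ S.mem z y) → x = y)

include hpair hext in
theorem op_exists (x y : S.M) : ∃ p, OP S p x y := by
  obtain ⟨s, hs, hs'⟩ := hpair x x
  obtain ⟨d, hd, hd'⟩ := hpair x y
  obtain ⟨p, hp, hp'⟩ := hpair s d
  refine ⟨p, hp, fun z => (hp' z).trans ⟨?_, ?_⟩⟩
  · rintro (rfl | rfl)
    · exact ⟨hs, Or.inl fun t => (hs' t).trans or_self_iff⟩
    · exact ⟨hd, Or.inr hd'⟩
  · rintro ⟨hz, h | h⟩
    · exact Or.inl (hext z s hz hs fun t => (h t).trans ((hs' t).trans or_self_iff).symm)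
    · exact Or.inr (hext z d hz hd fun t => (h t).trans (hd' t).symm)

include hext in
theorem op_unique {p q x y : S.M} (hp : OP S p x y) (hq : OP S q x y) : p = q :=
  hext p q hp.1 hq.1 fun z => (hp.2 z).trans (hq.2 z).symm

include hpair in
theorem op_inj {p x y x' y' : S.M} (h : OP S p x y) (h' : OP S p x' y') : x = x' ∧ y = y' := by
  obtain ⟨s, hs, hs'⟩ := hpair x x
  obtain ⟨d, hd, hd'⟩ := hpair x y
  obtain ⟨d', hd2, hd2'⟩ := hpair x' y'
  have h1 := (h'.2 s).1 ((h.2 s).2 ⟨hs, Or.inl fun t => (hs' t).trans or_self_iff⟩)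
  have h2 := (h'.2 d).1 ((h.2 d).2 ⟨hd, Or.inr hd'⟩)
  have h3 := (h.2 d').1 ((h'.2 d').2 ⟨hd2, Or.inr hd2'⟩)
  have hx : x = x' := by
    rcases h1.2 with h4 | h4
    · exact (h4 x).1 ((hs' x).2 (Or.inl rfl))
    · rcases (hs' x').1 ((h4 x').2 (Or.inl rfl)) with h5 | h5 <;> exact h5.symm
  subst hx
  refine ⟨rfl, ?_⟩
  have hy : y = x ∨ y = y' := by
    rcases h2.2 with h4 | h4
    · exact Or.inl ((h4 y).1 ((hd' y).2 (Or.inr rfl)))
    · exact (h4 y).1 ((hd' y).2 (Or.inr rfl))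
  have hy' : y' = x ∨ y' = y := by
    rcases h3.2 with h4 | h4
    · exact Or.inl ((h4 y').1 ((hd2' y').2 (Or.inr rfl)))
    · exact (h4 y').1 ((hd2' y').2 (Or.inr rfl))
  rcases hy with h5 | h5
  · rcases hy' with h6 | h6
    · rw [h5, h6]
    · exact h6.symm
  · exact h5

end pairs

/-! ### definability -/

section defin

variable {κ : Type} (W : κ → S.M → Prop) {n : ℕ}

/-- definable predicates -/
def D (p : (Fin n → S.M) → Prop) : Prop := ∃ φ : Fml κ n, ∀ v, Sat S W φ v ↔ p v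

/-- variables -/
def T (t : (Fin n → S.M) → S.M) : Prop := ∃ i, ∀ v, t v = v i

variable {W}

theorem T.var (i : Fin n) : T (S := S) (fun v => v i) := ⟨i, fun _ => rfl⟩

theorem D.mem {s t : (Fin n → S.M) → S.M} (hs : T s) (ht : T t) :
    D W (fun v => S.mem (s v) (t v)) := by
  obtain ⟨i, hi⟩ := hs
  obtain ⟨j, hj⟩ := ht
  exact ⟨.mem i j, fun v => by simp only [Sat, hi, hj]⟩

theorem D.eq {s t : (Fin n → S.M) → S.M} (hs : T s) (ht : T t) :
    D W (fun v => s v = t v) := by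
  obtain ⟨i, hi⟩ := hs
  obtain ⟨j, hj⟩ := ht
  exact ⟨.eq i j, fun v => by simp only [Sat, hi, hj]⟩

theorem D.ur {s : (Fin n → S.M) → S.M} (hs : T s) : D W (fun v => S.ur (s v)) := by
  obtain ⟨i, hi⟩ := hs
  exact ⟨.ur i, fun v => by simp only [Sat, hi]⟩

theorem D.cls (k : κ) {s : (Fin n → S.M) → S.M} (hs : T s) : D W (fun v => W k (s v)) := by
  obtain ⟨i, hi⟩ := hs
  exact ⟨.cls i k, fun v => by simp only [Sat, hi]⟩

theorem D.imp {p q : (Fin n → S.M) → Prop} (hp : D W p) (hq : D W q) :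
    D W (fun v => p v → q v) := by
  obtain ⟨φ, hφ⟩ := hp
  obtain ⟨ψ, hψ⟩ := hq
  exact ⟨.imp φ ψ, fun v => by simp only [Sat, hφ, hψ]⟩

theorem D.not {p : (Fin n → S.M) → Prop} (hp : D W p) : D W (fun v => ¬ p v) := by
  obtain ⟨φ, hφ⟩ := hp
  exact ⟨.imp φ .bot, fun v => by simp only [Sat, hφ]⟩

theorem D.congr {p q : (Fin n → S.M) → Prop} (hp : D W p) (h : ∀ v, p v ↔ q v) : D W q := by
  obtain ⟨φ, hφ⟩ := hp
  exact ⟨φ, fun v => (hφ v).trans (h v)⟩

theorem D.and {p q : (Fin n → S.M) → Prop} (hp : D W p) (hq : D W q) :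
    D W (fun v => p v ∧ q v) :=
  (hp.imp hq.not).not.congr fun v => by tauto

theorem D.or {p q : (Fin n → S.M) → Prop} (hp : D W p) (hq : D W q) :
    D W (fun v => p v ∨ q v) :=
  (hp.not.imp hq).congr fun v => by tauto

theorem D.iff {p q : (Fin n → S.M) → Prop} (hp : D W p) (hq : D W q) :
    D W (fun v => p v ↔ q v) :=
  ((hp.imp hq).and (hq.imp hp)).congr fun v => by tauto

theorem D.all {p : (Fin n → S.M) → S.M → Prop}
    (h : D W (fun w : Fin (n + 1) → S.M => p (fun i => w i.succ) (w 0))) :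
    D W (fun v => ∀ x, p v x) := by
  obtain ⟨φ, hφ⟩ := h
  exact ⟨.all φ, fun v => by simp only [Sat, hφ, Fin.cons_succ, Fin.cons_zero]⟩

theorem D.ex {p : (Fin n → S.M) → S.M → Prop}
    (h : D W (fun w : Fin (n + 1) → S.M => p (fun i => w i.succ) (w 0))) :
    D W (fun v => ∃ x, p v x) :=
  (D.all (p := fun v x => ¬ p v x) h.not).not.congr fun v => by push Not; rfl

end defin

/-! ### labellings -/

/-- the labelling `f` gives to the index `i` of `I` the urelement `b` -/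
def E (S : Str.{u}) (I f i b : S.M) : Prop :=
  S.mem i I ∧ S.ur b ∧ ∃ p, S.mem p f ∧ S.mem i p ∧ S.mem b p

/-- `f` is a labelling -/
def Lab (S : Str.{u}) (I f : S.M) : Prop := ∀ i b c, E S I f i b → E S I f i c → b = c

/-- the sentence: the urelements form a set, or no set `I` labels all sets of urelements -/
def Sigma (S : Str.{u}) : Prop :=
  (∃ s, ∀ b, S.ur b → S.mem b s) ∨
    ∀ I, ∃ B, (∀ b, S.mem b B → S.ur b) ∧
      ∀ f, ¬ (Lab S I f ∧ ∀ b, S.mem b B → ∃ i, E S I f i b)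

/-- the formula for `E` -/
def fE {n : ℕ} (I f i b : Fin n) : Fml Empty n :=
  .imp (.imp (.mem i I) (.imp (.ur b) (.all (.imp (.mem 0 f.succ) (.imp (.mem i.succ 0)
    (.imp (.mem b.succ 0) .bot)))))) .bot

theorem sat_fE {n : ℕ} (I f i b : Fin n) (v : Fin n → S.M) :
    Sat S Empty.elim (fE I f i b) v ↔ E S (v I) (v f) (v i) (v b) := by
  simp only [fE, Sat, E, Fin.cons_succ, Fin.cons_zero]
  constructor
  · intro h
    by_contra hc
    apply h
    intro h1 h2 p h3 h4 h5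
    exact hc ⟨h1, h2, p, h3, h4, h5⟩
  · rintro ⟨h1, h2, p, h3, h4, h5⟩ h
    exact h h1 h2 p h3 h4 h5

/-- the sentence -/
def sigma : Fml Empty 0 :=
  .imp (.all (.imp (.all (.imp (.ur 0) (.mem 0 1))) .bot))
    (.all (.imp (.all (.imp (.all (.imp (.mem 0 1) (.ur 0)))
      (.imp (.all (.imp
        (.all (.all (.all (.imp (fE 5 3 2 1) (.imp (fE 5 3 2 0) (.eq 1 0))))))
        (.imp (.all (.imp (.mem 0 2) (.imp (.all (.imp (fE 4 2 0 1) .bot)) .bot))) .bot))) .bot)))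
      .bot))

theorem sat_sigma (v : Fin 0 → S.M) : Sat S Empty.elim sigma v ↔ Sigma S := by
  simp only [sigma, Sat, sat_fE]
  change ((∀ s, (∀ b, S.ur b → S.mem b s) → False) → ∀ I, (∀ B, (∀ b, S.mem b B → S.ur b) →
    (∀ f, (∀ i b c, E S I f i b → E S I f i c → b = c) →
      (∀ b, S.mem b B → (∀ i, E S I f i b → False) → False) → False) → False) → False) ↔ _
  unfold Sigma Lab
  constructor
  · intro h
    by_contra hc
    push Not at hc
    obtain ⟨h1, I, h2⟩ := hc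
    refine h (fun s hs => ?_) I fun B hB h3 => ?_
    · obtain ⟨b, hb1, hb2⟩ := h1 s
      exact hb2 (hs b hb1)
    · obtain ⟨f, hf1, hf2⟩ := h2 B hB
      refine h3 f hf1 fun b hb h4 => ?_
      obtain ⟨i, hi⟩ := hf2 b hb
      exact h4 i hi
  · rintro (⟨s, hs⟩ | h) h1 I h2
    · exact h1 s hs
    · obtain ⟨B, hB, h3⟩ := h I
      refine h2 B hB fun f hf h4 => h3 f ⟨hf, fun b hb => ?_⟩
      by_contra hc
      exact h4 b hb fun i hi => hc ⟨i, hi⟩

end Pool.Agent.H597Z.Ur
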