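import Mathlib
import Pool.Agent.H597Z.UrBasic

set_option autoImplicit false
set_option linter.unreachableTactic false
set_option linter.unusedTactic false

universe u

namespace Pool.Agent.H597Z.Ur

variable {S : Str.{u}} {C : Type u} {cm : S.M → C → Prop}

theorem ZCU.empty (h : ZCU S) : ∃ e, ¬ S.ur e ∧ ∀ z, ¬ S.mem z e := by
  obtain ⟨_, ⟨e, _, h1, h2⟩, _⟩ := h.inf
  exact ⟨e, h1, h2⟩

theorem ZCU.union' (h : ZCU S) (x : S.M) :
    ∃ a, ¬ S.ur a ∧ ∀ z, S.mem z a ↔ ∃ y, S.mem y x ∧ S.mem z y := by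
  by_cases hx : S.ur x
  · obtain ⟨e, h1, h2⟩ := h.empty
    exact ⟨e, h1, fun z => ⟨fun h3 => absurd h3 (h2 z), fun ⟨y, h3, _⟩ =>
      absurd h3 (h.urEmpty x y hx)⟩⟩
  · exact h.union x hx

theorem ZCU.union2 (h : ZCU S) (x y : S.M) :
    ∃ a, ¬ S.ur a ∧ ∀ z, S.mem z a ↔ S.mem z x ∨ S.mem z y := by
  obtain ⟨p, _, hp⟩ := h.pair x y
  obtain ⟨a, ha, h1⟩ := h.union' p
  refine ⟨a, ha, fun z => (h1 z).trans ⟨?_, ?_⟩⟩
  · rintro ⟨t, ht, hz⟩
    rcases (hp t).1 ht with rfl | rfl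
    · exact Or.inl hz
    · exact Or.inr hz
  · rintro (hz | hz)
    · exact ⟨x, (hp x).2 (Or.inl rfl), hz⟩
    · exact ⟨y, (hp y).2 (Or.inr rfl), hz⟩

theorem ZCU.insert (h : ZCU S) (x j : S.M) :
    ∃ a, ¬ S.ur a ∧ ∀ z, S.mem z a ↔ S.mem z x ∨ z = j := by
  obtain ⟨p, _, hp⟩ := h.pair j j
  obtain ⟨a, ha, h1⟩ := h.union2 x p
  exact ⟨a, ha, fun z => by rw [h1, hp, or_self]⟩

theorem ZCU.power' (h : ZCU S) (x : S.M) :
    ∃ p, ¬ S.ur p ∧ ∀ z, ¬ S.ur z → (∀ t, S.mem t z → S.mem t x) → S.mem z p := by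
  obtain ⟨a, ha, h1⟩ := h.union2 x x
  obtain ⟨p, hp, h2⟩ := h.power a ha
  exact ⟨p, hp, fun z hz h3 => (h2 z).2 ⟨hz, fun t ht => (h1 t).2 (Or.inl (h3 t ht))⟩⟩

theorem ZCU.prod (h : ZCU S) (A B : S.M) :
    ∃ a, ¬ S.ur a ∧ ∀ p x y, S.mem x A → S.mem y B → OP S p x y → S.mem p a := by
  obtain ⟨a, _, h1⟩ := h.union2 A B
  obtain ⟨b, _, h2⟩ := h.power' a
  obtain ⟨c, hc, h3⟩ := h.power' b
  refine ⟨c, hc, fun p x y hx hy hp => h3 p hp.1 fun z hz => ?_⟩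
  obtain ⟨h4, h5⟩ := (hp.2 z).1 hz
  refine h2 z h4 fun t ht => (h1 t).2 ?_
  rcases h5 with h5 | h5
  · rw [(h5 t).1 ht]; exact Or.inl hx
  · rcases (h5 t).1 ht with rfl | rfl
    · exact Or.inl hx
    · exact Or.inr hy

/-- the assignment of classes -/
def WW (cm : S.M → C → Prop) (F : C) : Fin 1 → S.M → Prop := fun _ y => cm y F

theorem GBC.classOf (h : GBC S C cm) (F : C) {n : ℕ} {p : (Fin (n + 1) → S.M) → Prop}
    (hp : D (WW cm F) p) (v : Fin n → S.M) : ∃ c, ∀ x, cm x c ↔ p (Fin.cons x v) := by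
  obtain ⟨φ, hφ⟩ := hp
  obtain ⟨c, hc⟩ := h.comp 1 n φ (fun _ => F) v
  exact ⟨c, fun x => (hc x).trans (hφ _)⟩

theorem GBC.relOf (h : GBC S C cm) (F : C) (P : S.M → S.M → S.M → S.M → S.M → Prop)
    (hp : D (WW cm F) (fun w : Fin 4 → S.M =>
      ∃ x y, OP S (w 0) x y ∧ P x y (w 1) (w 2) (w 3))) (a b c : S.M) :
    ∃ R, ∀ x y, Rel S (fun p => cm p R) x y ↔ P x y a b c := by
  obtain ⟨R, hR⟩ := h.classOf F hp ![a, b, c]
  refine ⟨R, fun x y => ⟨?_, ?_⟩⟩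
  · rintro ⟨p, h1, h2⟩
    obtain ⟨x', y', h3, h4⟩ := (hR p).1 h1
    obtain ⟨rfl, rfl⟩ := op_inj h.zcu.pair (p := p) h2 h3
    exact h4
  · intro h1
    obtain ⟨p, hp⟩ := op_exists h.zcu.pair h.zcu.ext x y
    exact ⟨p, (hR p).2 ⟨x, y, hp, h1⟩, hp⟩

/-- separation for classes -/
theorem GBC.sepCls (h : GBC S C cm) (c : C) (w : S.M) :
    ∃ a, ¬ S.ur a ∧ ∀ z, S.mem z a ↔ S.mem z w ∧ cm z c := by
  by_cases hne : ∃ x0, S.mem x0 w ∧ cm x0 c
  · obtain ⟨x0, hx0, hx0'⟩ := hne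
    have hw : ¬ S.ur w := fun hw => h.zcu.urEmpty w x0 hw hx0
    obtain ⟨R, hR⟩ := h.relOf c
      (fun x y a _ _ => (WW cm c 0 x ∧ y = x) ∨ (¬ WW cm c 0 x ∧ y = a)) (by
        unfold OP
        repeat' first
          | exact T.var _
          | apply D.ex | apply D.and | apply D.or | apply D.iff | apply D.not | apply D.all
          | apply D.imp | apply D.mem | apply D.ur | apply D.eq | apply D.cls) x0 x0 x0
    obtain ⟨a, ha, h1⟩ := h.repl R w hw fun x _ => by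
      simp only [hR]
      by_cases hx : WW cm c 0 x
      · exact ⟨x, Or.inl ⟨hx, rfl⟩, fun y hy => by tauto⟩
      · exact ⟨x0, Or.inr ⟨hx, rfl⟩, fun y hy => by tauto⟩
    refine ⟨a, ha, fun z => (h1 z).trans ⟨?_, ?_⟩⟩
    · rintro ⟨x, hx, h2⟩
      rcases (hR x z).1 h2 with ⟨h3, rfl⟩ | ⟨_, rfl⟩
      · exact ⟨hx, h3⟩
      · exact ⟨hx0, hx0'⟩
    · rintro ⟨h2, h3⟩
      exact ⟨z, h2, (hR z z).2 (Or.inl ⟨h3, rfl⟩)⟩
  · obtain ⟨e, h1, h2⟩ := h.zcu.empty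
    exact ⟨e, h1, fun z => ⟨fun h3 => absurd h3 (h2 z), fun h3 => absurd ⟨z, h3⟩ hne⟩⟩

theorem GBC.sep (h : GBC S C cm) (F : C) (P : S.M → S.M → S.M → S.M → Prop)
    (hp : D (WW cm F) (fun w : Fin 4 → S.M => P (w 0) (w 1) (w 2) (w 3))) (a b c w : S.M) :
    ∃ s, ¬ S.ur s ∧ ∀ z, S.mem z s ↔ S.mem z w ∧ P z a b c := by
  obtain ⟨R, hR⟩ := h.classOf F hp ![a, b, c]
  obtain ⟨s, hs, h1⟩ := h.sepCls R w
  exact ⟨s, hs, fun z => (h1 z).trans (and_congr_right fun _ => hR z)⟩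

theorem GBC.collect (h : GBC S C cm) (F : C) (P : S.M → S.M → S.M → S.M → S.M → Prop)
    (hp : D (WW cm F) (fun w : Fin 4 → S.M =>
      ∃ x y, OP S (w 0) x y ∧ P x y (w 1) (w 2) (w 3))) (a b c w : S.M) (hw : ¬ S.ur w)
    (h1 : ∀ x, S.mem x w → ∃ y, P x y a b c) :
    ∃ s, ¬ S.ur s ∧ ∀ x, S.mem x w → ∃ y, S.mem y s ∧ P x y a b c := by
  obtain ⟨R, hR⟩ := h.relOf F P hp a b c
  obtain ⟨s, hs, h2⟩ := h.coll R w hw (by simpa only [hR] using h1)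
  exact ⟨s, hs, by simpa only [hR] using h2⟩

/-! ### types of labellings -/

section types

variable (S) (W : Fin 1 → S.M → Prop)

/-- `y` is the image of `x` under the labelling `f` -/
def Img (I f x y : S.M) : Prop := ¬ S.ur y ∧ ∀ b, S.mem b y ↔ ∃ j, S.mem j x ∧ E S I f j b

/-- the chosen element of `f[x]` is `e(i)` -/
def Phi (I e f x i : S.M) : Prop :=
  ∃ y b, Img S I f x y ∧ (∃ c, S.mem c y) ∧ Rel S (W 0) y b ∧ E S I e i b

/-- `t` is the pattern of `e` and `f` -/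
def IsP (I t e f : S.M) : Prop :=
  ¬ S.ur t ∧ ∀ q, S.mem q t ↔ ∃ x i, OP S q x i ∧ ¬ S.ur x ∧ (∀ j, S.mem j x → S.mem j I) ∧
    Phi S W I e f x i

/-- the range of `e` is contained in the range of `f` -/
def RanSub (I e f : S.M) : Prop := ∀ i b, E S I e i b → ∃ j, E S I f j b

/-- `q` is the code of the extension `f` of `e` -/
def Code (I q e f : S.M) : Prop :=
  Lab S I f ∧ RanSub S I e f ∧ ∃ t1 t2, IsP S W I t1 e f ∧ IsP S W I t2 f f ∧ OP S q t1 t2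

/-- `t` is the type of `e` -/
def IsTp (I t e : S.M) : Prop := ¬ S.ur t ∧ ∀ q, S.mem q t ↔ ∃ f, Code S W I q e f

end types

theorem GBC.ran (h : GBC S C cm) (F : C) (I v : S.M) :
    ∃ Q, ¬ S.ur Q ∧ ∀ b, S.mem b Q ↔ ∃ f, S.mem f v ∧ ∃ i, E S I f i b := by
  obtain ⟨a, _, ha⟩ := h.zcu.union' v
  obtain ⟨a', _, ha'⟩ := h.zcu.union' a
  obtain ⟨s, hs, h1⟩ := h.sep F (fun b I v _ => ∃ f, S.mem f v ∧ ∃ i, E S I f i b) (by
    unfold E
    repeat' first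
      | exact T.var _
      | apply D.ex | apply D.and | apply D.or | apply D.iff | apply D.not | apply D.all
      | apply D.imp | apply D.mem | apply D.ur | apply D.eq | apply D.cls) I v v a'
  refine ⟨s, hs, fun b => (h1 b).trans ⟨fun h2 => h2.2, fun h2 => ⟨?_, h2⟩⟩⟩
  obtain ⟨f, hf, i, _, _, p, hp, _, hb⟩ := h2
  exact (ha' b).2 ⟨p, (ha p).2 ⟨f, hf, hp⟩, hb⟩

theorem GBC.img (h : GBC S C cm) (F : C) (I f x : S.M) : ∃ y, Img S I f x y := by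
  obtain ⟨a, _, ha⟩ := h.zcu.union' f
  obtain ⟨s, hs, h1⟩ := h.sep F (fun b I f x => ∃ j, S.mem j x ∧ E S I f j b) (by
    unfold E
    repeat' first
      | exact T.var _
      | apply D.ex | apply D.and | apply D.or | apply D.iff | apply D.not | apply D.all
      | apply D.imp | apply D.mem | apply D.ur | apply D.eq | apply D.cls) I f x a
  refine ⟨s, hs, fun b => (h1 b).trans ⟨fun h2 => h2.2, fun h2 => ⟨?_, h2⟩⟩⟩
  obtain ⟨j, _, _, _, p, hp, _, hb⟩ := h2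
  exact (ha b).2 ⟨p, hp, hb⟩

theorem GBC.tok (h : GBC S C cm) (F : C) (I : S.M) :
    ∃ K, (∀ e f, ∃ t, IsP S (WW cm F) I t e f) ∧
      ∀ t e f, IsP S (WW cm F) I t e f → S.mem t K := by
  obtain ⟨PI, _, hPI⟩ := h.zcu.power' I
  obtain ⟨Tk, _, hTk⟩ := h.zcu.prod PI I
  obtain ⟨K, _, hK⟩ := h.zcu.power' Tk
  have key : ∀ e f q, (∃ x i, OP S q x i ∧ ¬ S.ur x ∧ (∀ j, S.mem j x → S.mem j I) ∧
      Phi S (WW cm F) I e f x i) → S.mem q Tk := by
    rintro e f q ⟨x, i, h1, h2, h3, y, b, _, _, _, h4⟩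
    exact hTk q x i (hPI x h2 h3) h4.1 h1
  refine ⟨K, fun e f => ?_, fun t e f ht => hK t ht.1 fun q hq => key e f q ((ht.2 q).1 hq)⟩
  obtain ⟨s, hs, h1⟩ := h.sep F (fun q I e f => ∃ x i, OP S q x i ∧ ¬ S.ur x ∧
      (∀ j, S.mem j x → S.mem j I) ∧ Phi S (WW cm F) I e f x i) (by
    unfold Phi Img Rel OP E
    repeat' first
      | exact T.var _
      | apply D.ex | apply D.and | apply D.or | apply D.iff | apply D.not | apply D.all
      | apply D.imp | apply D.mem | apply D.ur | apply D.eq | apply D.cls) I e f Tk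
  exact ⟨s, hs, fun q => (h1 q).trans ⟨fun h2 => h2.2, fun h2 => ⟨key e f q h2, h2⟩⟩⟩

theorem GBC.tp (h : GBC S C cm) (F : C) (I : S.M) :
    ∃ K, (∀ e, ∃ t, IsTp S (WW cm F) I t e) ∧ ∀ t e, IsTp S (WW cm F) I t e → S.mem t K := by
  obtain ⟨K1, _, hK1⟩ := h.tok F I
  obtain ⟨Tk, _, hTk⟩ := h.zcu.prod K1 K1
  obtain ⟨K, _, hK⟩ := h.zcu.power' Tk
  have key : ∀ e q, (∃ f, Code S (WW cm F) I q e f) → S.mem q Tk := by
    rintro e q ⟨f, _, _, t1, t2, h1, h2, h3⟩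
    exact hTk q t1 t2 (hK1 _ _ _ h1) (hK1 _ _ _ h2) h3
  refine ⟨K, fun e => ?_, fun t e ht => hK t ht.1 fun q hq => key e q ((ht.2 q).1 hq)⟩
  obtain ⟨s, hs, h1⟩ := h.sep F (fun q I e _ => ∃ f, Code S (WW cm F) I q e f) (by
    unfold Code IsP RanSub Lab Phi Img Rel OP E
    repeat' first
      | exact T.var _
      | apply D.ex | apply D.and | apply D.or | apply D.iff | apply D.not | apply D.all
      | apply D.imp | apply D.mem | apply D.ur | apply D.eq | apply D.cls) I e e Tk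
  exact ⟨s, hs, fun q => (h1 q).trans ⟨fun h2 => h2.2, fun h2 => ⟨key e q h2, h2⟩⟩⟩

theorem GBC.coll1 (h : GBC S C cm) (F : C) (I : S.M) :
    ∃ v, ∀ t e, Lab S I e → IsTp S (WW cm F) I t e →
      ∃ e0, S.mem e0 v ∧ Lab S I e0 ∧ IsTp S (WW cm F) I t e0 := by
  obtain ⟨K, _, hK⟩ := h.tp F I
  obtain ⟨w, hw, h1⟩ := h.sep F (fun t I _ _ => ∃ e, Lab S I e ∧ IsTp S (WW cm F) I t e) (by
    unfold IsTp Code IsP RanSub Lab Phi Img Rel OP E
    repeat' first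
      | exact T.var _
      | apply D.ex | apply D.and | apply D.or | apply D.iff | apply D.not | apply D.all
      | apply D.imp | apply D.mem | apply D.ur | apply D.eq | apply D.cls) I I I K
  obtain ⟨v, _, h2⟩ := h.collect F (fun t e I _ _ => Lab S I e ∧ IsTp S (WW cm F) I t e) (by
    unfold IsTp Code IsP RanSub Lab Phi Img Rel OP E
    repeat' first
      | exact T.var _
      | apply D.ex | apply D.and | apply D.or | apply D.iff | apply D.not | apply D.all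
      | apply D.imp | apply D.mem | apply D.ur | apply D.eq | apply D.cls) I I I w hw
    (fun t ht => ((h1 t).1 ht).2)
  exact ⟨v, fun t e he ht => h2 t ((h1 t).2 ⟨hK t e ht, e, he, ht⟩)⟩

theorem GBC.coll2 (h : GBC S C cm) (F : C) (I t e : S.M) (ht : IsTp S (WW cm F) I t e) :
    ∃ v, ∀ q, S.mem q t → ∃ f, S.mem f v ∧ Code S (WW cm F) I q e f := by
  obtain ⟨v, _, h2⟩ := h.collect F (fun q f I e _ => Code S (WW cm F) I q e f) (by
    unfold Code IsP RanSub Lab Phi Img Rel OP E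
    repeat' first
      | exact T.var _
      | apply D.ex | apply D.and | apply D.or | apply D.iff | apply D.not | apply D.all
      | apply D.imp | apply D.mem | apply D.ur | apply D.eq | apply D.cls) I e e t ht.1
    (fun q hq => (ht.2 q).1 hq)
  exact ⟨v, h2⟩

end Pool.Agent.H597Z.Ur
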