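import Mathlib

set_option autoImplicit false

/-!
The fixed-point property for cones (Monod) and growth of groups: definitions.
-/

namespace Pool.Agent.H597Z.ConeDefs

universe u v

/-- The fixed-point property for cones, tested on all real locally convex Hausdorff spaces `E` in
the universe `v`: whenever `G` acts on `E` by continuous linear maps preserving a proper convex cone
`C` that is complete for the weak uniform structure, some non-zero point of `C` has a bounded orbit
(locally bounded type) and some continuous functional `φ` dominates every continuous functional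
(cobounded type), then `G` fixes a non-zero point of `C`. -/
def FPC (G : Type u) [Group G] : Prop :=
  ∀ (E : Type v) [AddCommGroup E] [Module ℝ E] [TopologicalSpace E]
    [IsTopologicalAddGroup E] [ContinuousSMul ℝ E] [LocallyConvexSpace ℝ E] [T2Space E]
    (C : PointedCone ℝ E) (ρ : G →* (E →L[ℝ] E)),
    (∀ x : E, x ∈ C → -x ∈ C → x = 0) →
    IsComplete ((fun x : E => fun f : E →L[ℝ] ℝ => f x) '' (C : Set E)) →
    (∀ g : G, ∀ x ∈ C, (ρ g) x ∈ C) →
    (∃ x ∈ C, x ≠ 0 ∧ Bornology.IsVonNBounded ℝ (Set.range fun g : G => (ρ g) x)) →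
    (∃ φ : E →L[ℝ] ℝ, ∀ l : E →L[ℝ] ℝ, ∃ (n : ℕ) (g : Fin n → G),
        ∀ x ∈ C, |l x| ≤ ∑ i, φ ((ρ (g i)⁻¹) x)) →
    ∃ x ∈ C, x ≠ 0 ∧ ∀ g : G, (ρ g) x = x

/-- The ball of radius `n` for the word metric of `S`: products of at most `n` factors from
`S ∪ S⁻¹`. -/
def ball {G : Type u} [Group G] (S : Finset G) (n : ℕ) : Set G :=
  {g : G | ∃ l : List G, l.length ≤ n ∧ (∀ x ∈ l, x ∈ S ∨ x⁻¹ ∈ S) ∧ l.prod = g}

/-- The balls of `S` grow subexponentially: `|B(n)| ^ (1 / n) → 1`. -/
def Subexp {G : Type u} [Group G] (S : Finset G) : Prop :=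
  Filter.Tendsto (fun n : ℕ => ((Nat.card (ball S n) : ℕ) : ℝ) ^ (1 / (n : ℝ)))
    Filter.atTop (nhds 1)

end Pool.Agent.H597Z.ConeDefs
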