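import Mathlib

set_option autoImplicit false

/-!
A bounded flow on a geodesic spanning tree of a group with exponential growth.
-/

namespace Pool.Agent.H597Z.ConeFlow

open Finset Pointwise

variable {G : Type*} [Group G] [DecidableEq G]

/-- word length with respect to `T` -/
noncomputable def len (T : Finset G) (g : G) : ℕ := sInf {n | g ∈ T ^ n}

/-- `g` is a product of elements of `T` -/
def Rch (T : Finset G) (g : G) : Prop := ∃ n : ℕ, g ∈ T ^ n

variable {T : Finset G}

theorem mem_len {g : G} (h : Rch T g) : g ∈ T ^ len T g := Nat.sInf_mem h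

theorem len_le {g : G} {n : ℕ} (h : g ∈ T ^ n) : len T g ≤ n := Nat.sInf_le h

theorem mem_of_len_le (h1 : (1 : G) ∈ T) {g : G} {n : ℕ} (h : Rch T g) (hn : len T g ≤ n) :
    g ∈ T ^ n := Finset.pow_subset_pow_right h1 hn (mem_len h)

theorem len_mul {g k : G} (hg : Rch T g) (hk : Rch T k) :
    len T (g * k) ≤ len T g + len T k := by
  apply len_le
  rw [pow_add]
  exact Finset.mul_mem_mul (mem_len hg) (mem_len hk)

theorem eq_one_of_len {g : G} (hg : Rch T g) (h0 : len T g = 0) : g = 1 := by
  have := mem_len hg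
  rw [h0, pow_zero, Finset.mem_one] at this
  exact this

theorem len_one : len T (1 : G) = 0 := by
  have : len T (1 : G) ≤ 0 := len_le (by simp)
  omega

theorem exists_last (T : Finset G) (g : G) : ∃ s : G, Rch T g → len T g ≠ 0 →
    s ∈ T ∧ Rch T (g * s⁻¹) ∧ len T (g * s⁻¹) + 1 = len T g := by
  by_cases h : Rch T g ∧ len T g ≠ 0
  · obtain ⟨hg, h0⟩ := h
    obtain ⟨n, hn⟩ := Nat.exists_eq_succ_of_ne_zero h0
    have h2 := mem_len hg
    rw [hn, pow_succ, Finset.mem_mul] at h2
    obtain ⟨u, hu, s, hs, rfl⟩ := h2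
    refine ⟨s, fun _ _ => ⟨hs, ⟨n, by simpa using hu⟩, ?_⟩⟩
    have e : u * s * s⁻¹ = u := by simp
    rw [e]
    have h3 := len_le hu
    have h4 : len T (u * s) ≤ len T u + 1 := by
      apply len_le
      rw [pow_succ]
      exact Finset.mul_mem_mul (mem_len ⟨n, hu⟩) hs
    omega
  · exact ⟨1, fun a b => absurd ⟨a, b⟩ h⟩

/-- the last letter of a chosen geodesic -/
noncomputable def lst (T : Finset G) (g : G) : G := (exists_last T g).choose

/-- the parent in the geodesic tree -/
noncomputable def par (T : Finset G) (g : G) : G := g * (lst T g)⁻¹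

theorem lst_spec {g : G} (hg : Rch T g) (h0 : len T g ≠ 0) :
    lst T g ∈ T ∧ Rch T (par T g) ∧ len T (par T g) + 1 = len T g :=
  (exists_last T g).choose_spec hg h0

theorem anc {h : G} (hh : Rch T h) (m : ℕ) (hm : m ≤ len T h) :
    Rch T ((par T)^[m] h) ∧ len T ((par T)^[m] h) + m = len T h ∧
      ((par T)^[m] h)⁻¹ * h ∈ T ^ m := by
  induction m with
  | zero => simpa using hh
  | succ m ih =>
    obtain ⟨h1, h2, h3⟩ := ih (by omega)
    rw [Function.iterate_succ_apply']
    obtain ⟨h4, h5, h6⟩ := lst_spec h1 (by omega)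
    refine ⟨h5, by omega, ?_⟩
    have e : (par T ((par T)^[m] h))⁻¹ * h =
        lst T ((par T)^[m] h) * (((par T)^[m] h)⁻¹ * h) := by
      simp [par, mul_assoc]
    rw [e, pow_succ']
    exact Finset.mul_mem_mul h4 h3

/-- `g * s` is a child of `g` along the letter `s` -/
def Child (T : Finset G) (g s : G) : Prop :=
  Rch T (g * s) ∧ len T (g * s) ≠ 0 ∧ lst T (g * s) = s

open Classical in
/-- weight of `h` as a descendant of `g` -/
noncomputable def trm (T : Finset G) (t : ℝ) (g h : G) : ℝ :=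
  if len T g ≤ len T h ∧ (par T)^[len T h - len T g] h = g then t ^ (len T h - len T g) else 0

theorem trm_nonneg {t : ℝ} (ht : 0 ≤ t) (g h : G) : 0 ≤ trm T t g h := by
  unfold trm; split_ifs <;> positivity

/-- total weight of the descendants of `g` in the ball of radius `N` -/
noncomputable def W (T : Finset G) (t : ℝ) (N : ℕ) (g : G) : ℝ := ∑ h ∈ T ^ N, trm T t g h

/-- the truncated growth series -/
noncomputable def Z (T : Finset G) (t : ℝ) (N : ℕ) : ℝ := ∑ h ∈ T ^ N, t ^ len T h

theorem W_nonneg {t : ℝ} (ht : 0 ≤ t) (N : ℕ) (g : G) : 0 ≤ W T t N g :=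
  Finset.sum_nonneg fun h _ => trm_nonneg ht g h

theorem W_one (t : ℝ) (N : ℕ) : W T t N 1 = Z T t N := by
  refine Finset.sum_congr rfl fun h hh => ?_
  obtain ⟨h1, h2, _⟩ := anc (T := T) ⟨N, hh⟩ (len T h) le_rfl
  have := eq_one_of_len h1 (by omega)
  simp [trm, len_one, this]

theorem W_le (h1 : (1 : G) ∈ T) {t : ℝ} (ht : 0 ≤ t) (N : ℕ) (g : G) : W T t N g ≤ Z T t N := by
  classical
  unfold W trm
  rw [← Finset.sum_filter]
  set D := (T ^ N).filter
    (fun h => len T g ≤ len T h ∧ (par T)^[len T h - len T g] h = g) with hD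
  have key : ∀ h ∈ D, g⁻¹ * h ∈ T ^ N ∧ len T (g⁻¹ * h) = len T h - len T g := by
    intro h hh
    rw [hD, Finset.mem_filter] at hh
    obtain ⟨hN, hle, hp⟩ := hh
    obtain ⟨a1, _, a3⟩ := anc (T := T) ⟨N, hN⟩ (len T h - len T g) (by omega)
    rw [hp] at a1 a3
    have b1 := len_le a3
    have b2 := len_mul a1 ⟨_, a3⟩
    rw [mul_inv_cancel_left] at b2
    have b3 := len_le hN
    exact ⟨mem_of_len_le h1 ⟨_, a3⟩ (by omega), by omega⟩
  calc ∑ h ∈ D, t ^ (len T h - len T g) = ∑ h ∈ D, t ^ len T (g⁻¹ * h) :=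
        Finset.sum_congr rfl fun h hh => by rw [(key h hh).2]
    _ = ∑ k ∈ D.image (fun h => g⁻¹ * h), t ^ len T k := by
        rw [Finset.sum_image]
        intro a _ b _ hab
        exact mul_left_cancel hab
    _ ≤ Z T t N := by
        apply Finset.sum_le_sum_of_subset_of_nonneg
        · intro k hk
          obtain ⟨h, hh, rfl⟩ := Finset.mem_image.1 hk
          exact (key h hh).1
        · intro k _ _; positivity

open Classical in
theorem trm_step {t : ℝ} (ht : 0 ≤ t) (g h : G) (hh : Rch T h) :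
    trm T t g h ≤ (if h = g then 1 else 0) +
      t * ∑ s ∈ T, if Child T g s then trm T t (g * s) h else 0 := by
  have hnn : ∀ s ∈ T, 0 ≤ if Child T g s then trm T t (g * s) h else 0 := by
    intro s _; split_ifs
    · exact trm_nonneg ht _ _
    · exact le_rfl
  have hS : 0 ≤ ∑ s ∈ T, if Child T g s then trm T t (g * s) h else 0 := Finset.sum_nonneg hnn
  by_cases hc : len T g ≤ len T h ∧ (par T)^[len T h - len T g] h = g
  · obtain ⟨hle, hp⟩ := hc
    by_cases hm : len T h - len T g = 0
    · rw [hm] at hp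
      have e : h = g := hp
      have : trm T t g h = 1 := by simp [trm, e]
      rw [this, if_pos e]
      have := mul_nonneg ht hS
      linarith
    · obtain ⟨m, hm'⟩ := Nat.exists_eq_succ_of_ne_zero hm
      obtain ⟨a1, a2, _⟩ := anc hh m (by omega)
      set c := (par T)^[m] h with hc
      have hpc : par T c = g := by
        rw [hm', Function.iterate_succ_apply'] at hp; exact hp
      obtain ⟨b1, _, b3⟩ := lst_spec a1 (by omega)
      have e : g * lst T c = c := by rw [← hpc]; simp [par]
      have hch : Child T g (lst T c) := by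
        unfold Child; rw [e]; exact ⟨a1, by omega, rfl⟩
      have e2 : trm T t c h = t ^ m := by
        have : len T h - len T c = m := by omega
        unfold trm
        rw [this, if_pos ⟨by omega, rfl⟩]
      have e3 : trm T t g h = t * t ^ m := by
        unfold trm
        rw [if_pos ⟨hle, hp⟩, hm', pow_succ']
      have h5 := Finset.single_le_sum hnn b1
      simp only [hch, if_true, e, e2] at h5
      have h6 := mul_le_mul_of_nonneg_left h5 ht
      have h7 : (0 : ℝ) ≤ if h = g then 1 else 0 := by split_ifs <;> norm_num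
      rw [e3]; linarith
  · have : trm T t g h = 0 := by unfold trm; rw [if_neg hc]
    rw [this]
    have h7 : (0 : ℝ) ≤ if h = g then 1 else 0 := by split_ifs <;> norm_num
    have := mul_nonneg ht hS
    linarith

open Classical in
theorem W_step {t : ℝ} (ht : 0 ≤ t) (N : ℕ) (g : G) :
    W T t N g ≤ 1 + t * ∑ s ∈ T, if Child T g s then W T t N (g * s) else 0 := by
  have h1 : W T t N g ≤ ∑ h ∈ T ^ N, ((if h = g then (1 : ℝ) else 0) +
      t * ∑ s ∈ T, if Child T g s then trm T t (g * s) h else 0) :=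
    Finset.sum_le_sum fun h hh => trm_step ht g h ⟨N, hh⟩
  rw [Finset.sum_add_distrib, ← Finset.mul_sum, Finset.sum_comm] at h1
  have h2 : ∑ h ∈ T ^ N, (if h = g then (1 : ℝ) else 0) ≤ 1 := by
    rw [Finset.sum_ite_eq']; split_ifs <;> norm_num
  have h3 : ∀ s ∈ T, (∑ h ∈ T ^ N, if Child T g s then trm T t (g * s) h else 0) =
      if Child T g s then W T t N (g * s) else 0 := by
    intro s _; split_ifs
    · rfl
    · simp
  rw [Finset.sum_congr rfl h3] at h1
  linarith

theorem card_le_Z {t : ℝ} (ht : 0 < t) (ht1 : t ≤ 1) (N : ℕ) :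
    ((T ^ N).card : ℝ) * t ^ N ≤ Z T t N := by
  have : ∑ _h ∈ T ^ N, t ^ N ≤ Z T t N :=
    Finset.sum_le_sum fun h hh => pow_le_pow_of_le_one ht.le ht1 (len_le hh)
  simpa using this

open Classical in
/-- The bounded flow. -/
theorem exists_flow (h1 : (1 : G) ∈ T) {t : ℝ} (ht : 0 < t)
    (hZ : ∀ K : ℝ, ∃ N, K < Z T t N) :
    ∃ a : G → ℝ, (∀ g, 0 ≤ a g ∧ a g ≤ 1) ∧ a 1 = 1 ∧
      ∀ g, a g ≤ t * ∑ s ∈ T, if Child T g s then a (g * s) else 0 := by
  let A : ℕ → Set (G → ℝ) := fun n =>
    {a | (∀ g, 0 ≤ a g ∧ a g ≤ 1) ∧ a 1 = 1 ∧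
      ∀ g, a g ≤ 1 / ((n : ℝ) + 1) + t * ∑ s ∈ T, if Child T g s then a (g * s) else 0}
  have hcl : ∀ n, IsClosed (A n) := by
    intro n
    have : A n = (⋂ g, {a : G → ℝ | 0 ≤ a g} ∩ {a : G → ℝ | a g ≤ 1}) ∩ ({a | a 1 = 1} ∩
        ⋂ g, {a : G → ℝ | a g ≤ 1 / ((n : ℝ) + 1) +
          t * ∑ s ∈ T, if Child T g s then a (g * s) else 0}) := by
      ext a; simp [A]
    rw [this]
    refine (isClosed_iInter fun g => (isClosed_le continuous_const (continuous_apply g)).inter
      (isClosed_le (continuous_apply g) continuous_const)).inter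
      ((isClosed_eq (continuous_apply 1) continuous_const).inter
        (isClosed_iInter fun g => isClosed_le (continuous_apply g) ?_))
    refine continuous_const.add (continuous_const.mul (continuous_finsetSum _ fun s _ => ?_))
    split_ifs
    · exact continuous_apply _
    · exact continuous_const
  have hK : IsCompact (Set.pi Set.univ fun _ : G => Set.Icc (0 : ℝ) 1) :=
    isCompact_univ_pi fun _ => isCompact_Icc
  have hco : IsCompact (A 0) := hK.of_isClosed_subset (hcl 0) fun a ha g _ => ha.1 g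
  have hne : ∀ n, (A n).Nonempty := by
    intro n
    obtain ⟨N, hN⟩ := hZ ((n : ℝ) + 1)
    have hZ0 : 0 < Z T t N := lt_trans (by positivity) hN
    refine ⟨fun g => W T t N g / Z T t N, fun g => ⟨div_nonneg (W_nonneg ht.le N g) hZ0.le,
      (div_le_one hZ0).2 (W_le h1 ht.le N g)⟩, ?_, fun g => ?_⟩
    · simp only [W_one]; exact div_self hZ0.ne'
    · have h2 := div_le_div_of_nonneg_right (W_step (T := T) ht.le N g) hZ0.le
      have h3 : 1 / Z T t N ≤ 1 / ((n : ℝ) + 1) :=
        one_div_le_one_div_of_le (by positivity) hN.le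
      have h4 : (∑ s ∈ T, if Child T g s then W T t N (g * s) / Z T t N else 0) =
          (∑ s ∈ T, if Child T g s then W T t N (g * s) else 0) / Z T t N := by
        rw [Finset.sum_div]
        refine Finset.sum_congr rfl fun s _ => ?_
        split_ifs <;> simp
      simp only [h4]
      rw [add_div, mul_div_assoc] at h2
      linarith
  have hmono : ∀ n, A (n + 1) ⊆ A n := by
    rintro n a ⟨a1, a2, a3⟩
    refine ⟨a1, a2, fun g => (a3 g).trans ?_⟩
    have : 1 / (((n + 1 : ℕ) : ℝ) + 1) ≤ 1 / ((n : ℝ) + 1) :=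
      one_div_le_one_div_of_le (by positivity) (by push_cast; linarith)
    linarith
  obtain ⟨a, ha⟩ := IsCompact.nonempty_iInter_of_sequence_nonempty_isCompact_isClosed A hmono hne
    hco hcl
  rw [Set.mem_iInter] at ha
  refine ⟨a, (ha 0).1, (ha 0).2.1, fun g => ?_⟩
  apply le_of_forall_pos_le_add
  intro ε hε
  obtain ⟨n, hn⟩ := exists_nat_one_div_lt hε
  have := (ha n).2.2 g
  linarith

end Pool.Agent.H597Z.ConeFlow
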