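import Mathlib
import Pool.Agent.H597Z.ConeDefs
import Pool.Agent.H597Z.ConeFlow

set_option autoImplicit false

/-!
The fixed-point property for cones forces subexponential growth.
-/

namespace Pool.Agent.H597Z.ConeNot

open Filter Topology Pointwise Pool.Agent.H597Z.ConeDefs Pool.Agent.H597Z.ConeFlow

universe u

theorem functional_bound {ι : Type u} (l : (ι → ℝ) →L[ℝ] ℝ) :
    ∃ (s : Finset ι) (N : ℕ), ∀ x : ι → ℝ, (∀ g, 0 ≤ x g) → |l x| ≤ N * ∑ g ∈ s, x g := by
  have h1 : {x : ι → ℝ | |l x| < 1} ∈ 𝓝 (0 : ι → ℝ) := by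
    have : IsOpen {x : ι → ℝ | |l x| < 1} := isOpen_lt l.continuous.abs continuous_const
    exact this.mem_nhds (by simp)
  rw [nhds_pi, Filter.mem_pi'] at h1
  obtain ⟨s, t, ht, hst⟩ := h1
  have h2 : ∀ g : ι, ∃ δ : ℝ, 0 < δ ∧ Metric.ball (0 : ℝ) δ ⊆ t g := fun g =>
    Metric.mem_nhds_iff.1 (ht g)
  choose δ hδ hδt using h2
  obtain ⟨d, hd0, hd⟩ : ∃ d : ℝ, 0 < d ∧ ∀ g ∈ s, d ≤ δ g := by
    rcases s.eq_empty_or_nonempty with rfl | hs
    · exact ⟨1, one_pos, by simp⟩
    · obtain ⟨g, hg, hmin⟩ := s.exists_min_image δ hs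
      exact ⟨δ g, hδ g, hmin⟩
  obtain ⟨N, hN⟩ := exists_nat_gt (1 / d)
  have hNd : 1 < N * d := by rwa [div_lt_iff₀ hd0] at hN
  refine ⟨s, N, fun x hx => ?_⟩
  set m : ℝ := ∑ g ∈ s, x g with hm
  have hm0 : 0 ≤ m := Finset.sum_nonneg fun g _ => hx g
  have key : ∀ c : ℝ, 0 < c → c * m < d → c * |l x| < 1 := by
    intro c hc hcm
    have : c • x ∈ {x : ι → ℝ | |l x| < 1} := by
      apply hst
      intro g hg
      apply hδt g
      have h3 : x g ≤ m := Finset.single_le_sum (f := x) (fun g _ => hx g) hg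
      simp only [Pi.smul_apply, smul_eq_mul, Metric.mem_ball, dist_zero_right, Real.norm_eq_abs]
      rw [abs_of_nonneg (mul_nonneg hc.le (hx g))]
      have := hd g hg
      nlinarith
    simpa [abs_mul, abs_of_pos hc] using this
  by_contra hcon
  push Not at hcon
  have hl0 : 0 < |l x| := lt_of_le_of_lt (by positivity) hcon
  have := key (1 / |l x|) (by positivity) (by
    rw [div_mul_eq_mul_div, one_mul, div_lt_iff₀ hl0]
    nlinarith)
  rw [div_mul_cancel₀ _ hl0.ne'] at this
  exact lt_irrefl _ this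

theorem complete_of_closed {ι : Type u} {C : Set (ι → ℝ)} (hC : IsClosed C) :
    IsComplete ((fun x : ι → ℝ => fun f : (ι → ℝ) →L[ℝ] ℝ => f x) '' C) := by
  let Φ : (ι → ℝ) → (((ι → ℝ) →L[ℝ] ℝ) → ℝ) := fun x f => f x
  let Ψ : (((ι → ℝ) →L[ℝ] ℝ) → ℝ) → (ι → ℝ) := fun r p => r (ContinuousLinearMap.proj p)
  have hΦ : Continuous Φ := continuous_pi fun f => f.continuous
  have hΨ : Continuous Ψ := continuous_pi fun p => continuous_apply _
  have e : Φ '' C = {r | Φ (Ψ r) = r} ∩ Ψ ⁻¹' C := by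
    ext r
    constructor
    · rintro ⟨x, hx, rfl⟩
      exact ⟨rfl, hx⟩
    · rintro ⟨h1, h2⟩
      exact ⟨Ψ r, h2, h1⟩
  have hcl : IsClosed (Φ '' C) := by
    rw [e]
    exact (isClosed_eq (hΦ.comp hΨ) continuous_id).inter (hC.preimage hΨ)
  exact hcl.isComplete

variable {G : Type u} [Group G]

/-- left translation on functions on the edges -/
noncomputable def lt (T : Finset G) : G →* ((G × T → ℝ) →L[ℝ] (G × T → ℝ)) where
  toFun h := ContinuousLinearMap.pi fun p => ContinuousLinearMap.proj (h⁻¹ * p.1, p.2)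
  map_one' := by ext x g; simp
  map_mul' h k := by ext x g; simp [mul_assoc]

theorem lt_apply (T : Finset G) (h : G) (x : G × T → ℝ) (p : G × T) :
    lt T h x p = x (h⁻¹ * p.1, p.2) := rfl

/-- the cone of non-negative flows whose inflow is at most `t` times the outflow -/
def cone (T : Finset G) (t : ℝ) : PointedCone ℝ (G × T → ℝ) where
  carrier := {x | (∀ p, 0 ≤ x p) ∧ ∀ g : G, ∑ s : T, x (g * (s : G)⁻¹, s) ≤ t * ∑ s : T, x (g, s)}
  add_mem' := by
    rintro x y ⟨hx1, hx2⟩ ⟨hy1, hy2⟩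
    refine ⟨fun p => add_nonneg (hx1 p) (hy1 p), fun g => ?_⟩
    have := hx2 g; have := hy2 g
    simp only [Pi.add_apply, Finset.sum_add_distrib]; linarith
  zero_mem' := ⟨fun _ => le_rfl, fun g => by simp⟩
  smul_mem' := by
    rintro c x ⟨hx1, hx2⟩
    refine ⟨fun p => mul_nonneg c.2 (hx1 p), fun g => ?_⟩
    have := mul_le_mul_of_nonneg_left (hx2 g) c.2
    have e : ∀ p, (c • x) p = (c : ℝ) * x p := fun p => rfl
    simp only [e, ← Finset.mul_sum]
    linarith

theorem mem_cone {T : Finset G} {t : ℝ} {x : G × T → ℝ} : x ∈ cone T t ↔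
    (∀ p, 0 ≤ x p) ∧ ∀ g : G, ∑ s : T, x (g * (s : G)⁻¹, s) ≤ t * ∑ s : T, x (g, s) := Iff.rfl

theorem Z_bdd [DecidableEq G] (h : FPC.{u, u} G) {T : Finset G} (h1 : (1 : G) ∈ T) {t : ℝ}
    (ht : 0 < t) (ht1 : t < 1) : ∃ K : ℝ, ∀ N, Z T t N ≤ K := by
  classical
  by_contra hcon
  push Not at hcon
  obtain ⟨a, ha01, ha1, ha⟩ := exists_flow h1 ht hcon
  have hcl : IsClosed (cone T t : Set (G × T → ℝ)) := by
    have : (cone T t : Set (G × T → ℝ)) = (⋂ p, {x : G × T → ℝ | 0 ≤ x p}) ∩
        ⋂ g : G, {x : G × T → ℝ | ∑ s : T, x (g * (s : G)⁻¹, s) ≤ t * ∑ s : T, x (g, s)} := by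
      ext x; simp [mem_cone]
    rw [this]
    refine (isClosed_iInter fun g => isClosed_le continuous_const (continuous_apply g)).inter
      (isClosed_iInter fun g => isClosed_le ?_ ?_)
    · exact continuous_finsetSum _ fun s _ => continuous_apply _
    · exact continuous_const.mul (continuous_finsetSum _ fun s _ => continuous_apply _)
  let x0 : G × T → ℝ := fun p => if Child T p.1 p.2 then a (p.1 * p.2) else 0
  have hx0 : ∀ p, 0 ≤ x0 p ∧ x0 p ≤ 1 := by
    intro p; simp only [x0]; split_ifs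
    · exact ha01 _
    · norm_num
  have hout : ∀ g, a g ≤ t * ∑ s : T, x0 (g, s) := by
    intro g
    have := ha g
    rwa [← Finset.sum_coe_sort T] at this
  let φ : (G × T → ℝ) →L[ℝ] ℝ := ∑ s : T, ContinuousLinearMap.proj (1, s)
  have hφ : ∀ (g : G) (x : G × T → ℝ), φ (lt T g⁻¹ x) = ∑ s : T, x (g, s) := by
    intro g x
    simp [φ, lt_apply]
  obtain ⟨x, ⟨hx1, hx2⟩, hne, hx⟩ := h (G × T → ℝ) (cone T t) (lt T) (by
      intro x hx hx'
      funext p
      have := hx.1 p; have := hx'.1 p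
      simp only [Pi.neg_apply, Pi.zero_apply] at *
      linarith) (complete_of_closed hcl) (by
      rintro k x ⟨hx1, hx2⟩
      refine ⟨fun p => hx1 _, fun g => ?_⟩
      simp only [lt_apply, ← mul_assoc]
      exact hx2 _) (by
      refine ⟨x0, ⟨fun p => (hx0 p).1, fun g => le_trans ?_ (hout g)⟩, ?_, ?_⟩
      · have : ∀ s : T, x0 (g * (s : G)⁻¹, s) ≤ if (s : G) = lst T g then a g else 0 := by
          intro s
          simp only [x0, Child, inv_mul_cancel_right]
          split_ifs with c1 c2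
          · exact le_rfl
          · exact absurd c1.2.2.symm c2
          · exact (ha01 g).1
          · exact le_rfl
        refine (Finset.sum_le_sum fun s _ => this s).trans ?_
        rw [Finset.sum_coe_sort T (fun s => if s = lst T g then a g else 0), Finset.sum_ite_eq']
        split_ifs
        · exact le_rfl
        · exact (ha01 g).1
      · intro h0
        have := hout 1
        rw [h0, ha1] at this
        norm_num at this
      · have hK : IsCompact (Set.pi Set.univ fun _ : G × T => Set.Icc (0 : ℝ) 1) :=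
          isCompact_univ_pi fun _ => isCompact_Icc
        refine (hK.isVonNBounded ℝ).subset ?_
        rintro _ ⟨k, rfl⟩ p _
        exact hx0 _) (by
      refine ⟨φ, fun l => ?_⟩
      obtain ⟨s, N, hs⟩ := functional_bound l
      let e : Fin (Fintype.card (Fin N × s)) ≃ Fin N × s := (Fintype.equivFin _).symm
      refine ⟨_, fun i => ((e i).2 : G × T).1, fun x hx => ?_⟩
      simp only [hφ]
      rw [Equiv.sum_comp e (fun p : Fin N × s => ∑ r : T, x ((p.2 : G × T).1, r)),
        Fintype.sum_prod_type]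
      simp only [Finset.sum_const, Finset.card_univ, Fintype.card_fin, nsmul_eq_mul]
      refine (hs x hx.1).trans (mul_le_mul_of_nonneg_left ?_ (by positivity))
      rw [← Finset.sum_coe_sort s]
      refine Finset.sum_le_sum fun p _ => ?_
      exact Finset.single_le_sum (f := fun r : T => x ((p : G × T).1, r))
        (fun r _ => hx.1 _) (Finset.mem_univ (p : G × T).2))
  apply hne
  have hconst : ∀ (g : G) (s : T), x (g, s) = x (1, s) := fun g s => by
    have := congrFun (hx g) (g, s)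
    rw [lt_apply, inv_mul_cancel] at this
    exact this.symm
  have h2 := hx2 1
  simp only [hconst (1 * _)] at h2
  have h3 : 0 ≤ ∑ s : T, x (1, s) := Finset.sum_nonneg fun s _ => hx1 _
  have h4 : ∑ s : T, x (1, s) = 0 := by nlinarith
  rw [Finset.sum_eq_zero_iff_of_nonneg fun s _ => hx1 _] at h4
  funext p
  obtain ⟨g, s⟩ := p
  rw [hconst g s, h4 s (Finset.mem_univ s)]
  rfl

/-- every finite set has subexponentially growing powers -/
def LocSub (G : Type u) [Group G] [DecidableEq G] : Prop :=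
  ∀ (T : Finset G) (b : ℝ), 1 < b → ∃ K : ℝ, ∀ n : ℕ, ((T ^ n).card : ℝ) ≤ K * b ^ n

theorem locSub_of_FPC [DecidableEq G] (h : FPC.{u, u} G) : LocSub G := by
  intro T b hb
  have hb0 : 0 < b := by linarith
  have ht : 0 < b⁻¹ := inv_pos.2 hb0
  have ht1 : b⁻¹ < 1 := inv_lt_one_of_one_lt₀ hb
  obtain ⟨K, hK⟩ := Z_bdd h (Finset.mem_insert_self 1 T) ht ht1
  refine ⟨K, fun n => ?_⟩
  have h1 := (card_le_Z (T := insert 1 T) ht ht1.le n).trans (hK n)
  have h2 : ((T ^ n).card : ℝ) ≤ ((insert 1 T) ^ n).card := by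
    exact_mod_cast Finset.card_le_card (Finset.pow_subset_pow_left (Finset.subset_insert 1 T))
  rw [inv_pow, ← div_eq_mul_inv, div_le_iff₀ (by positivity)] at h1
  linarith

end Pool.Agent.H597Z.ConeNot
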