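import Mathlib
import Pool.Agent.H597Z.ConeNot

set_option autoImplicit false

/-!
Locally subexponential groups have the fixed-point property for cones; products; growth rates.
-/

namespace Pool.Agent.H597Z.ConeYes

open Filter Topology Pointwise Pool.Agent.H597Z.ConeDefs Pool.Agent.H597Z.ConeNot

universe u v

theorem exists_slow (F : ℕ → ℝ) (h0 : 0 < F 0) (hb : ∀ b : ℝ, 1 < b → ∃ K : ℝ, ∀ n, F n ≤ K * b ^ n)
    {ε : ℝ} (hε : 0 < ε) : ∃ n, F (n + 4) ≤ (1 + ε) * F n := by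
  by_contra hcon
  push Not at hcon
  have h1 : ∀ j : ℕ, (1 + ε) ^ j * F 0 ≤ F (4 * j) := by
    intro j
    induction j with
    | zero => simp
    | succ j ih =>
      have := hcon (4 * j)
      have e : 4 * (j + 1) = 4 * j + 4 := by ring
      rw [e, pow_succ]
      have := mul_le_mul_of_nonneg_left ih (show 0 ≤ 1 + ε by linarith)
      nlinarith
  have hc : (1 : ℝ) < 1 + ε := by linarith
  set b : ℝ := (1 + ε) ^ ((1 : ℝ) / 8) with hbdef
  have hb1 : 1 < b := Real.one_lt_rpow hc (by norm_num)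
  have hb8 : b ^ 8 = 1 + ε := by
    rw [hbdef, ← Real.rpow_natCast, ← Real.rpow_mul (by linarith)]
    norm_num
  obtain ⟨K, hK⟩ := hb b hb1
  have hb4 : 1 < b ^ 4 := one_lt_pow₀ hb1 (by norm_num)
  obtain ⟨j, hj⟩ := pow_unbounded_of_one_lt (K / F 0) hb4
  have h2 := (h1 j).trans (hK (4 * j))
  rw [div_lt_iff₀ h0] at hj
  have e : (1 + ε) ^ j = (b ^ 4) ^ j * (b ^ 4) ^ j := by
    rw [← hb8, ← mul_pow, ← pow_add]
  rw [e, pow_mul] at h2
  have h3 : 0 < (b ^ 4) ^ j := by positivity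
  nlinarith

section

variable {G : Type u} [Group G] [DecidableEq G]

theorem sum_shift (f : G → ℝ) (k : G) (A : Finset G) :
    ∑ g ∈ A, f (k * g) = ∑ g ∈ A.image (fun g => k * g), f g := by
  rw [Finset.sum_image]
  intro a _ b _ hab
  exact mul_left_cancel hab

theorem mul_mem_pow {T : Finset G} {k g : G} {n : ℕ} (hk : k ∈ T) (hg : g ∈ T ^ n) :
    k * g ∈ T ^ (n + 1) := by
  rw [pow_succ']; exact Finset.mul_mem_mul hk hg

theorem approx (hG : LocSub G) (f : G → ℝ) (hf : ∀ g, 0 ≤ f g) (M : ℝ) (hM : ∀ g, f g ≤ M)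
    (h1 : 0 < f 1) (T : Finset G) (hT1 : (1 : G) ∈ T) (hTi : ∀ s ∈ T, s⁻¹ ∈ T) {ε : ℝ}
    (hε : 0 < ε) : ∃ B : Finset G, 0 < ∑ g ∈ B, f g ∧
      (∀ k ∈ T, ∑ g ∈ B, f (k * g) ≤ (1 + ε) * ∑ g ∈ B, f g) ∧
      ∀ k ∈ T, ∀ s ∈ T, ∑ g ∈ B.image (fun g => s * g) \ B, f (k * g) ≤ ε * ∑ g ∈ B, f g ∧
        ∑ g ∈ B \ B.image (fun g => s * g), f (k * g) ≤ ε * ∑ g ∈ B, f g := by
  let F : ℕ → ℝ := fun n => ∑ g ∈ T ^ n, f g
  have hF0 : 0 < F 0 := by
    simp only [F, pow_zero, ← Finset.singleton_one, Finset.sum_singleton]; exact h1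
  have hsub : ∀ {m n : ℕ}, m ≤ n → T ^ m ⊆ T ^ n := fun h => Finset.pow_subset_pow_right hT1 h
  have hmono : ∀ {m n : ℕ}, m ≤ n → F m ≤ F n := fun h =>
    Finset.sum_le_sum_of_subset_of_nonneg (hsub h) fun g _ _ => hf g
  have hM0 : 0 ≤ M := (hf 1).trans (hM 1)
  obtain ⟨n, hn⟩ := exists_slow F hF0 (by
    intro b hb
    obtain ⟨K, hK⟩ := hG T b hb
    refine ⟨M * K, fun n => ?_⟩
    have : F n ≤ ∑ _g ∈ T ^ n, M := Finset.sum_le_sum fun g _ => hM g
    rw [Finset.sum_const, nsmul_eq_mul] at this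
    have h2 := mul_le_mul_of_nonneg_left (hK n) hM0
    nlinarith) hε
  have hFn : 0 < F n := lt_of_lt_of_le hF0 (hmono (Nat.zero_le n))
  have hann : ∀ k ∈ T, ∀ A : Finset G, (∀ g ∈ A, g ∈ T ^ (n + 3) ∧ g ∉ T ^ (n + 1)) →
      ∑ g ∈ A, f (k * g) ≤ ε * F (n + 2) := by
    intro k hk A hA
    rw [sum_shift]
    have h2 : A.image (fun g => k * g) ⊆ T ^ (n + 4) \ T ^ n := by
      intro y hy
      obtain ⟨g, hg, rfl⟩ := Finset.mem_image.1 hy
      refine Finset.mem_sdiff.2 ⟨mul_mem_pow hk (hA g hg).1, fun hc => (hA g hg).2 ?_⟩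
      have := mul_mem_pow (hTi k hk) hc
      rwa [inv_mul_cancel_left] at this
    have h3 := Finset.sum_le_sum_of_subset_of_nonneg (f := f) h2 fun g _ _ => hf g
    have h4 := Finset.sum_sdiff (f := f) (hsub (show n ≤ n + 4 by omega))
    have h5 := mul_le_mul_of_nonneg_left (hmono (show n ≤ n + 2 by omega)) hε.le
    simp only [F] at hn h5 ⊢
    linarith
  refine ⟨T ^ (n + 2), lt_of_lt_of_le hF0 (hmono (Nat.zero_le _)), fun k hk => ?_,
    fun k hk s hs => ⟨hann k hk _ fun g hg => ?_, hann k hk _ fun g hg => ?_⟩⟩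
  · rw [sum_shift]
    have h2 : (T ^ (n + 2)).image (fun g => k * g) ⊆ T ^ (n + 4) := by
      intro y hy
      obtain ⟨g, hg, rfl⟩ := Finset.mem_image.1 hy
      exact hsub (by omega) (mul_mem_pow hk hg)
    have h3 := Finset.sum_le_sum_of_subset_of_nonneg (f := f) h2 fun g _ _ => hf g
    have h5 := mul_le_mul_of_nonneg_left (hmono (show n ≤ n + 2 by omega))
      (show 0 ≤ 1 + ε by linarith)
    simp only [F] at hn h5 ⊢
    linarith
  · obtain ⟨h2, h3⟩ := Finset.mem_sdiff.1 hg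
    obtain ⟨y, hy, rfl⟩ := Finset.mem_image.1 h2
    exact ⟨mul_mem_pow hs hy, fun hc => h3 (hsub (by omega) hc)⟩
  · obtain ⟨h2, h3⟩ := Finset.mem_sdiff.1 hg
    refine ⟨hsub (by omega) h2, fun hc => h3 ?_⟩
    exact Finset.mem_image.2 ⟨s⁻¹ * g, mul_mem_pow (hTi s hs) hc, by simp⟩

end

section

variable {G : Type u} [Group G] {E : Type v} [AddCommGroup E] [Module ℝ E] [TopologicalSpace E]

theorem rho_mul (ρ : G →* (E →L[ℝ] E)) (g h : G) (x : E) : ρ (g * h) x = ρ g (ρ h x) := by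
  rw [map_mul]; rfl

theorem rho_one (ρ : G →* (E →L[ℝ] E)) (x : E) : ρ 1 x = x := by
  rw [map_one]; rfl

end

theorem FPC_of_locSub {G : Type u} [Group G] [DecidableEq G] (hG : LocSub G) : FPC.{u, v} G := by
  classical
  intro E _ _ _ _ _ _ _ C ρ _ hcomp hpres ⟨x0, hx0C, hx0, hbd⟩ ⟨φ, hφ⟩
  have hsep : ∀ y : E, (∀ l : E →L[ℝ] ℝ, l y = 0) → y = 0 := by
    intro y hy
    by_contra hne
    obtain ⟨l, hl⟩ := SeparatingDual.exists_ne_zero (R := ℝ) hne
    exact hl (hy l)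
  -- a dominating functional that is non-negative on the cone
  obtain ⟨n0, g0, hg0⟩ := hφ φ
  let ψ : E →L[ℝ] ℝ := ∑ i, φ.comp (ρ (g0 i)⁻¹)
  have hψφ : ∀ y ∈ C, |φ y| ≤ ψ y := by
    intro y hy
    have := hg0 y hy
    simpa [ψ] using this
  have hψ0 : ∀ y ∈ C, 0 ≤ ψ y := fun y hy => (abs_nonneg _).trans (hψφ y hy)
  have hψ : ∀ l : E →L[ℝ] ℝ, ∃ (n : ℕ) (g : Fin n → G),
      ∀ y ∈ C, |l y| ≤ ∑ i, ψ (ρ (g i) y) := by
    intro l
    obtain ⟨n, g, hg⟩ := hφ l
    refine ⟨n, fun i => (g i)⁻¹, fun y hy => (hg y hy).trans (Finset.sum_le_sum fun i _ => ?_)⟩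
    exact (le_abs_self _).trans (hψφ _ (hpres _ y hy))
  obtain ⟨M, hM⟩ : ∃ M : ℝ, ∀ g : G, ψ (ρ g x0) ≤ M := by
    have := hbd.image ψ
    rw [NormedSpace.isVonNBounded_iff] at this
    obtain ⟨M, hM⟩ := this.bddAbove
    exact ⟨M, fun g => hM ⟨_, ⟨g, rfl⟩, rfl⟩⟩
  obtain ⟨k0, hk0⟩ : ∃ k : G, 0 < ψ (ρ k x0) := by
    by_contra hcon
    push Not at hcon
    apply hx0
    apply hsep
    intro l
    obtain ⟨n, g, hg⟩ := hψ l
    have h1 := hg x0 hx0C
    have h2 : ∑ i, ψ (ρ (g i) x0) ≤ 0 := Finset.sum_nonpos fun i _ => hcon _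
    exact abs_eq_zero.1 (le_antisymm (h1.trans h2) (abs_nonneg _))
  let x : E := ρ k0 x0
  have hxC : ∀ g, ρ g x ∈ C := fun g => hpres g _ (hpres k0 _ hx0C)
  let f : G → ℝ := fun g => ψ (ρ g x)
  have hf0 : ∀ g, 0 ≤ f g := fun g => hψ0 _ (hxC g)
  have hfM : ∀ g, f g ≤ M := fun g => by
    simp only [f, x, ← rho_mul]; exact hM _
  have hf1 : 0 < f 1 := by simpa [f, x] using hk0
  -- bound for a functional on sums of orbit points
  have hsum : ∀ (l : E →L[ℝ] ℝ) (n : ℕ) (g : Fin n → G),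
      (∀ y ∈ C, |l y| ≤ ∑ i, ψ (ρ (g i) y)) → ∀ (A : Finset G) (c : ℝ),
      (∀ i, ∑ h ∈ A, f (g i * h) ≤ c) → |l (∑ h ∈ A, ρ h x)| ≤ n * c := by
    intro l n g hg A c hc
    refine (hg _ (C.sum_mem fun h _ => hxC h)).trans ?_
    have : ∀ i, ψ (ρ (g i) (∑ h ∈ A, ρ h x)) = ∑ h ∈ A, f (g i * h) := by
      intro i
      simp only [map_sum, f, rho_mul]
    simp only [this]
    have := Finset.sum_le_sum (s := Finset.univ) fun i _ => hc i
    simpa using this
  let sy : Finset G → Finset G := fun S => insert 1 (S ∪ S⁻¹)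
  have hsy1 : ∀ S, (1 : G) ∈ sy S := fun S => Finset.mem_insert_self _ _
  have hsyi : ∀ S, ∀ s ∈ sy S, s⁻¹ ∈ sy S := by
    intro S s hs
    simp only [sy, Finset.mem_insert, Finset.mem_union, Finset.mem_inv', inv_inv, inv_eq_one] at *
    tauto
  have hsyS : ∀ S, ∀ s ∈ S, s ∈ sy S := by
    intro S s hs
    simp only [sy, Finset.mem_insert, Finset.mem_union]
    tauto
  have hstep : ∀ p : Finset G × ℕ, ∃ y : E, y ∈ C ∧ ψ y = 1 ∧
      ∀ (l : E →L[ℝ] ℝ) (n : ℕ) (g : Fin n → G), (∀ y ∈ C, |l y| ≤ ∑ i, ψ (ρ (g i) y)) →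
        (∀ i, g i ∈ p.1) → |l y| ≤ n * 2 ∧
          ∀ s ∈ p.1, |l (ρ s y) - l y| ≤ n * 2 * (1 / ((p.2 : ℝ) + 1)) := by
    rintro ⟨S, m⟩
    have hε : (0 : ℝ) < 1 / ((m : ℝ) + 1) := by positivity
    have hε1 : 1 / ((m : ℝ) + 1) ≤ 1 := by
      rw [div_le_one (by positivity)]; linarith [Nat.cast_nonneg (α := ℝ) m]
    set ε : ℝ := 1 / ((m : ℝ) + 1) with hεdef
    obtain ⟨B, hB0, hB1, hB2⟩ := approx hG f hf0 M hfM hf1 (sy S) (hsy1 S) (hsyi S) hε
    set FB := ∑ g ∈ B, f g with hFB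
    have hinv : 0 ≤ FB⁻¹ := (inv_pos.2 hB0).le
    refine ⟨FB⁻¹ • ∑ h ∈ B, ρ h x, ?_, ?_, fun l n g hg hgS => ⟨?_, fun s hs => ?_⟩⟩
    · exact C.smul_mem hinv (C.sum_mem fun h _ => hxC h)
    · rw [map_smul, map_sum, smul_eq_mul]
      exact inv_mul_cancel₀ hB0.ne'
    · have := hsum l n g hg B (2 * FB) fun i => (hB1 _ (hsyS S _ (hgS i))).trans
        (mul_le_mul_of_nonneg_right (by linarith) hB0.le)
      rw [map_smul, smul_eq_mul, abs_mul, abs_of_nonneg hinv, inv_mul_le_iff₀ hB0]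
      linarith
    · have h1 := hsum l n g hg _ _ fun i => (hB2 _ (hsyS S _ (hgS i)) s (hsyS S _ hs)).1
      have h2 := hsum l n g hg _ _ fun i => (hB2 _ (hsyS S _ (hgS i)) s (hsyS S _ hs)).2
      have e1 : ρ s (∑ h ∈ B, ρ h x) = ∑ h ∈ B.image (fun g => s * g), ρ h x := by
        rw [Finset.sum_image (fun a _ b _ hab => mul_left_cancel hab), map_sum]
        simp only [rho_mul]
      have e2 : l (ρ s (∑ h ∈ B, ρ h x)) - l (∑ h ∈ B, ρ h x) =
          l (∑ h ∈ B.image (fun g => s * g) \ B, ρ h x) -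
            l (∑ h ∈ B \ B.image (fun g => s * g), ρ h x) := by
        rw [e1, ← map_sub, ← map_sub, Finset.sum_sdiff_sub_sum_sdiff]
      simp only [map_smul, smul_eq_mul]
      rw [← mul_sub, e2, abs_mul, abs_of_nonneg hinv, inv_mul_le_iff₀ hB0]
      have := abs_sub (l (∑ h ∈ B.image (fun g => s * g) \ B, ρ h x))
        (l (∑ h ∈ B \ B.image (fun g => s * g), ρ h x))
      nlinarith
  choose y hyC hy1 hy using hstep
  let U : Ultrafilter (Finset G × ℕ) := Ultrafilter.of atTop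
  have hU : (U : Filter (Finset G × ℕ)) ≤ atTop := Ultrafilter.of_le _
  have hev : ∀ S : Finset G, ∀ᶠ p in (U : Filter (Finset G × ℕ)), S ⊆ p.1 := by
    intro S
    apply hU
    filter_upwards [Filter.eventually_ge_atTop ((S, 0) : Finset G × ℕ)] with p hp using hp.1
  have hlim : ∀ l : E →L[ℝ] ℝ, ∃ r : ℝ, Tendsto (fun p => l (y p)) U (𝓝 r) := by
    intro l
    obtain ⟨n, g, hg⟩ := hψ l
    have h1 : (U.map fun p => l (y p) : Filter ℝ) ≤ 𝓟 (Set.Icc (-((n : ℝ) * 2)) (n * 2)) := by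
      rw [Filter.le_principal_iff]
      change ∀ᶠ p in (U : Filter (Finset G × ℕ)), l (y p) ∈ Set.Icc (-((n : ℝ) * 2)) (n * 2)
      filter_upwards [hev (Finset.univ.image g)] with p hp
      exact abs_le.1 (hy p l n g hg fun i => hp (Finset.mem_image_of_mem g (Finset.mem_univ i))).1
    obtain ⟨r, _, hr⟩ := isCompact_Icc.ultrafilter_le_nhds (U.map fun p => l (y p)) h1
    exact ⟨r, hr⟩
  choose r hr using hlim
  have hr' : Tendsto (fun p => fun l : E →L[ℝ] ℝ => l (y p)) U (𝓝 r) := tendsto_pi_nhds.2 hr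
  obtain ⟨z, hzC, hz⟩ := hcomp.isClosed.mem_of_tendsto hr'
    (Filter.Eventually.of_forall fun p => ⟨y p, hyC p, rfl⟩)
  have hz' : ∀ l : E →L[ℝ] ℝ, Tendsto (fun p => l (y p)) U (𝓝 (l z)) := by
    intro l
    have := hr l
    rwa [← hz] at this
  refine ⟨z, hzC, ?_, fun s => ?_⟩
  · intro h0
    have h1 := hz' ψ
    simp only [hy1, h0, map_zero] at h1
    exact one_ne_zero (tendsto_nhds_unique tendsto_const_nhds h1)
  · rw [← sub_eq_zero]
    apply hsep
    intro l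
    obtain ⟨n, g, hg⟩ := hψ l
    have h1 : Tendsto (fun p => |l (ρ s (y p)) - l (y p)|) U (𝓝 |l (ρ s z) - l z|) :=
      ((hz' (l.comp (ρ s))).sub (hz' l)).abs
    have h2 : Tendsto (fun p : Finset G × ℕ => (n : ℝ) * 2 * (1 / ((p.2 : ℝ) + 1))) U
        (𝓝 ((n : ℝ) * 2 * 0)) := by
      apply Tendsto.const_mul
      have h3 : Tendsto (fun p : Finset G × ℕ => p.2) atTop atTop := by
        rw [← Filter.prod_atTop_atTop_eq]; exact tendsto_snd
      exact (tendsto_one_div_add_atTop_nhds_zero_nat.comp h3).mono_left hU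
    have h4 := le_of_tendsto_of_tendsto h1 h2 (by
      filter_upwards [hev (insert s (Finset.univ.image g))] with p hp
      exact (hy p l n g hg fun i => hp (Finset.mem_insert_of_mem
        (Finset.mem_image_of_mem g (Finset.mem_univ i)))).2 s (hp (Finset.mem_insert_self _ _)))
    rw [mul_zero] at h4
    rw [map_sub]
    exact abs_eq_zero.1 (le_antisymm h4 (abs_nonneg _))

theorem locSub_prod {G₁ : Type u} {G₂ : Type u} [Group G₁] [Group G₂] [DecidableEq G₁]
    [DecidableEq G₂] (h1 : LocSub G₁) (h2 : LocSub G₂) : LocSub (G₁ × G₂) := by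
  intro T b hb
  have hs : 1 < Real.sqrt b := by
    rw [Real.lt_sqrt (by norm_num)]; linarith
  obtain ⟨K1, hK1⟩ := h1 (T.image Prod.fst) _ hs
  obtain ⟨K2, hK2⟩ := h2 (T.image Prod.snd) _ hs
  refine ⟨K1 * K2, fun n => ?_⟩
  have hsub : T ^ n ⊆ ((T.image Prod.fst) ^ n) ×ˢ ((T.image Prod.snd) ^ n) := by
    induction n with
    | zero =>
      intro p hp
      rw [pow_zero, Finset.mem_one] at hp
      subst hp
      simp
    | succ n ih =>
      intro p hp
      rw [pow_succ, Finset.mem_mul] at hp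
      obtain ⟨a, ha, c, hc, rfl⟩ := hp
      have := Finset.mem_product.1 (ih ha)
      rw [Finset.mem_product, pow_succ, pow_succ]
      exact ⟨Finset.mul_mem_mul this.1 (Finset.mem_image_of_mem _ hc),
        Finset.mul_mem_mul this.2 (Finset.mem_image_of_mem _ hc)⟩
  have h3 : ((T ^ n).card : ℝ) ≤
      (((T.image Prod.fst) ^ n).card : ℝ) * ((T.image Prod.snd) ^ n).card := by
    have := Finset.card_le_card hsub
    rw [Finset.card_product] at this
    exact_mod_cast this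
  have h4 := mul_le_mul (hK1 n) (hK2 n) (by positivity) ((Nat.cast_nonneg _).trans (hK1 n))
  have e : K1 * Real.sqrt b ^ n * (K2 * Real.sqrt b ^ n) = K1 * K2 * b ^ n := by
    have : Real.sqrt b ^ n * Real.sqrt b ^ n = b ^ n := by
      rw [← mul_pow, Real.mul_self_sqrt (by linarith)]
    rw [← this]; ring
  linarith

theorem ball_eq {G : Type u} [Group G] [DecidableEq G] (S : Finset G) (n : ℕ) :
    ball S n = ((insert 1 (S ∪ S⁻¹)) ^ n : Finset G) := by
  set T : Finset G := insert 1 (S ∪ S⁻¹) with hT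
  have h1 : (1 : G) ∈ T := Finset.mem_insert_self _ _
  ext g
  constructor
  · rintro ⟨l, hl, hS, rfl⟩
    have : l.prod ∈ T ^ l.length := by
      clear hl
      induction l with
      | nil => simp
      | cons a l ih =>
        rw [List.prod_cons, List.length_cons]
        refine mul_mem_pow ?_ (ih fun x hx => hS x (List.mem_cons_of_mem _ hx))
        have := hS a List.mem_cons_self
        simp only [hT, Finset.mem_insert, Finset.mem_union, Finset.mem_inv']
        tauto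
    exact Finset.pow_subset_pow_right h1 hl this
  · intro hg
    have hg' : g ∈ T ^ n := hg
    clear hg
    induction n generalizing g with
    | zero =>
      rw [pow_zero, Finset.mem_one] at hg'
      exact ⟨[], le_rfl, by simp, by simp [hg']⟩
    | succ n ih =>
      rw [pow_succ', Finset.mem_mul] at hg'
      obtain ⟨a, ha, c, hc, rfl⟩ := hg'
      obtain ⟨l, hl, hS, rfl⟩ := ih c hc
      simp only [hT, Finset.mem_insert, Finset.mem_union, Finset.mem_inv'] at ha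
      rcases ha with rfl | ha
      · exact ⟨l, by omega, hS, by simp⟩
      · refine ⟨a :: l, by simpa using hl, fun x hx => ?_, by simp⟩
        rcases List.mem_cons.1 hx with rfl | hx
        · exact ha
        · exact hS x hx

theorem subexp_iff {G : Type u} [Group G] [DecidableEq G] (S : Finset G) : Subexp S ↔
    ∀ b : ℝ, 1 < b → ∃ K : ℝ, ∀ n : ℕ,
      (((insert 1 (S ∪ S⁻¹)) ^ n : Finset G).card : ℝ) ≤ K * b ^ n := by
  set T : Finset G := insert 1 (S ∪ S⁻¹) with hT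
  have h1 : (1 : G) ∈ T := Finset.mem_insert_self _ _
  have e : ∀ n, Nat.card (ball S n) = (T ^ n).card := by
    intro n; rw [ball_eq, Nat.card_coe_set_eq, Set.ncard_coe_finset]
  have hc : ∀ n, (1 : ℝ) ≤ ((T ^ n).card : ℝ) := by
    intro n
    exact_mod_cast Finset.card_pos.2 ⟨1, Finset.one_mem_pow h1⟩
  unfold Subexp
  simp only [e]
  constructor
  · intro h b hb
    obtain ⟨N, hN⟩ := Filter.eventually_atTop.1 (h.eventually (gt_mem_nhds hb))
    refine ⟨(T ^ (N + 1)).card, fun n => ?_⟩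
    have hbn : 1 ≤ b ^ n := one_le_pow₀ hb.le
    by_cases hn : n ≤ N + 1
    · have : ((T ^ n).card : ℝ) ≤ (T ^ (N + 1)).card := by
        exact_mod_cast Finset.card_le_card (Finset.pow_subset_pow_right h1 hn)
      nlinarith [hc (N + 1)]
    · have h2 := hN n (by omega)
      have hn0 : n ≠ 0 := by omega
      have h3 := pow_le_pow_left₀ (by positivity) h2.le n
      rw [one_div, Real.rpow_inv_natCast_pow (by positivity) hn0] at h3
      nlinarith [hc (N + 1)]
  · intro h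
    rw [tendsto_order]
    refine ⟨fun a ha => Filter.Eventually.of_forall fun n => lt_of_lt_of_le ha
      (Real.one_le_rpow (hc n) (by positivity)), fun a ha => ?_⟩
    obtain ⟨b, hb1, hba⟩ := exists_between ha
    obtain ⟨K, hK⟩ := h b hb1
    have hb0 : 0 < b := by linarith
    have hq : 1 < a / b := (one_lt_div hb0).2 hba
    have h2 := (tendsto_pow_atTop_atTop_of_one_lt hq).eventually (Filter.eventually_gt_atTop K)
    filter_upwards [h2, Filter.eventually_gt_atTop 0] with n hn hn0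
    rw [div_pow, lt_div_iff₀ (by positivity)] at hn
    have h3 : ((T ^ n).card : ℝ) < a ^ n := (hK n).trans_lt hn
    have h4 := Real.rpow_lt_rpow (by positivity) h3 (show 0 < (n : ℝ)⁻¹ by positivity)
    rwa [Real.pow_rpow_inv_natCast (by linarith) hn0.ne', ← one_div] at h4

theorem locSub_iff {G : Type u} [Group G] [DecidableEq G] :
    LocSub G ↔ ∀ S : Finset G, Subexp S := by
  constructor
  · intro h S
    rw [subexp_iff]
    exact h _
  · intro h T b hb
    obtain ⟨K, hK⟩ := (subexp_iff T).1 (h T) b hb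
    refine ⟨K, fun n => le_trans ?_ (hK n)⟩
    have : T ⊆ insert 1 (T ∪ T⁻¹) := Finset.subset_union_left.trans (Finset.subset_insert _ _)
    exact_mod_cast Finset.card_le_card (Finset.pow_subset_pow_left this)

theorem FPC_iff {G : Type u} [Group G] : FPC.{u, u} G ↔ ∀ S : Finset G, Subexp S := by
  classical
  exact ⟨fun h => locSub_iff.1 (locSub_of_FPC h), fun h => FPC_of_locSub (locSub_iff.2 h)⟩

theorem FPC_prod {G₁ G₂ : Type u} [Group G₁] [Group G₂] (h1 : FPC.{u, u} G₁)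
    (h2 : FPC.{u, u} G₂) : FPC.{u, u} (G₁ × G₂) := by
  classical
  exact FPC_of_locSub (locSub_prod (locSub_of_FPC h1) (locSub_of_FPC h2))

end Pool.Agent.H597Z.ConeYes
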