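import Mathlib

set_option autoImplicit false

namespace Pool.Agent.H597Z.Good

open Finset

/-- A finitely supported solution of a twisted linear recurrence of order `δ` in `P^N` vanishes
from index `card N * δ` on. -/
lemma seq_bound {P : Type*} [CommRing P] [IsDomain P] {G : Type*} [AddCommGroup G]
    (σ : G → P →+* P) (h0 : ∀ x, σ 0 x = x) (hadd : ∀ g h x, σ (g + h) x = σ g (σ h x)) (γ : G)
    {N : Type*} [Fintype N] [DecidableEq N] (Mi : ℕ → N → N → P) (δ : ℕ)
    (hM0 : ∀ p q, Mi 0 p q = if p = q then 1 else 0) (hMδ : ∀ i, δ < i → ∀ p q, Mi i p q = 0)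
    (s : ℕ → N → P) (b : ℕ) (hfin : ∀ k, b < k → s k = 0)
    (hrec : ∀ k, δ ≤ k → ∀ q', ∑ a ∈ range (k + 1), ∑ q, s a q * σ (a • γ) (Mi (k - a) q q') = 0) :
    ∀ k, Fintype.card N * δ ≤ k → s k = 0 := by
  classical
  let Z : Submodule P (ℕ → N → P) :=
    { carrier := {t | ∀ k, δ ≤ k → ∀ q',
        ∑ a ∈ range (k + 1), ∑ q, t a q * σ (a • γ) (Mi (k - a) q q') = 0}
      zero_mem' := by intro k _ q'; simp
      add_mem' := by
        intro t t' ht ht' k hk q'
        have := congrArg₂ (· + ·) (ht k hk q') (ht' k hk q')
        simpa [add_mul, sum_add_distrib] using this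
      smul_mem' := by
        intro c t ht k hk q'
        have := congrArg (c * ·) (ht k hk q')
        simpa [mul_sum, mul_assoc] using this }
  have hZ : ∀ t ∈ Z, (∀ i, i < δ → t i = 0) → t = 0 := by
    intro t ht hi
    funext k
    induction k using Nat.strong_induction_on with
    | _ k ih =>
      by_cases hk : k < δ
      · exact hi k hk
      · funext q'
        have h1 := ht k (not_lt.mp hk) q'
        rw [sum_range_succ, sum_eq_zero (fun a ha => by
          rw [ih a (mem_range.mp ha)]; simp)] at h1
        simpa [hM0, apply_ite] using h1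
  have hσ : ∀ g x, σ g x = 0 → x = 0 := by
    intro g x hx
    have := hadd (-g) g x
    rw [neg_add_cancel, h0, hx, map_zero] at this
    exact this
  let t : ℕ → ℕ → N → P := fun j a q => σ (-(j • γ)) (s (a + j) q)
  have ht : ∀ j, t j ∈ Z := by
    intro j k hk q'
    have h1 := hrec (k + j) (by omega) q'
    rw [show k + j + 1 = j + (k + 1) by omega, sum_range_add, sum_eq_zero (fun a ha => by
      have := mem_range.mp ha
      simp [hMδ (k + j - a) (by omega)]), zero_add] at h1
    have h2 := congrArg (σ (-(j • γ))) h1
    rw [map_zero, map_sum] at h2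
    rw [← h2]
    refine sum_congr rfl fun a _ => ?_
    rw [map_sum]
    refine sum_congr rfl fun q _ => ?_
    rw [map_mul, ← hadd, show k + j - (j + a) = k - a by omega, add_comm j a, add_smul]
    have : -(j • γ) + (a • γ + j • γ) = a • γ := by abel
    rw [this]
  by_contra hcon
  push Not at hcon
  obtain ⟨k1, hk1, hs1⟩ := hcon
  let k0 := Nat.findGreatest (fun k => s k ≠ 0) b
  have hk1b : k1 ≤ b := by
    by_contra h
    exact hs1 (hfin k1 (not_le.mp h))
  have hk0 : s k0 ≠ 0 := Nat.findGreatest_spec (P := fun k => s k ≠ 0) hk1b hs1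
  have hk10 : k1 ≤ k0 := Nat.le_findGreatest (P := fun k => s k ≠ 0) hk1b hs1
  have hgt : ∀ k, k0 < k → s k = 0 := by
    intro k hk
    by_cases hkb : k ≤ b
    · by_contra h
      exact Nat.findGreatest_is_greatest hk hkb h
    · exact hfin k (not_le.mp hkb)
  have hli : LinearIndependent P
      (fun (j : Fin (k0 + 1)) => (fun (i : Fin δ) => t j i : Fin δ → N → P)) := by
    rw [Fintype.linearIndependent_iff]
    intro c hc
    have hsum : ∑ j : Fin (k0 + 1), c j • t j = 0 := by
      refine hZ _ (Z.sum_mem fun (j : Fin (k0 + 1)) _ => Z.smul_mem _ (ht j)) ?_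
      intro i hi
      have := congrFun hc ⟨i, hi⟩
      simpa [Finset.sum_apply] using this
    have key : ∀ m, ∀ j : Fin (k0 + 1), j.val = m → c j = 0 := by
      intro m
      induction m using Nat.strong_induction_on with
      | _ m ih =>
        intro j hj
        obtain ⟨q, hq⟩ := Function.ne_iff.mp hk0
        have h1 := congrFun (congrFun hsum (k0 - j)) q
        simp only [Finset.sum_apply, Pi.smul_apply, smul_eq_mul, Pi.zero_apply] at h1
        rw [Finset.sum_eq_single j] at h1
        · have hj0 : k0 - j + j = k0 := by have := j.2; omega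
          rcases mul_eq_zero.mp h1 with h | h
          · exact h
          · exfalso
            apply hq
            simp only [t, hj0] at h
            exact hσ _ _ h
        · intro j' _ hne
          rcases lt_or_gt_of_ne hne with h | h
          · rw [ih j' (by rw [← hj]; exact h) j' rfl, zero_mul]
          · have : s (k0 - j + j') = 0 := hgt _ (by
              have := j.2
              have h' : j.val < j'.val := h
              omega)
            simp [t, this]
        · simp
    intro j
    exact key _ j rfl
  have := hli.fintype_card_le_finrank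
  simp [Module.finrank_pi_fintype] at this
  nlinarith

end Pool.Agent.H597Z.Good
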