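import Mathlib

set_option autoImplicit false

namespace Pool.Agent.H597Z.Good

/-- `Ipow K n m` is the span of all monomials `x_{i_1} ⋯ x_{i_k}` of degree `k ≥ m` in the free
associative algebra on `x_0, …, x_{n-1}`, that is, the `m`-th power of the ideal of elements
with zero constant term. -/
def Ipow (K : Type*) [Field K] (n m : ℕ) : Submodule K (FreeAlgebra K (Fin n)) :=
  Submodule.span K
    {a | ∃ w : List (Fin n), m ≤ w.length ∧ a = (w.map (FreeAlgebra.ι K)).prod}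

/-- `φ` is good: for every `m ≥ 1` one has `φ = ψ θ` (first `θ`, then `ψ`) with `θ` an
automorphism and `ψ` an endomorphism with `ψ x_i ≡ x_i` modulo `I^m`. -/
def IsGood {K : Type*} [Field K] {n : ℕ}
    (φ : FreeAlgebra K (Fin n) →ₐ[K] FreeAlgebra K (Fin n)) : Prop :=
  ∀ m : ℕ, 1 ≤ m →
    ∃ (ψ : FreeAlgebra K (Fin n) →ₐ[K] FreeAlgebra K (Fin n))
      (θ : FreeAlgebra K (Fin n) ≃ₐ[K] FreeAlgebra K (Fin n)),
      φ = ψ.comp θ.toAlgHom ∧ ∀ i, ψ (FreeAlgebra.ι K i) - FreeAlgebra.ι K i ∈ Ipow K n m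

/-- The same condition with the product of maps read in the other order (first `ψ`, then `θ`). -/
def IsGoodRev {K : Type*} [Field K] {n : ℕ}
    (φ : FreeAlgebra K (Fin n) →ₐ[K] FreeAlgebra K (Fin n)) : Prop :=
  ∀ m : ℕ, 1 ≤ m →
    ∃ (ψ : FreeAlgebra K (Fin n) →ₐ[K] FreeAlgebra K (Fin n))
      (θ : FreeAlgebra K (Fin n) ≃ₐ[K] FreeAlgebra K (Fin n)),
      φ = θ.toAlgHom.comp ψ ∧ ∀ i, ψ (FreeAlgebra.ι K i) - FreeAlgebra.ι K i ∈ Ipow K n m

end Pool.Agent.H597Z.Good
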