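import Mathlib
import Pool.Agent.H597Z.GoodDefs

set_option autoImplicit false

namespace Pool.Agent.H597Z.Good

open Module TensorProduct MulOpposite

variable {K : Type*} [Field K] {n : ℕ}

variable (K n) in
abbrev FA := FreeAlgebra K (Fin n)

variable (K n) in
abbrev FR := FA K n ⊗[K] (FA K n)ᵐᵒᵖ

variable (K) in
/-- the monomial of a word -/
def word (w : List (Fin n)) : FA K n := (w.map (FreeAlgebra.ι K)).prod

@[simp] lemma word_nil : word K ([] : List (Fin n)) = 1 := by simp [word]

@[simp] lemma word_cons (j : Fin n) (w : List (Fin n)) :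
    word K (j :: w) = FreeAlgebra.ι K j * word K w := by simp [word]

lemma word_append (u v : List (Fin n)) : word K (u ++ v) = word K u * word K v := by
  simp [word]

variable (K n) in
noncomputable def bA : Basis (List (Fin n)) K (FA K n) :=
  (FreeAlgebra.basisFreeMonoid K (Fin n)).reindex FreeMonoid.toList

lemma bA_apply (w : List (Fin n)) : bA K n w = word K w := by
  have h : ∀ w : List (Fin n), (FreeAlgebra.equivMonoidAlgebraFreeMonoid (R := K) (X := Fin n))
      (word K w) = MonoidAlgebra.single (FreeMonoid.ofList w) 1 := by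
    intro w
    induction w with
    | nil => simp [MonoidAlgebra.one_def]
    | cons j w ih =>
      rw [word_cons, map_mul, ih]
      have : (FreeAlgebra.equivMonoidAlgebraFreeMonoid (R := K) (X := Fin n))
          (FreeAlgebra.ι K j) = MonoidAlgebra.single (FreeMonoid.of j) 1 := by
        simp [FreeAlgebra.equivMonoidAlgebraFreeMonoid]
      rw [this, MonoidAlgebra.single_mul_single]
      simp
  simp only [bA, Basis.reindex_apply, FreeAlgebra.basisFreeMonoid, Basis.map_apply]
  rw [LinearEquiv.symm_apply_eq]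
  simp [h]

lemma Ipow_eq (m : ℕ) :
    Ipow K n m = Submodule.span K (bA K n '' {w | m ≤ w.length}) := by
  unfold Ipow
  congr 1
  ext a
  simp only [Set.mem_ofPred_eq, Set.mem_image, bA_apply, word]
  constructor
  · rintro ⟨w, h1, h2⟩; exact ⟨w, h1, h2.symm⟩
  · rintro ⟨w, h1, h2⟩; exact ⟨w, h1, h2.symm⟩

lemma word_mem_Ipow {m : ℕ} {w : List (Fin n)} (h : m ≤ w.length) : word K w ∈ Ipow K n m :=
  Submodule.subset_span ⟨w, h, rfl⟩

lemma Ipow_induction {m : ℕ} {p : FA K n → Prop} (hw : ∀ w : List (Fin n), m ≤ w.length → p (word K w))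
    (h0 : p 0) (hadd : ∀ a b, p a → p b → p (a + b)) (hs : ∀ (c : K) a, p a → p (c • a))
    {a : FA K n} (ha : a ∈ Ipow K n m) : p a := by
  induction ha using Submodule.span_induction with
  | mem x hx => obtain ⟨w, h1, rfl⟩ := hx; exact hw w h1
  | zero => exact h0
  | add x y _ _ hx hy => exact hadd _ _ hx hy
  | smul c x _ hx => exact hs _ _ hx

lemma mem_Ipow_zero (a : FA K n) : a ∈ Ipow K n 0 := by
  rw [Ipow_eq]
  simp [Basis.span_eq]

lemma Ipow_mono {m m' : ℕ} (h : m ≤ m') : Ipow K n m' ≤ Ipow K n m := by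
  rw [Ipow_eq, Ipow_eq]
  exact Submodule.span_mono (Set.image_mono fun w hw => le_trans h hw)

lemma Ipow_mul {m m' : ℕ} {a b : FA K n} (ha : a ∈ Ipow K n m) (hb : b ∈ Ipow K n m') :
    a * b ∈ Ipow K n (m + m') := by
  refine Ipow_induction (p := fun a => a * b ∈ Ipow K n (m + m')) ?_ ?_ ?_ ?_ ha
  · intro u hu
    refine Ipow_induction (p := fun b => word K u * b ∈ Ipow K n (m + m')) ?_ ?_ ?_ ?_ hb
    · intro v hv
      rw [← word_append]
      exact word_mem_Ipow (by simp; omega)
    · simp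
    · intro x y hx hy; rw [mul_add]; exact add_mem hx hy
    · intro c x hx; rw [mul_smul_comm]; exact Submodule.smul_mem _ _ hx
  · simp
  · intro x y hx hy; rw [add_mul]; exact add_mem hx hy
  · intro c x hx; rw [smul_mul_assoc]; exact Submodule.smul_mem _ _ hx

lemma Ipow_mul_left {m : ℕ} (a : FA K n) {b : FA K n} (hb : b ∈ Ipow K n m) :
    a * b ∈ Ipow K n m := by
  simpa using Ipow_mul (mem_Ipow_zero a) hb

lemma Ipow_mul_right {m : ℕ} {a : FA K n} (ha : a ∈ Ipow K n m) (b : FA K n) :
    a * b ∈ Ipow K n m := by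
  simpa using Ipow_mul ha (mem_Ipow_zero b)

lemma eq_zero_of_Ipow {a : FA K n} (h : ∀ m, a ∈ Ipow K n m) : a = 0 := by
  by_contra hne
  have : (bA K n).repr a ≠ 0 := by simpa using hne
  obtain ⟨w, hw⟩ := Finsupp.support_nonempty_iff.mpr this
  have h1 := h (w.length + 1)
  rw [Ipow_eq, Basis.mem_span_image] at h1
  have := h1 (Finset.mem_coe.mpr hw)
  simp at this

variable (K n) in
/-- the augmentation -/
noncomputable def eps : FA K n →ₐ[K] K := FreeAlgebra.lift K fun _ => 0

@[simp] lemma eps_ι (j : Fin n) : eps K n (FreeAlgebra.ι K j) = 0 := by simp [eps]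

lemma ι_mem_Ipow (j : Fin n) : FreeAlgebra.ι K j ∈ Ipow K n 1 := by
  have := word_mem_Ipow (K := K) (m := 1) (w := [j]) (by simp)
  simpa using this

lemma sub_eps_mem (a : FA K n) : a - algebraMap K _ (eps K n a) ∈ Ipow K n 1 := by
  refine Ipow_induction (p := fun a => a - algebraMap K _ (eps K n a) ∈ Ipow K n 1)
    ?_ ?_ ?_ ?_ (mem_Ipow_zero a)
  · intro w _
    cases w with
    | nil => simp
    | cons j w => simpa using Ipow_mul_right (ι_mem_Ipow j) _
  · simp
  · intro x y hx hy
    have := add_mem hx hy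
    simp only [map_add]
    convert this using 1
    abel
  · intro c x hx
    have := Submodule.smul_mem _ c hx
    convert this using 1
    simp [mul_sub, Algebra.smul_def]

lemma eps_eq_zero {a : FA K n} (h : a ∈ Ipow K n 1) : eps K n a = 0 := by
  refine Ipow_induction (p := fun a => eps K n a = 0) ?_ ?_ ?_ ?_ h
  · intro w hw
    cases w with
    | nil => simp at hw
    | cons j w => simp
  · simp
  · intro x y hx hy; simp [hx, hy]
  · intro c x hx; simp [hx]

lemma mem_Ipow_one_iff {a : FA K n} : a ∈ Ipow K n 1 ↔ eps K n a = 0 :=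
  ⟨eps_eq_zero, fun h => by simpa [h] using sub_eps_mem a⟩

lemma map_Ipow {θ : FA K n →ₐ[K] FA K n} (hθ : ∀ j, θ (FreeAlgebra.ι K j) ∈ Ipow K n 1) {m : ℕ}
    {a : FA K n} (ha : a ∈ Ipow K n m) : θ a ∈ Ipow K n m := by
  have hw : ∀ w : List (Fin n), θ (word K w) ∈ Ipow K n w.length := by
    intro w
    induction w with
    | nil => exact mem_Ipow_zero _
    | cons j w ih =>
      rw [word_cons, map_mul, List.length_cons, add_comm]
      exact Ipow_mul (hθ j) ih
  refine Ipow_induction (p := fun a => θ a ∈ Ipow K n m) ?_ ?_ ?_ ?_ ha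
  · intro w h; exact Ipow_mono h (hw w)
  · simp
  · intro x y hx hy; rw [map_add]; exact add_mem hx hy
  · intro c x hx; rw [map_smul]; exact Submodule.smul_mem _ _ hx

lemma congr_Ipow {φ θ : FA K n →ₐ[K] FA K n} {m : ℕ}
    (h : ∀ j, φ (FreeAlgebra.ι K j) - θ (FreeAlgebra.ι K j) ∈ Ipow K n m) (a : FA K n) :
    φ a - θ a ∈ Ipow K n m := by
  induction a using FreeAlgebra.induction with
  | grade0 c => simp
  | grade1 j => exact h j
  | mul a b ha hb =>
    have : φ (a * b) - θ (a * b) = (φ a - θ a) * φ b + θ a * (φ b - θ b) := by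
      simp only [map_mul]; noncomm_ring
    rw [this]
    exact add_mem (Ipow_mul_right ha _) (Ipow_mul_left _ hb)
  | add a b ha hb =>
    have : φ (a + b) - θ (a + b) = (φ a - θ a) + (φ b - θ b) := by
      simp only [map_add]; abel
    rw [this]
    exact add_mem ha hb

/-- the inverse of an automorphism which fixes the origin fixes the origin -/
lemma symm_mem_Ipow {θ : FA K n ≃ₐ[K] FA K n} (hθ : ∀ j, θ (FreeAlgebra.ι K j) ∈ Ipow K n 1)
    (j : Fin n) : θ.symm (FreeAlgebra.ι K j) ∈ Ipow K n 1 := by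
  have h : (eps K n).comp θ.toAlgHom = eps K n := by
    apply FreeAlgebra.hom_ext
    funext j
    simp [eps_eq_zero (hθ j)]
  rw [mem_Ipow_one_iff]
  have := DFunLike.congr_fun h (θ.symm (FreeAlgebra.ι K j))
  simpa using this.symm

/-! ### The enveloping algebra -/

variable (K n) in
noncomputable def bR : Basis (List (Fin n) × List (Fin n)) K (FR K n) :=
  (bA K n).tensorProduct ((bA K n).map (opLinearEquiv K))

lemma bR_apply (u v : List (Fin n)) : bR K n (u, v) = word K u ⊗ₜ op (word K v) := by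
  simp [bR, bA_apply]

lemma bR_mul (u v u' v' : List (Fin n)) :
    bR K n (u, v) * bR K n (u', v') = bR K n (u ++ u', v' ++ v) := by
  simp [bR_apply, word_append]

def len (x : List (Fin n) × List (Fin n)) : ℕ := x.1.length + x.2.length

variable (K n) in
noncomputable def Sp (s : Set ℕ) : Submodule K (FR K n) :=
  Submodule.span K (bR K n '' {x | len x ∈ s})

lemma mem_Sp {s : Set ℕ} {r : FR K n} :
    r ∈ Sp K n s ↔ ∀ x, (bR K n).repr r x ≠ 0 → len x ∈ s := by
  rw [Sp, Basis.mem_span_image]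
  constructor
  · intro h x hx; exact h (by simpa using hx)
  · intro h x hx; exact h x (by simpa using hx)

lemma Sp_induction {s : Set ℕ} {p : FR K n → Prop}
    (hw : ∀ u v : List (Fin n), u.length + v.length ∈ s → p (bR K n (u, v)))
    (h0 : p 0) (hadd : ∀ a b, p a → p b → p (a + b)) (hs : ∀ (c : K) a, p a → p (c • a))
    {a : FR K n} (ha : a ∈ Sp K n s) : p a := by
  induction ha using Submodule.span_induction with
  | mem x hx => obtain ⟨⟨u, v⟩, h1, rfl⟩ := hx; exact hw u v h1
  | zero => exact h0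
  | add x y _ _ hx hy => exact hadd _ _ hx hy
  | smul c x _ hx => exact hs _ _ hx

lemma bR_mem {s : Set ℕ} {u v : List (Fin n)} (h : u.length + v.length ∈ s) :
    bR K n (u, v) ∈ Sp K n s :=
  Submodule.subset_span ⟨(u, v), h, rfl⟩

lemma Sp_mul {s t r : Set ℕ} (h : ∀ i ∈ s, ∀ j ∈ t, i + j ∈ r) {a b : FR K n}
    (ha : a ∈ Sp K n s) (hb : b ∈ Sp K n t) : a * b ∈ Sp K n r := by
  refine Sp_induction (p := fun a => a * b ∈ Sp K n r) ?_ ?_ ?_ ?_ ha
  · intro u v hu
    refine Sp_induction (p := fun b => bR K n (u, v) * b ∈ Sp K n r) ?_ ?_ ?_ ?_ hb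
    · intro u' v' hv
      rw [bR_mul]
      apply bR_mem
      have := h _ hu _ hv
      simp only [List.length_append]
      convert this using 1
      omega
    · simp
    · intro x y hx hy; rw [mul_add]; exact add_mem hx hy
    · intro c x hx; rw [mul_smul_comm]; exact Submodule.smul_mem _ _ hx
  · simp
  · intro x y hx hy; rw [add_mul]; exact add_mem hx hy
  · intro c x hx; rw [smul_mul_assoc]; exact Submodule.smul_mem _ _ hx

lemma Sp_mono {s t : Set ℕ} (h : s ⊆ t) : Sp K n s ≤ Sp K n t :=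
  fun _ hr => mem_Sp.mpr fun x hx => h (mem_Sp.mp hr x hx)

variable (K n) in
/-- elements all of whose terms have degree at least `m` -/
noncomputable abbrev Fr (m : ℕ) : Submodule K (FR K n) := Sp K n (Set.Ici m)

variable (K n) in
/-- elements all of whose terms have degree at most `m` -/
noncomputable abbrev Gr (m : ℕ) : Submodule K (FR K n) := Sp K n (Set.Iic m)

lemma mem_Fr_zero (r : FR K n) : r ∈ Fr K n 0 := mem_Sp.mpr fun _ _ => Nat.zero_le _

lemma Fr_mul {m m' : ℕ} {a b : FR K n} (ha : a ∈ Fr K n m) (hb : b ∈ Fr K n m') :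
    a * b ∈ Fr K n (m + m') :=
  Sp_mul (s := Set.Ici m) (t := Set.Ici m') (r := Set.Ici (m + m'))
    (fun i hi j hj => by simp only [Set.mem_Ici] at *; omega) ha hb

lemma Gr_mul {m m' : ℕ} {a b : FR K n} (ha : a ∈ Gr K n m) (hb : b ∈ Gr K n m') :
    a * b ∈ Gr K n (m + m') :=
  Sp_mul (s := Set.Iic m) (t := Set.Iic m') (r := Set.Iic (m + m'))
    (fun i hi j hj => by simp only [Set.mem_Iic] at *; omega) ha hb

lemma Fr_mul_left {m : ℕ} (a : FR K n) {b : FR K n} (hb : b ∈ Fr K n m) : a * b ∈ Fr K n m := by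
  simpa using Fr_mul (mem_Fr_zero a) hb

lemma Fr_mul_right {m : ℕ} {a : FR K n} (ha : a ∈ Fr K n m) (b : FR K n) :
    a * b ∈ Fr K n m := by
  simpa using Fr_mul ha (mem_Fr_zero b)

lemma Fr_mono {m m' : ℕ} (h : m ≤ m') : Fr K n m' ≤ Fr K n m :=
  Sp_mono fun _ hi => le_trans h hi

lemma Gr_mono {m m' : ℕ} (h : m ≤ m') : Gr K n m ≤ Gr K n m' :=
  Sp_mono fun _ hi => le_trans hi h

lemma eq_zero_of_Fr_Gr {e : ℕ} {r : FR K n} (h1 : r ∈ Fr K n (e + 1)) (h2 : r ∈ Gr K n e) :
    r = 0 := by
  have h : (bR K n).repr r = 0 := by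
    ext x
    by_contra hx'
    have a1 : e + 1 ≤ len x := mem_Sp.mp h1 x hx'
    have a2 : len x ≤ e := mem_Sp.mp h2 x hx'
    omega
  exact (LinearEquiv.map_eq_zero_iff _).mp h

lemma exists_Gr (r : FR K n) : ∃ e, r ∈ Gr K n e :=
  ⟨((bR K n).repr r).support.sup len, mem_Sp.mpr fun x hx =>
    Finset.le_sup (f := len) (by simpa using hx)⟩

lemma one_mem_Gr : (1 : FR K n) ∈ Gr K n 0 := by
  have := bR_mem (K := K) (n := n) (s := Set.Iic 0) (u := []) (v := []) (by simp)
  rw [bR_apply] at this
  simpa [Algebra.TensorProduct.one_def] using this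

lemma algebraMap_mem_Gr (c : K) : algebraMap K (FR K n) c ∈ Gr K n 0 := by
  rw [Algebra.algebraMap_eq_smul_one]
  exact Submodule.smul_mem _ _ one_mem_Gr

/-- split an element into its low and its high part -/
lemma exists_split (r : FR K n) (B e : ℕ)
    (h : ∀ x, B < len x → len x < e → (bR K n).repr r x = 0) :
    ∃ r' ∈ Gr K n B, r - r' ∈ Fr K n e := by
  classical
  refine ⟨(bR K n).repr.symm (((bR K n).repr r).filter fun x => len x ≤ B), ?_, ?_⟩
  · refine mem_Sp.mpr fun x hx => ?_
    simp only [LinearEquiv.apply_symm_apply, Finsupp.filter_apply] at hx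
    by_contra h1
    exact hx (if_neg h1)
  · refine mem_Sp.mpr fun x hx => ?_
    simp only [map_sub, LinearEquiv.apply_symm_apply, Finsupp.coe_sub, Pi.sub_apply,
      Finsupp.filter_apply] at hx
    by_contra h1
    by_cases h2 : len x ≤ B
    · simp [h2] at hx
    · simp only [h2, if_false, sub_zero] at hx
      exact hx (h x (not_le.mp h2) (by simpa using h1))

variable (K n) in
noncomputable def lam : FA K n →ₐ[K] FR K n := Algebra.TensorProduct.includeLeft

variable (K n) in
noncomputable def rho : FA K n →ₗ[K] FR K n :=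
  (TensorProduct.mk K (FA K n) (FA K n)ᵐᵒᵖ 1) ∘ₗ (opLinearEquiv K).toLinearMap

lemma lam_apply (a : FA K n) : lam K n a = a ⊗ₜ 1 := rfl

lemma rho_apply (a : FA K n) : rho K n a = 1 ⊗ₜ op a := rfl

lemma rho_mul (a b : FA K n) : rho K n (a * b) = rho K n b * rho K n a := by
  simp [rho_apply]

@[simp] lemma rho_one : rho K n 1 = 1 := by
  simp [rho_apply, Algebra.TensorProduct.one_def]

lemma lam_mul_rho (a b : FA K n) : lam K n a * rho K n b = a ⊗ₜ op b := by
  simp [rho_apply, lam_apply]

lemma rho_mul_lam (a b : FA K n) : rho K n b * lam K n a = lam K n a * rho K n b := by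
  simp [rho_apply, lam_apply]

lemma lam_mem_Fr {m : ℕ} {a : FA K n} (ha : a ∈ Ipow K n m) : lam K n a ∈ Fr K n m := by
  refine Ipow_induction (p := fun a => lam K n a ∈ Fr K n m) ?_ ?_ ?_ ?_ ha
  · intro w hw
    have := bR_mem (K := K) (s := Set.Ici m) (u := w) (v := []) (by simpa using hw)
    rw [bR_apply] at this
    simpa [lam_apply] using this
  · simp
  · intro x y hx hy; rw [map_add]; exact add_mem hx hy
  · intro c x hx; rw [map_smul]; exact Submodule.smul_mem _ _ hx

lemma rho_mem_Fr {m : ℕ} {a : FA K n} (ha : a ∈ Ipow K n m) : rho K n a ∈ Fr K n m := by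
  refine Ipow_induction (p := fun a => rho K n a ∈ Fr K n m) ?_ ?_ ?_ ?_ ha
  · intro w hw
    have := bR_mem (K := K) (s := Set.Ici m) (u := []) (v := w) (by simpa using hw)
    rw [bR_apply] at this
    simpa [rho_apply] using this
  · simp
  · intro x y hx hy; rw [map_add]; exact add_mem hx hy
  · intro c x hx; rw [map_smul]; exact Submodule.smul_mem _ _ hx

end Pool.Agent.H597Z.Good
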