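import Mathlib
import Pool.Agent.H597Z.GoodFilt

set_option autoImplicit false

namespace Pool.Agent.H597Z.Good

open Module TensorProduct MulOpposite Polynomial

variable {K : Type*} [Field K] {n : ℕ} {d : ℕ}

abbrev GG (d : ℕ) := ZMod d × ZMod (d + 1)

abbrev Var (n d : ℕ) := (Fin n × ZMod d) ⊕ (Fin n × ZMod (d + 1))

variable (K n d) in
abbrev PP := MvPolynomial (Var n d) K

def sh (g : GG d) : Var n d → Var n d :=
  Sum.map (fun x => (x.1, x.2 + g.1)) (fun x => (x.1, x.2 - g.2))

variable (K n) in
noncomputable def sg (g : GG d) : PP K n d →ₐ[K] PP K n d := MvPolynomial.rename (sh g)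

lemma sg_zero (x : PP K n d) : sg K n 0 x = x := by
  have : sh (n := n) (0 : GG d) = id := by
    funext v; cases v <;> simp [sh]
  simp [sg, this]

lemma sg_add (g h : GG d) (x : PP K n d) : sg K n (g + h) x = sg K n g (sg K n h x) := by
  have : sh (n := n) (g + h) = sh g ∘ sh h := by
    funext v
    cases v with
    | inl v => simp [sh]; ring
    | inr v => simp [sh]; ring
  simp [sg, this, MvPolynomial.rename_rename]

def gam (d : ℕ) : GG d := (1, 1)

lemma gam_X (a : ℕ) : ((d + 1) * a) • gam d = ((a : ZMod d), 0) := by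
  ext
  · simp [gam]
  · simp [gam]

lemma gam_Y (a : ℕ) : (d * a) • gam d = (0, -(a : ZMod (d + 1))) := by
  ext
  · simp [gam]
  · have : ((d : ZMod (d + 1)) + 1) = 0 := by exact_mod_cast ZMod.natCast_self (d + 1)
    have h2 : (d : ZMod (d + 1)) = -1 := eq_neg_of_add_eq_zero_left this
    simp [gam, h2]

variable [NeZero d]

variable (K n d) in
abbrev SS := Matrix (GG d) (GG d) (PP K n d)[X]

noncomputable def EE (c : PP K n d) (k : ℕ) : SS K n d :=
  Matrix.of fun i j => if j = i + k • gam d then monomial k (sg K n i c) else 0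

lemma EE_mul (c c' : PP K n d) (k k' : ℕ) :
    EE c k * EE c' k' = EE (c * sg K n (k • gam d) c') (k + k') := by
  ext1 i l
  rw [Matrix.mul_apply, Finset.sum_eq_single (i + k • gam d)]
  · simp only [EE, Matrix.of_apply, if_true, add_smul, add_assoc]
    split_ifs
    · rw [monomial_mul_monomial, map_mul (sg K n i), sg_add]
    · simp
  · intro j _ hj; simp only [EE, Matrix.of_apply, if_neg hj, zero_mul]
  · simp

omit [NeZero d] in
lemma EE_one : EE (1 : PP K n d) 0 = 1 := by
  ext1 i j
  simp [EE, Matrix.one_apply, eq_comm]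

variable (K d) in
noncomputable def XX (j : Fin n) : SS K n d := EE (MvPolynomial.X (Sum.inl (j, 0))) (d + 1)

variable (K d) in
noncomputable def YY (j : Fin n) : SS K n d := EE (MvPolynomial.X (Sum.inr (j, 0))) d

lemma XX_YY (i j : Fin n) : Commute (XX K d i) (YY K d j) := by
  have h1 := gam_X (d := d) 1
  have h2 := gam_Y (d := d) 1
  rw [mul_one] at h1 h2
  unfold Commute SemiconjBy XX YY
  rw [EE_mul, EE_mul, h1, h2, add_comm (d + 1) d, mul_comm]
  simp [sg, sh]

variable (K n d) in
noncomputable def liftX : FA K n →ₐ[K] SS K n d := FreeAlgebra.lift K (XX K d)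

variable (K n d) in
noncomputable def liftY : (FA K n)ᵐᵒᵖ →ₐ[K] SS K n d :=
  AlgHom.opComm (FreeAlgebra.lift K fun j => op (YY K d j))

lemma liftY_ι (j : Fin n) : liftY K n d (op (FreeAlgebra.ι K j)) = YY K d j := by
  simp [liftY, AlgHom.opComm]

lemma lift_comm (a : FA K n) (b : (FA K n)ᵐᵒᵖ) : Commute (liftX K n d a) (liftY K n d b) := by
  induction b using MulOpposite.rec' with
  | _ b =>
  induction a using FreeAlgebra.induction with
  | grade0 c => rw [AlgHom.commutes]; exact Algebra.commutes _ _
  | grade1 i =>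
    induction b using FreeAlgebra.induction with
    | grade0 c =>
      rw [← MulOpposite.algebraMap_apply, AlgHom.commutes]; exact (Algebra.commutes _ _).symm
    | grade1 j => rw [liftY_ι]; simpa [liftX] using XX_YY i j
    | mul x y hx hy => rw [op_mul, map_mul]; exact hy.mul_right hx
    | add x y hx hy => rw [op_add, map_add]; exact hx.add_right hy
  | mul x y hx hy => rw [map_mul]; exact hx.mul_left hy
  | add x y hx hy => rw [map_add]; exact hx.add_left hy

variable (K n d) in
noncomputable def rep : FR K n →ₐ[K] SS K n d :=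
  Algebra.TensorProduct.lift (liftX K n d) (liftY K n d) lift_comm

variable (K) in
noncomputable def mW {D : ℕ} (f : Fin n × ZMod D → Var n d) : ZMod D → List (Fin n) → PP K n d
  | _, [] => 1
  | a, j :: u => MvPolynomial.X (f (j, a)) * mW f (a + 1) u

omit [NeZero d] in
lemma sg_mX (g : GG d) (a : ZMod d) (u : List (Fin n)) :
    sg K n g (mW K Sum.inl a u) = mW K Sum.inl (a + g.1) u := by
  induction u generalizing a with
  | nil => simp [mW]
  | cons j u ih =>
    rw [mW, mW, map_mul, ih, add_right_comm]
    simp [sg, sh]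

omit [NeZero d] in
lemma sg_mY (g : GG d) (a : ZMod (d + 1)) (u : List (Fin n)) :
    sg K n g (mW K Sum.inr a u) = mW K Sum.inr (a - g.2) u := by
  induction u generalizing a with
  | nil => simp [mW]
  | cons j u ih =>
    rw [mW, mW, map_mul, ih, add_sub_right_comm]
    simp [sg, sh]

lemma liftX_word (u : List (Fin n)) :
    liftX K n d (word K u) = EE (mW K Sum.inl 0 u) ((d + 1) * u.length) := by
  induction u with
  | nil => simp [mW, EE_one]
  | cons j u ih =>
    have h1 := gam_X (d := d) 1
    rw [mul_one] at h1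
    rw [word_cons, map_mul, ih]
    simp only [liftX, FreeAlgebra.lift_ι_apply, XX]
    rw [EE_mul, h1, sg_mX, mW]
    congr 1
    · simp
    · simp; ring

lemma prod_YY (u : List (Fin n)) :
    (u.map (YY K d)).prod = EE (mW K Sum.inr 0 u) (d * u.length) := by
  induction u with
  | nil => simp [mW, EE_one]
  | cons j u ih =>
    have h1 := gam_Y (d := d) 1
    rw [mul_one] at h1
    rw [List.map_cons, List.prod_cons, ih, YY, EE_mul, h1, sg_mY, mW]
    congr 1
    · simp
    · simp; ring

lemma liftY_word (v : List (Fin n)) :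
    liftY K n d (op (word K v)) = EE (mW K Sum.inr 0 v.reverse) (d * v.length) := by
  rw [← List.length_reverse, ← prod_YY]
  induction v with
  | nil => simp
  | cons j v ih => rw [word_cons, op_mul, map_mul, ih, liftY_ι]; simp

def wt (d : ℕ) (u v : List (Fin n)) : ℕ := (d + 1) * u.length + d * v.length

lemma rep_bR (u v : List (Fin n)) :
    rep K n d (bR K n (u, v)) =
      EE (mW K Sum.inl 0 u * mW K Sum.inr 0 v.reverse) (wt d u v) := by
  rw [bR_apply, rep, Algebra.TensorProduct.lift_tmul, liftX_word, liftY_word, EE_mul, gam_X, sg_mY]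
  simp [wt]

variable (d) in
/-- the `k`-th coefficient in the twisted polynomial ring -/
noncomputable def cf (k : ℕ) (r : FR K n) : PP K n d := (rep K n d r 0 (k • gam d)).coeff k

lemma cf_add (k : ℕ) (r r' : FR K n) : cf d k (r + r') = cf d k r + cf d k r' := by
  simp [cf]

lemma cf_smul (k : ℕ) (c : K) (r : FR K n) : cf d k (c • r) = c • cf d k r := by
  simp [cf]

lemma cf_bR (k : ℕ) (u v : List (Fin n)) : cf d k (bR K n (u, v)) =
    if wt d u v = k then mW K Sum.inl 0 u * mW K Sum.inr 0 v.reverse else 0 := by
  rw [cf, rep_bR]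
  by_cases h : wt d u v = k
  · subst h
    simp [EE, sg_zero]
  · simp only [EE, Matrix.of_apply, h, if_false]
    split_ifs
    · simp [coeff_monomial, h]
    · simp

lemma coeff_rep (r : FR K n) (i j : GG d) (k : ℕ) :
    (rep K n d r i j).coeff k = if j = i + k • gam d then sg K n i (cf d k r) else 0 := by
  refine Sp_induction (p := fun r => (rep K n d r i j).coeff k =
    if j = i + k • gam d then sg K n i (cf d k r) else 0) ?_ ?_ ?_ ?_ (mem_Fr_zero r)
  · intro u v _
    rw [cf_bR, rep_bR]
    by_cases h : wt d u v = k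
    · subst h
      simp only [EE, Matrix.of_apply, if_true]
      split_ifs <;> simp
    · simp only [EE, Matrix.of_apply, h, if_false]
      split_ifs <;> simp [coeff_monomial, h]
  · simp [cf]
  · intro x y hx hy
    simp only [map_add, Matrix.add_apply, coeff_add, hx, hy, cf_add]
    split_ifs <;> simp
  · intro c x hx
    simp only [map_smul, Matrix.smul_apply, coeff_smul, hx, cf_smul]
    split_ifs <;> simp

lemma cf_eq_zero {s : Set ℕ} {r : FR K n} (hr : r ∈ Sp K n s) {k : ℕ}
    (h : ∀ l ∈ s, k < d * l ∨ (d + 1) * l < k) : cf d k r = 0 := by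
  refine Sp_induction (p := fun r => cf d k r = 0) ?_ ?_ ?_ ?_ hr
  · intro u v huv
    rw [cf_bR, if_neg]
    have := h _ huv
    unfold wt
    rcases this with h | h <;> nlinarith
  · simp [cf]
  · intro x y hx hy; rw [cf_add, hx, hy, add_zero]
  · intro c x hx; rw [cf_smul, hx, smul_zero]

lemma rep_dvd {m : ℕ} {r : FR K n} (hr : r ∈ Fr K n m) (i j : GG d) :
    X ^ (d * m) ∣ rep K n d r i j := by
  rw [X_pow_dvd_iff]
  intro k hk
  rw [coeff_rep, cf_eq_zero hr fun l hl => Or.inl (lt_of_lt_of_le hk (Nat.mul_le_mul_left _ hl))]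
  simp

lemma rep_natDegree {m : ℕ} {r : FR K n} (hr : r ∈ Gr K n m) (i j : GG d) :
    (rep K n d r i j).natDegree ≤ (d + 1) * m := by
  rw [natDegree_le_iff_coeff_eq_zero]
  intro k hk
  rw [coeff_rep, cf_eq_zero hr fun l hl => Or.inr (lt_of_le_of_lt (Nat.mul_le_mul_left _ hl) hk)]
  simp

omit [NeZero d] in
lemma ev_mW {D : ℕ} (f : Fin n × ZMod D → Var n d) (ev : PP K n d →ₐ[K] K) (u0 : List (Fin n))
    (hu : u0.length < D)
    (hev : ∀ j a, ev (MvPolynomial.X (f (j, a))) = if u0[a.val]? = some j then 1 else 0)
    (u : List (Fin n)) (a : ℕ) (ha : a ≤ u0.length) :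
    ev (mW K f (a : ZMod D) u) = if u <+: u0.drop a then 1 else 0 := by
  induction u generalizing a with
  | nil => simp [mW]
  | cons j u ih =>
    rw [mW, map_mul, hev, ZMod.val_cast_of_lt (by omega)]
    by_cases h : u0[a]? = some j
    · obtain ⟨h1, h2⟩ := List.getElem?_eq_some_iff.mp h
      have := ih (a + 1) h1
      rw [Nat.cast_succ] at this
      rw [this, List.drop_eq_getElem_cons h1, h2]
      simp [h]
    · rw [if_neg h, zero_mul, if_neg]
      intro hp
      apply h
      obtain ⟨t, ht⟩ := hp
      have := congrArg (fun l => l[0]?) ht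
      simpa using this.symm

lemma repr_eq_zero {r : FR K n} {u0 v0 : List (Fin n)} (hu : u0.length < d)
    (hv : v0.length < d + 1) (h : cf d (wt d u0 v0) r = 0) : (bR K n).repr r (u0, v0) = 0 := by
  classical
  let ev : PP K n d →ₐ[K] K := MvPolynomial.aeval
    (Sum.elim (fun x => if u0[x.2.val]? = some x.1 then 1 else 0)
      (fun x => if v0.reverse[x.2.val]? = some x.1 then 1 else 0))
  have h1 := fun u => ev_mW Sum.inl ev u0 hu (fun j a => by simp [ev]) u 0 (Nat.zero_le _)
  have h2 := fun u => ev_mW Sum.inr ev v0.reverse (by simpa using hv)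
    (fun j a => by simp only [ev, MvPolynomial.aeval_X, Sum.elim_inr]) u 0 (Nat.zero_le _)
  simp only [Nat.cast_zero, List.drop_zero] at h1 h2
  have key : ev (cf d (wt d u0 v0) r) = (bR K n).repr r (u0, v0) := by
    refine Sp_induction (p := fun r => ev (cf d (wt d u0 v0) r) = (bR K n).repr r (u0, v0))
      ?_ ?_ ?_ ?_ (mem_Fr_zero r)
    · intro u v _
      rw [cf_bR, Basis.repr_self, Finsupp.single_apply]
      by_cases huv : (u, v) = (u0, v0)
      · obtain ⟨rfl, rfl⟩ := Prod.mk.inj huv
        simp [h1, h2]
      · rw [if_neg huv]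
        split_ifs with hw
        · rw [map_mul, h1, h2]
          by_cases p1 : u <+: u0
          · by_cases p2 : v.reverse <+: v0.reverse
            · exfalso
              apply huv
              have l1 := p1.length_le
              have l2 := p2.length_le
              simp only [List.length_reverse] at l2
              unfold wt at hw
              have hd : 0 < d := Nat.pos_of_ne_zero (NeZero.ne d)
              have e1 : u.length = u0.length := by nlinarith
              have e2 : v.length = v0.length := by nlinarith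
              rw [p1.eq_of_length e1,
                List.reverse_injective (p2.eq_of_length (by simpa using e2))]
            · simp [p2]
          · simp [p1]
        · simp
    · simp [cf]
    · intro x y hx hy; rw [cf_add, map_add, hx, hy]; simp
    · intro c x hx; rw [cf_smul, map_smul, hx]; simp
  rw [← key, h, map_zero]

end Pool.Agent.H597Z.Good
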