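import Mathlib
import Pool.Agent.H597Z.GoodRep
import Pool.Agent.H597Z.GoodBound

set_option autoImplicit false

namespace Pool.Agent.H597Z.Good

open Module TensorProduct MulOpposite Polynomial

variable {K : Type*} [Field K] {n : ℕ}

lemma dvd_det_sub {S : Type*} [CommRing S] {I : Type*} [Fintype I] [DecidableEq I]
    (x : S) (A B : Matrix I I S) (h : ∀ i j, x ∣ A i j - B i j) : x ∣ A.det - B.det := by
  rw [← Ideal.mem_span_singleton, ← Ideal.Quotient.eq, RingHom.map_det, RingHom.map_det]
  congr 1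
  ext i j
  simp only [RingHom.mapMatrix_apply, Matrix.map_apply]
  rw [Ideal.Quotient.eq, Ideal.mem_span_singleton]
  exact h i j

lemma natDegree_det_le' {S : Type*} [CommRing S] {I : Type*} [Fintype I] [DecidableEq I]
    (A : Matrix I I S[X]) (D : ℕ) (h : ∀ i j, (A i j).natDegree ≤ D) :
    A.det.natDegree ≤ Fintype.card I * D := by
  rw [Matrix.det_apply]
  apply natDegree_sum_le_of_forall_le
  intro σ _
  refine (natDegree_smul_le _ _).trans ?_
  refine (natDegree_prod_le _ _).trans ?_
  refine (Finset.sum_le_sum fun i _ => h (σ i) i).trans ?_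
  simp

variable {N : Type*} [Fintype N] [DecidableEq N]

def MF (m : ℕ) (M : Matrix N N (FR K n)) : Prop := ∀ p q, M p q ∈ Fr K n m

def MG (m : ℕ) (M : Matrix N N (FR K n)) : Prop := ∀ p q, M p q ∈ Gr K n m

omit [DecidableEq N] in
lemma MF.mul {m m' : ℕ} {A B : Matrix N N (FR K n)} (hA : MF m A) (hB : MF m' B) :
    MF (m + m') (A * B) := fun p q => by
  rw [Matrix.mul_apply]
  exact Submodule.sum_mem _ fun j _ => Fr_mul (hA p j) (hB j q)

omit [DecidableEq N] in
lemma MG.mul {m m' : ℕ} {A B : Matrix N N (FR K n)} (hA : MG m A) (hB : MG m' B) :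
    MG (m + m') (A * B) := fun p q => by
  rw [Matrix.mul_apply]
  exact Submodule.sum_mem _ fun j _ => Gr_mul (hA p j) (hB j q)

omit [Fintype N] [DecidableEq N] in
lemma MF_zero (A : Matrix N N (FR K n)) : MF 0 A := fun _ _ => mem_Fr_zero _

omit [Fintype N] [DecidableEq N] in
lemma MF.sub {m : ℕ} {A B : Matrix N N (FR K n)} (hA : MF m A) (hB : MF m B) :
    MF m (A - B) := fun p q => sub_mem (hA p q) (hB p q)

omit [Fintype N] [DecidableEq N] in
lemma MG.sub {m : ℕ} {A B : Matrix N N (FR K n)} (hA : MG m A) (hB : MG m B) :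
    MG m (A - B) := fun p q => sub_mem (hA p q) (hB p q)

omit [Fintype N] in
lemma MG_one (m : ℕ) : MG m (1 : Matrix N N (FR K n)) := fun p q => by
  rw [Matrix.one_apply]
  split_ifs
  · exact Gr_mono (Nat.zero_le _) one_mem_Gr
  · exact zero_mem _

lemma MF.pow {A : Matrix N N (FR K n)} (hA : MF 1 A) (e : ℕ) : MF e (A ^ e) := by
  induction e with
  | zero => exact MF_zero _
  | succ e ih => rw [pow_succ]; exact ih.mul hA

omit [Fintype N] [DecidableEq N] in
lemma eq_zero_of_MF_MG {e : ℕ} {A : Matrix N N (FR K n)} (h1 : MF (e + 1) A) (h2 : MG e A) :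
    A = 0 := by
  ext1 p q
  exact eq_zero_of_Fr_Gr (h1 p q) (h2 p q)

omit [DecidableEq N] in
lemma exists_MG (A : Matrix N N (FR K n)) : ∃ e, MG e A := by
  choose f hf using fun x : N × N => exists_Gr (A x.1 x.2)
  exact ⟨Finset.univ.sup f, fun p q =>
    Gr_mono (Finset.le_sup (f := f) (Finset.mem_univ (p, q))) (hf (p, q))⟩

variable (K n N) in
noncomputable def repM (d : ℕ) [NeZero d] :
    Matrix N N (FR K n) →+* Matrix (N × GG d) (N × GG d) (PP K n d)[X] :=
  (Matrix.compRingEquiv N (GG d) (PP K n d)[X]).toRingHom.comp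
    (rep K n d : FR K n →+* SS K n d).mapMatrix

lemma repM_apply (d : ℕ) [NeZero d] (M : Matrix N N (FR K n)) (x y : N × GG d) :
    repM K n N d M x y = rep K n d (M x.1 y.1) x.2 y.2 := rfl

lemma isUnit_det_repM (d : ℕ) [NeZero d] (δ : ℕ) {M M1 M2 M3 : Matrix N N (FR K n)}
    (hG : MG δ M) (hF : MF (Fintype.card (N × GG d) * ((d + 1) * δ) + 1) (M - M1))
    (h : M2 * M1 * M3 = 1) : IsUnit (repM K n N d M).det := by
  have h1 : IsUnit (repM K n N d M1).det := by
    have := congrArg (fun A => (repM K n N d A).det) h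
    simp only [map_mul, Matrix.det_mul, map_one, Matrix.det_one] at this
    exact IsUnit.of_mul_eq_one ((repM K n N d M2).det * (repM K n N d M3).det)
      (by rw [← this]; ring)
  obtain ⟨c, hc, hc'⟩ := Polynomial.isUnit_iff.mp h1
  set D := Fintype.card (N × GG d) * ((d + 1) * δ) with hD
  have h2 : X ^ (d * (D + 1)) ∣ (repM K n N d M).det - (repM K n N d M1).det := by
    apply dvd_det_sub
    intro x y
    have := rep_dvd (d := d) (hF x.1 y.1) x.2 y.2
    simpa [repM_apply] using this
  have h3 : (repM K n N d M).det.natDegree ≤ D :=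
    natDegree_det_le' _ _ fun x y => rep_natDegree (hG x.1 y.1) _ _
  have h4 : (repM K n N d M).det - (repM K n N d M1).det = 0 := by
    apply eq_zero_of_dvd_of_natDegree_lt h2
    rw [← hc', natDegree_sub_C, natDegree_X_pow]
    have hd : 0 < d := Nat.pos_of_ne_zero (NeZero.ne d)
    nlinarith
  rw [sub_eq_zero.mp h4]
  exact h1

lemma inv_coeff_zero (d : ℕ) [NeZero d] (δ : ℕ) {M : Matrix N N (FR K n)}
    (hG : MG δ M) (h1 : MF 1 (1 - M)) (B : Matrix (N × GG d) (N × GG d) (PP K n d)[X])
    (hB : B * repM K n N d M = 1) (p q : N) (k : ℕ)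
    (hk : Fintype.card N * ((d + 1) * δ + 1) ≤ k) :
    (B (p, 0) (q, k • gam d)).coeff k = 0 := by
  have hd : 0 < d := Nat.pos_of_ne_zero (NeZero.ne d)
  have := seq_bound (fun g => (sg K n g : PP K n d →+* PP K n d)) (fun x => sg_zero x)
    (fun g h x => sg_add g h x) (gam d) (fun i p q => cf d i (M p q)) ((d + 1) * δ + 1) ?_ ?_
    (fun k q => (B (p, 0) (q, k • gam d)).coeff k)
    (Finset.univ.sup fun y => (B (p, 0) y).natDegree) ?_ ?_ k hk
  · exact congrFun this q
  · intro p q
    have h2 : cf d 0 ((1 - M) p q) = 0 := cf_eq_zero (h1 p q) fun l hl => Or.inl (by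
      have : 1 ≤ l := hl
      positivity)
    have h3 : M p q = (1 : Matrix N N (FR K n)) p q + (-1 : K) • (1 - M) p q := by
      rw [neg_one_smul K ((1 - M) p q), Matrix.sub_apply]; abel
    rw [h3, cf_add, cf_smul, h2, smul_zero, add_zero, Matrix.one_apply]
    split_ifs <;> simp [cf]
  · intro i hi p q
    exact cf_eq_zero (hG p q) fun l hl => Or.inr (by
      have : l ≤ δ := hl
      nlinarith)
  · intro k hk
    funext q
    exact coeff_eq_zero_of_natDegree_lt (lt_of_le_of_lt
      (Finset.le_sup (f := fun y => (B (p, 0) y).natDegree) (Finset.mem_univ _)) hk)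
  · intro k hk q'
    have h2 := congrArg (fun A => (A (p, 0) (q', k • gam d)).coeff k) hB
    have h3 : ((1 : Matrix (N × GG d) (N × GG d) (PP K n d)[X]) (p, 0)
        (q', k • gam d)).coeff k = 0 := by
      rw [Matrix.one_apply]
      split_ifs
      · rw [coeff_one, if_neg (by omega)]
      · simp
    simp only [Matrix.mul_apply, finsetSum_coeff, coeff_mul, h3,
      Finset.Nat.sum_antidiagonal_eq_sum_range_succ_mk] at h2
    rw [Finset.sum_comm] at h2
    rw [← h2]
    refine Finset.sum_congr rfl fun a ha => ?_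
    have ha' : a ≤ k := by have := Finset.mem_range.mp ha; omega
    rw [Fintype.sum_prod_type]
    refine Finset.sum_congr rfl fun q _ => ?_
    have e1 : k • gam d = a • gam d + (k - a) • gam d := by
      rw [← add_smul, Nat.add_sub_cancel' ha']
    rw [Finset.sum_eq_single (a • gam d)]
    · rw [repM_apply, coeff_rep, if_pos e1]
      rfl
    · intro j _ hj
      rw [repM_apply, coeff_rep, if_neg, mul_zero]
      intro h
      apply hj
      rw [e1] at h
      exact (add_right_cancel h).symm
    · simp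

variable (K n N) in
theorem lim_core (δ : ℕ) : ∃ m, ∀ M M1 M2 M3 : Matrix N N (FR K n), MG δ M → MF 1 (1 - M) →
    MF m (M - M1) → M2 * M1 * M3 = 1 → ∃ W, M * W = 1 ∧ W * M = 1 := by
  let B0 := Fintype.card N * (2 * δ + 1)
  let d := B0 + δ + 1
  refine ⟨Fintype.card (N × GG d) * ((d + 1) * δ) + 1, fun M M1 M2 M3 hG h1 hF h => ?_⟩
  have hu := isUnit_det_repM d δ hG hF h
  let B := (repM K n N d M)⁻¹
  have hB : B * repM K n N d M = 1 := Matrix.nonsing_inv_mul _ hu
  let W := ∑ i ∈ Finset.range d, (1 - M) ^ i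
  have hW1 : M * W = 1 - (1 - M) ^ d := by
    have := mul_neg_geom_sum (1 - M) d
    rwa [sub_sub_cancel] at this
  have hW2 : W * M = 1 - (1 - M) ^ d := by
    have := geom_sum_mul_neg (1 - M) d
    rwa [sub_sub_cancel] at this
  have hp : MF d ((1 - M) ^ d) := h1.pow d
  have hWB : repM K n N d W = B - B * repM K n N d ((1 - M) ^ d) := by
    have := congrArg (fun A => B * repM K n N d A) hW1
    simp only [map_mul, ← mul_assoc, hB, one_mul] at this
    rw [this, map_sub, map_one, mul_sub, mul_one]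
  have hsplit : ∀ p q, ∃ r' ∈ Gr K n B0, W p q - r' ∈ Fr K n d := by
    intro p q
    apply exists_split
    rintro ⟨u, v⟩ hl1 hl2
    simp only [len] at hl1 hl2
    apply repr_eq_zero (d := d) (by omega) (by omega)
    have e1 : cf d (wt d u v) (W p q) =
        (repM K n N d W (p, 0) (q, wt d u v • gam d)).coeff (wt d u v) := rfl
    have hk1 : Fintype.card N * ((d + 1) * δ + 1) ≤ wt d u v := by
      have a1 : (d + 1) * δ + 1 ≤ d * (2 * δ + 1) := by
        have : 1 ≤ d := by omega
        nlinarith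
      have a2 : Fintype.card N * ((d + 1) * δ + 1) ≤ d * B0 :=
        (Nat.mul_le_mul_left _ a1).trans (le_of_eq (by simp only [B0]; ring))
      have a3 : d * B0 ≤ d * (u.length + v.length) := Nat.mul_le_mul_left _ hl1.le
      unfold wt
      nlinarith
    have hk2 : wt d u v < d * d := by
      have a3 : d * (u.length + v.length + 1) ≤ d * d := Nat.mul_le_mul_left _ hl2
      have a4 : u.length < d := by omega
      unfold wt
      nlinarith
    rw [e1, hWB, Matrix.sub_apply, coeff_sub, inv_coeff_zero d δ hG h1 B hB p q _ hk1, zero_sub,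
      neg_eq_zero]
    refine X_pow_dvd_iff.mp ?_ _ hk2
    rw [Matrix.mul_apply]
    exact Finset.dvd_sum fun y _ => Dvd.dvd.mul_left (rep_dvd (hp y.1 q) _ _) _
  choose W' hW'1 hW'2 using hsplit
  have hG' : MG B0 (Matrix.of W') := hW'1
  have hF' : MF d (W - Matrix.of W') := hW'2
  refine ⟨Matrix.of W', ?_, ?_⟩
  · rw [← sub_eq_zero, ← neg_eq_zero]
    apply eq_zero_of_MF_MG (e := B0 + δ)
    · have : -(M * Matrix.of W' - 1) = M * (W - Matrix.of W') - -(1 - M) ^ d := by
        rw [mul_sub, hW1]; abel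
      rw [this]
      refine MF.sub ?_ fun p q => neg_mem (hp p q)
      simpa using (MF_zero M).mul hF'
    · rw [neg_sub, add_comm]
      exact (MG_one _).sub (hG.mul hG')
  · rw [← sub_eq_zero, ← neg_eq_zero]
    apply eq_zero_of_MF_MG (e := B0 + δ)
    · have : -(Matrix.of W' * M - 1) = (W - Matrix.of W') * M - -(1 - M) ^ d := by
        rw [sub_mul, hW2]; abel
      rw [this]
      refine MF.sub ?_ fun p q => neg_mem (hp p q)
      simpa using hF'.mul (MF_zero M)
    · rw [neg_sub]
      exact (MG_one _).sub (hG'.mul hG)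

end Pool.Agent.H597Z.Good
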