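import Mathlib
import Pool.Agent.H597Z.GoodLim

set_option autoImplicit false

namespace Pool.Agent.H597Z.Good

open Module TensorProduct MulOpposite

variable {K : Type*} [Field K] {n : ℕ}

/-- two characters of the free algebra give a character of the enveloping algebra -/
noncomputable def chr (e e' : FA K n →ₐ[K] K) : FR K n →ₐ[K] K :=
  Algebra.TensorProduct.lift e (AlgHom.fromOpposite e' fun _ _ => Commute.all _ _)
    fun _ _ => Commute.all _ _

lemma chr_tmul (e e' : FA K n →ₐ[K] K) (a b : FA K n) : chr e e' (a ⊗ₜ op b) = e a * e' b := by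
  simp [chr]

variable (K n) in
noncomputable def epsR : FR K n →ₐ[K] K := chr (eps K n) (eps K n)

lemma epsR_bR (u v : List (Fin n)) (h : 1 ≤ u.length + v.length) :
    epsR K n (bR K n (u, v)) = 0 := by
  rw [bR_apply, epsR, chr_tmul]
  cases u with
  | cons j u => simp
  | nil =>
    cases v with
    | cons j v => simp
    | nil => simp at h

lemma epsR_eq_zero {r : FR K n} (h : r ∈ Fr K n 1) : epsR K n r = 0 := by
  refine Sp_induction (p := fun r => epsR K n r = 0) ?_ ?_ ?_ ?_ h
  · intro u v huv; exact epsR_bR u v huv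
  · simp
  · intro x y hx hy; rw [map_add, hx, hy, add_zero]
  · intro c x hx; rw [map_smul, hx, smul_zero]

lemma sub_epsR_mem (r : FR K n) : algebraMap K _ (epsR K n r) - r ∈ Fr K n 1 := by
  refine Sp_induction (p := fun r => algebraMap K _ (epsR K n r) - r ∈ Fr K n 1)
    ?_ ?_ ?_ ?_ (mem_Fr_zero r)
  · intro u v _
    by_cases h : 1 ≤ u.length + v.length
    · rw [epsR_bR u v h, map_zero, zero_sub]
      exact neg_mem (bR_mem h)
    · have hu : u = [] := List.length_eq_zero_iff.mp (by omega)
      have hv : v = [] := List.length_eq_zero_iff.mp (by omega)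
      subst hu hv
      have : bR K n ([], []) = 1 := by simp [bR_apply, Algebra.TensorProduct.one_def]
      rw [this, map_one, map_one, sub_self]
      exact zero_mem _
  · simp
  · intro x y hx hy
    have := add_mem hx hy
    rw [map_add, map_add]
    convert this using 1
    abel
  · intro c x hx
    have := Submodule.smul_mem _ c hx
    rw [smul_sub] at this
    rw [map_smul, smul_eq_mul, map_mul, ← Algebra.smul_def]
    convert this using 2

variable (K n) in
theorem lim (N : Type*) [Fintype N] [DecidableEq N] (δ : ℕ) :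
    ∃ m, ∀ M M1 M2 M3 : Matrix N N (FR K n), MG δ M →
      MF m (M - M1) → M2 * M1 * M3 = 1 → ∃ W, M * W = 1 ∧ W * M = 1 := by
  obtain ⟨m, hm⟩ := lim_core K n N δ
  refine ⟨m + 1, fun M M1 M2 M3 hG hF h => ?_⟩
  let E : Matrix N N (FR K n) →+* Matrix N N K := (epsR K n : FR K n →+* K).mapMatrix
  let J : Matrix N N K →+* Matrix N N (FR K n) := (algebraMap K (FR K n)).mapMatrix
  have hE : E M = E M1 := by
    rw [← sub_eq_zero, ← map_sub]
    ext p q
    exact epsR_eq_zero (Fr_mono (by omega) (hF p q))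
  have hu : IsUnit (E M).det := by
    have := congrArg (fun A => (E A).det) h
    simp only [map_mul, Matrix.det_mul, map_one, Matrix.det_one] at this
    rw [hE]
    exact IsUnit.of_mul_eq_one ((E M2).det * (E M3).det) (by rw [← this]; ring)
  have c1 : J (E M) * J (E M)⁻¹ = 1 := by rw [← map_mul, Matrix.mul_nonsing_inv _ hu, map_one]
  have c2 : J (E M)⁻¹ * J (E M) = 1 := by rw [← map_mul, Matrix.nonsing_inv_mul _ hu, map_one]
  have g0 : MG 0 (J (E M)⁻¹) := fun p q => algebraMap_mem_Gr _
  obtain ⟨W, w1, w2⟩ := hm (M * J (E M)⁻¹) (M1 * J (E M)⁻¹) M2 (J (E M) * M3)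
    (by simpa using hG.mul g0)
    (by
      have : MF 1 (J (E M) - M) := fun p q => sub_epsR_mem (M p q)
      rw [← c1, ← sub_mul]
      simpa using this.mul (MF_zero _))
    (by
      have : MF m (M - M1) := fun p q => Fr_mono (by omega) (hF p q)
      rw [← sub_mul]
      simpa using this.mul (MF_zero _))
    (by
      rw [← h]
      simp only [mul_assoc]
      rw [← mul_assoc (J (E M)⁻¹), c2, one_mul])
  refine ⟨J (E M)⁻¹ * W, by rw [← mul_assoc, w1], ?_⟩
  calc J (E M)⁻¹ * W * M = J (E M)⁻¹ * (W * (M * J (E M)⁻¹)) * J (E M) := by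
        simp only [mul_assoc]; rw [c2, mul_one]
    _ = 1 := by rw [w2, mul_one, c2]

/-! ### Derivations -/

def IsDer (D : FA K n →ₗ[K] FR K n) : Prop :=
  ∀ a b, D (a * b) = lam K n a * D b + rho K n b * D a

lemma der_unique (E : FA K n →ₗ[K] FR K n) (α β : FA K n → FR K n) (hα : α 1 = 1) (hβ : β 1 = 1)
    (h : ∀ a b, E (a * b) = α a * E b + β b * E a) (h0 : ∀ j, E (FreeAlgebra.ι K j) = 0)
    (a : FA K n) : E a = 0 := by
  have h1 : E 1 = 0 := by
    have := h 1 1
    rw [hα, hβ, one_mul, one_mul] at this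
    simpa using this
  induction a using FreeAlgebra.induction with
  | grade0 c => rw [Algebra.algebraMap_eq_smul_one, map_smul, h1, smul_zero]
  | grade1 j => exact h0 j
  | mul a b ha hb => rw [h, ha, hb]; simp
  | add a b ha hb => rw [map_add, ha, hb, add_zero]

lemma IsDer.one {D : FA K n →ₗ[K] FR K n} (h : IsDer D) : D 1 = 0 := by
  have := h 1 1
  simpa using this

variable (K) in
noncomputable def dW (k : Fin n) : List (Fin n) → FR K n
  | [] => 0
  | j :: u => lam K n (FreeAlgebra.ι K j) * dW k u + if j = k then rho K n (word K u) else 0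

variable (K) in
noncomputable def del (k : Fin n) : FA K n →ₗ[K] FR K n := (bA K n).constr K (dW K k)

lemma del_word (k : Fin n) (u : List (Fin n)) : del K k (word K u) = dW K k u := by
  rw [← bA_apply, del, Basis.constr_basis]

lemma del_ι (k j : Fin n) : del K k (FreeAlgebra.ι K j) = if j = k then 1 else 0 := by
  have := del_word (K := K) k [j]
  simpa [dW] using this

lemma dW_append (k : Fin n) (u v : List (Fin n)) :
    dW K k (u ++ v) = lam K n (word K u) * dW K k v + rho K n (word K v) * dW K k u := by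
  induction u with
  | nil => simp [dW]
  | cons j u ih =>
    rw [List.cons_append, dW, dW, ih, word_cons, map_mul, word_append, rho_mul, mul_add, mul_add,
      ← mul_assoc (rho K n (word K v)), rho_mul_lam]
    simp only [mul_assoc, mul_ite, mul_zero, add_assoc]

lemma del_isDer (k : Fin n) : IsDer (del K k) := by
  intro a b
  refine Ipow_induction
    (p := fun a => del K k (a * b) = lam K n a * del K k b + rho K n b * del K k a)
    ?_ ?_ ?_ ?_ (mem_Ipow_zero a)
  · intro u _
    refine Ipow_induction (p := fun b => del K k (word K u * b) =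
      lam K n (word K u) * del K k b + rho K n b * del K k (word K u))
      ?_ ?_ ?_ ?_ (mem_Ipow_zero b)
    · intro v _
      rw [← word_append, del_word, del_word, del_word, dW_append]
    · simp
    · intro x y hx hy
      simp only [mul_add, map_add, hx, hy, add_mul]; abel
    · intro c x hx
      simp only [mul_smul_comm, map_smul, hx, smul_mul_assoc, smul_add]
  · simp
  · intro x y hx hy
    simp only [mul_add, map_add, hx, hy, add_mul]; abel
  · intro c x hx
    simp only [mul_smul_comm, map_smul, hx, smul_mul_assoc, smul_add]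

lemma dW_mem (k : Fin n) (u : List (Fin n)) : dW K k u ∈ Fr K n (u.length - 1) := by
  induction u with
  | nil => exact zero_mem _
  | cons j u ih =>
    rw [dW]
    refine add_mem ?_ ?_
    · cases u with
      | nil => simp [dW]
      | cons i u =>
        have := Fr_mul (lam_mem_Fr (ι_mem_Ipow (K := K) j)) ih
        exact Fr_mono (by simp) this
    · split_ifs
      · exact rho_mem_Fr (word_mem_Ipow (by simp))
      · exact zero_mem _

lemma del_mem (k : Fin n) {m : ℕ} {a : FA K n} (ha : a ∈ Ipow K n (m + 1)) :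
    del K k a ∈ Fr K n m := by
  refine Ipow_induction (p := fun a => del K k a ∈ Fr K n m) ?_ ?_ ?_ ?_ ha
  · intro w hw
    rw [del_word]
    exact Fr_mono (by omega) (dW_mem k w)
  · simp
  · intro x y hx hy; rw [map_add]; exact add_mem hx hy
  · intro c x hx; rw [map_smul]; exact Submodule.smul_mem _ _ hx

noncomputable def til (θ : FA K n →ₐ[K] FA K n) : FR K n →ₐ[K] FR K n :=
  Algebra.TensorProduct.map θ (AlgHom.op θ)

lemma til_tmul (θ : FA K n →ₐ[K] FA K n) (a b : FA K n) :
    til θ (a ⊗ₜ op b) = θ a ⊗ₜ op (θ b) := by simp [til]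

lemma til_lam (θ : FA K n →ₐ[K] FA K n) (a : FA K n) : til θ (lam K n a) = lam K n (θ a) := by
  simp [til, lam_apply]

lemma til_rho (θ : FA K n →ₐ[K] FA K n) (a : FA K n) : til θ (rho K n a) = rho K n (θ a) := by
  simp [til, rho_apply]

lemma FR_induction {p : FR K n → Prop} (h0 : p 0) (ht : ∀ a b : FA K n, p (a ⊗ₜ op b))
    (hadd : ∀ x y, p x → p y → p (x + y)) (r : FR K n) : p r := by
  induction r using TensorProduct.induction_on with
  | zero => exact h0
  | tmul a b => exact ht a (unop b)
  | add x y hx hy => exact hadd x y hx hy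

lemma til_til {θ θ' : FA K n →ₐ[K] FA K n} (h : ∀ a, θ' (θ a) = a) (r : FR K n) :
    til θ' (til θ r) = r := by
  induction r using FR_induction with
  | h0 => simp
  | ht a b => rw [til_tmul, til_tmul, h, h]
  | hadd x y hx hy => rw [map_add, map_add, hx, hy]

lemma chain {D : FA K n →ₗ[K] FR K n} (hD : IsDer D) (θ : FA K n →ₐ[K] FA K n) (a : FA K n) :
    D (θ a) = ∑ l, til θ (del K l a) * D (θ (FreeAlgebra.ι K l)) := by
  let E : FA K n →ₗ[K] FR K n := D ∘ₗ θ.toLinearMap -
    ∑ l, (LinearMap.mulRight K (D (θ (FreeAlgebra.ι K l)))) ∘ₗ (til θ).toLinearMap ∘ₗ del K l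
  have hE : ∀ a, E a = D (θ a) - ∑ l, til θ (del K l a) * D (θ (FreeAlgebra.ι K l)) := by
    intro a; simp [E]
  rw [← sub_eq_zero, ← hE]
  apply der_unique E (fun a => lam K n (θ a)) (fun a => rho K n (θ a)) (by simp) (by simp)
  · intro a b
    simp only [hE, map_mul, hD _ _, del_isDer _ _ _, map_add, til_lam, til_rho, add_mul,
      Finset.sum_add_distrib, mul_sub, Finset.mul_sum, mul_assoc]
    abel
  · intro j
    simp [hE, del_ι, apply_ite]

lemma IsDer.expand {D : FA K n →ₗ[K] FR K n} (hD : IsDer D) (a : FA K n) :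
    D a = ∑ l, del K l a * D (FreeAlgebra.ι K l) := by
  have h : ∀ r, til (AlgHom.id K (FA K n)) r = r := by
    intro r
    induction r using FR_induction with
    | h0 => simp
    | ht a b => rw [til_tmul]; rfl
    | hadd x y hx hy => rw [map_add, hx, hy]
  have := chain hD (AlgHom.id K _) a
  simpa [h] using this

noncomputable def Jac (φ : FA K n →ₐ[K] FA K n) : Matrix (Fin n) (Fin n) (FR K n) :=
  Matrix.of fun i k => del K k (φ (FreeAlgebra.ι K i))

noncomputable def tilM (θ : FA K n →ₐ[K] FA K n) :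
    Matrix (Fin n) (Fin n) (FR K n) →+* Matrix (Fin n) (Fin n) (FR K n) :=
  (til θ : FR K n →+* FR K n).mapMatrix

lemma Jac_comp (θ θ' : FA K n →ₐ[K] FA K n) : Jac (θ.comp θ') = tilM θ (Jac θ') * Jac θ := by
  ext1 i k
  rw [Matrix.mul_apply]
  exact chain (del_isDer k) θ _

lemma Jac_id : Jac (AlgHom.id K (FA K n)) = 1 := by
  ext1 i k
  simp [Jac, del_ι, Matrix.one_apply]

def IsTransl (τ : FA K n →ₐ[K] FA K n) : Prop :=
  ∀ i, ∃ c : K, τ (FreeAlgebra.ι K i) = FreeAlgebra.ι K i + algebraMap K _ c

lemma IsTransl.jac {τ : FA K n →ₐ[K] FA K n} (h : IsTransl τ) : Jac τ = 1 := by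
  ext1 i k
  obtain ⟨c, hc⟩ := h i
  simp [Jac, hc, del_ι, Matrix.one_apply, Algebra.algebraMap_eq_smul_one, (del_isDer k).one]

lemma IsTransl.gr {τ : FA K n →ₐ[K] FA K n} (h : IsTransl τ) {δ : ℕ} {r : FR K n}
    (hr : r ∈ Gr K n δ) : til τ r ∈ Gr K n δ := by
  have h1 : ∀ u : List (Fin n), lam K n (τ (word K u)) ∈ Gr K n u.length := by
    intro u
    induction u with
    | nil => simpa using one_mem_Gr
    | cons j u ih =>
      obtain ⟨c, hc⟩ := h j
      rw [word_cons, map_mul, map_mul, List.length_cons, add_comm]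
      refine Gr_mul ?_ ih
      rw [hc, map_add, AlgHom.commutes]
      refine add_mem ?_ (Gr_mono (by omega) (algebraMap_mem_Gr c))
      have := bR_mem (K := K) (s := Set.Iic 1) (u := [j]) (v := []) (by simp)
      rw [bR_apply] at this
      simpa [lam_apply] using this
  have h2 : ∀ u : List (Fin n), rho K n (τ (word K u)) ∈ Gr K n u.length := by
    intro u
    induction u with
    | nil => simpa using one_mem_Gr
    | cons j u ih =>
      obtain ⟨c, hc⟩ := h j
      rw [word_cons, map_mul, rho_mul, List.length_cons]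
      refine Gr_mul ih ?_
      rw [hc, map_add, Algebra.algebraMap_eq_smul_one, map_smul, rho_one]
      refine add_mem ?_ (Submodule.smul_mem _ _ (Gr_mono (by omega) one_mem_Gr))
      have := bR_mem (K := K) (s := Set.Iic 1) (u := []) (v := [j]) (by simp)
      rw [bR_apply] at this
      simpa [rho_apply] using this
  refine Sp_induction (p := fun r => til τ r ∈ Gr K n δ) ?_ ?_ ?_ ?_ hr
  · intro u v huv
    rw [bR_apply, til_tmul, ← lam_mul_rho]
    exact Gr_mono huv (Gr_mul (h1 u) (h2 v))
  · simp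
  · intro x y hx hy; rw [map_add]; exact add_mem hx hy
  · intro c x hx; rw [map_smul]; exact Submodule.smul_mem _ _ hx

theorem jac_inv (φ : FA K n →ₐ[K] FA K n)
    (h : ∀ m, ∃ τ θ : FA K n ≃ₐ[K] FA K n, IsTransl τ.toAlgHom ∧
      ∀ i, τ (φ (FreeAlgebra.ι K i)) - θ (FreeAlgebra.ι K i) ∈ Ipow K n m) :
    ∃ W, Jac φ * W = 1 ∧ W * Jac φ = 1 := by
  obtain ⟨δ, hδ⟩ := exists_MG (Jac φ)
  obtain ⟨m, hm⟩ := lim K n (Fin n) δ
  obtain ⟨τ, θ, hτ, hθ⟩ := h (m + 1)
  have e1 : Jac (τ.toAlgHom.comp φ) = tilM τ.toAlgHom (Jac φ) := by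
    rw [Jac_comp, hτ.jac, mul_one]
  obtain ⟨W, w1, w2⟩ := hm (tilM τ.toAlgHom (Jac φ)) (Jac θ.toAlgHom)
    (tilM θ.toAlgHom (Jac θ.symm.toAlgHom)) 1 (fun p q => hτ.gr (hδ p q))
    (by
      rw [← e1]
      intro p q
      have := del_mem q (hθ p)
      rw [map_sub] at this
      exact this)
    (by
      rw [mul_one, ← Jac_comp, ← Jac_id]
      congr 1
      ext a
      simp)
  have e2 : tilM τ.symm.toAlgHom (tilM τ.toAlgHom (Jac φ)) = Jac φ := by
    ext1 p q
    exact til_til (fun a => by simp) _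
  refine ⟨tilM τ.symm.toAlgHom W, ?_, ?_⟩
  · rw [← e2, ← map_mul, w1, map_one]
  · rw [← e2, ← map_mul, w2, map_one]

end Pool.Agent.H597Z.Good
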