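import Mathlib
import Pool.Agent.H597Z.GoodDer

set_option autoImplicit false

namespace Pool.Agent.H597Z.Good

open Module TensorProduct MulOpposite

variable {K : Type*} [Field K] {n : ℕ}

noncomputable def cR (l : FA K n →ₗ[K] K) : FR K n →ₗ[K] FA K n :=
  (TensorProduct.rid K (FA K n)).toLinearMap ∘ₗ
    TensorProduct.map LinearMap.id (l ∘ₗ (opLinearEquiv K).symm.toLinearMap)

noncomputable def cL (l : FA K n →ₗ[K] K) : FR K n →ₗ[K] FA K n :=
  (opLinearEquiv K).symm.toLinearMap ∘ₗ (TensorProduct.lid K (FA K n)ᵐᵒᵖ).toLinearMap ∘ₗ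
    TensorProduct.map l LinearMap.id

noncomputable def mL (Q : FA K n →ₗ[K] FA K n) : FR K n →ₗ[K] FR K n :=
  TensorProduct.map Q LinearMap.id

noncomputable def mR (Q : FA K n →ₗ[K] FA K n) : FR K n →ₗ[K] FR K n :=
  TensorProduct.map LinearMap.id
    ((opLinearEquiv K).toLinearMap ∘ₗ Q ∘ₗ (opLinearEquiv K).symm.toLinearMap)

lemma cR_tmul (l : FA K n →ₗ[K] K) (a b : FA K n) : cR l (a ⊗ₜ op b) = l b • a := by simp [cR]

lemma cL_tmul (l : FA K n →ₗ[K] K) (a b : FA K n) : cL l (a ⊗ₜ op b) = l a • b := by simp [cL]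

lemma mL_tmul (Q : FA K n →ₗ[K] FA K n) (a b : FA K n) : mL Q (a ⊗ₜ op b) = Q a ⊗ₜ op b := by
  simp [mL]

lemma mR_tmul (Q : FA K n →ₗ[K] FA K n) (a b : FA K n) : mR Q (a ⊗ₜ op b) = a ⊗ₜ op (Q b) := by
  simp [mR]

lemma lam_tmul (a x y : FA K n) : lam K n a * (x ⊗ₜ op y) = (a * x) ⊗ₜ op y := by
  simp [lam_apply]

lemma rho_tmul (a x y : FA K n) : rho K n a * (x ⊗ₜ op y) = x ⊗ₜ op (y * a) := by
  simp [rho_apply]

lemma tmul_lam (a x y : FA K n) : (x ⊗ₜ op y : FR K n) * lam K n a = (x * a) ⊗ₜ op y := by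
  simp [lam_apply]

lemma tmul_rho (a x y : FA K n) : (x ⊗ₜ op y : FR K n) * rho K n a = x ⊗ₜ op (a * y) := by
  simp [rho_apply]

variable (K n) in
noncomputable abbrev epl : FA K n →ₗ[K] K := (eps K n).toLinearMap

lemma cR_lam_mul (l : FA K n →ₗ[K] K) (a : FA K n) (r : FR K n) :
    cR l (lam K n a * r) = a * cR l r := by
  induction r using FR_induction with
  | h0 => simp
  | ht x y => simp only [lam_tmul, cR_tmul, mul_smul_comm]
  | hadd x y hx hy => simp only [mul_add, map_add, hx, hy]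

lemma cR_rho_mul (a : FA K n) (r : FR K n) :
    cR (epl K n) (rho K n a * r) = eps K n a • cR (epl K n) r := by
  induction r using FR_induction with
  | h0 => simp
  | ht x y => simp only [rho_tmul, cR_tmul, AlgHom.toLinearMap_apply, map_mul, smul_smul, mul_comm]
  | hadd x y hx hy => simp only [mul_add, map_add, hx, hy, smul_add]

lemma cR_mul_lam (l : FA K n →ₗ[K] K) (a : FA K n) (r : FR K n) :
    cR l (r * lam K n a) = cR l r * a := by
  induction r using FR_induction with
  | h0 => simp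
  | ht x y => simp only [tmul_lam, cR_tmul, smul_mul_assoc]
  | hadd x y hx hy => simp only [add_mul, map_add, hx, hy]

lemma cR_mul_rho (a : FA K n) (r : FR K n) :
    cR (epl K n) (r * rho K n a) = eps K n a • cR (epl K n) r := by
  induction r using FR_induction with
  | h0 => simp
  | ht x y => simp only [tmul_rho, cR_tmul, AlgHom.toLinearMap_apply, map_mul, smul_smul]
  | hadd x y hx hy => simp only [add_mul, map_add, hx, hy, smul_add]

lemma cL_lam_mul (a : FA K n) (r : FR K n) :
    cL (epl K n) (lam K n a * r) = eps K n a • cL (epl K n) r := by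
  induction r using FR_induction with
  | h0 => simp
  | ht x y => simp only [lam_tmul, cL_tmul, AlgHom.toLinearMap_apply, map_mul, smul_smul]
  | hadd x y hx hy => simp only [mul_add, map_add, hx, hy, smul_add]

lemma cL_rho_mul (l : FA K n →ₗ[K] K) (a : FA K n) (r : FR K n) :
    cL l (rho K n a * r) = cL l r * a := by
  induction r using FR_induction with
  | h0 => simp
  | ht x y => simp only [rho_tmul, cL_tmul, smul_mul_assoc]
  | hadd x y hx hy => simp only [mul_add, map_add, hx, hy, add_mul]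

lemma cL_mul_lam (a : FA K n) (r : FR K n) :
    cL (epl K n) (r * lam K n a) = eps K n a • cL (epl K n) r := by
  induction r using FR_induction with
  | h0 => simp
  | ht x y => simp only [tmul_lam, cL_tmul, AlgHom.toLinearMap_apply, map_mul, smul_smul, mul_comm]
  | hadd x y hx hy => simp only [add_mul, map_add, hx, hy, smul_add]

lemma cL_mul_rho (l : FA K n →ₗ[K] K) (a : FA K n) (r : FR K n) :
    cL l (r * rho K n a) = a * cL l r := by
  induction r using FR_induction with
  | h0 => simp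
  | ht x y => simp only [tmul_rho, cL_tmul, mul_smul_comm]
  | hadd x y hx hy => simp only [add_mul, map_add, hx, hy, mul_add]

lemma mL_lam_mul {Q : FA K n →ₗ[K] FA K n} (hQ : ∀ a b, Q (a * b) = a * Q b + eps K n b • Q a)
    (a : FA K n) (r : FR K n) :
    mL Q (lam K n a * r) = lam K n a * mL Q r + Q a ⊗ₜ op (cL (epl K n) r) := by
  induction r using FR_induction with
  | h0 => simp
  | ht x y =>
    simp only [lam_tmul, mL_tmul, cL_tmul, hQ, add_tmul, AlgHom.toLinearMap_apply, op_smul,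
      tmul_smul, smul_tmul']
  | hadd x y hx hy => simp only [mul_add, map_add, hx, hy, op_add, tmul_add]; abel

lemma mL_rho_mul (Q : FA K n →ₗ[K] FA K n) (a : FA K n) (r : FR K n) :
    mL Q (rho K n a * r) = rho K n a * mL Q r := by
  induction r using FR_induction with
  | h0 => simp
  | ht x y => simp only [rho_tmul, mL_tmul]
  | hadd x y hx hy => simp only [mul_add, map_add, hx, hy]

lemma mR_lam_mul (Q : FA K n →ₗ[K] FA K n) (a : FA K n) (r : FR K n) :
    mR Q (lam K n a * r) = lam K n a * mR Q r := by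
  induction r using FR_induction with
  | h0 => simp
  | ht x y => simp only [lam_tmul, mR_tmul]
  | hadd x y hx hy => simp only [mul_add, map_add, hx, hy]

lemma mR_rho_mul {P : FA K n →ₗ[K] FA K n} (hP : ∀ a b, P (a * b) = eps K n a • P b + P a * b)
    (a : FA K n) (r : FR K n) :
    mR P (rho K n a * r) = rho K n a * mR P r + cR (epl K n) r ⊗ₜ op (P a) := by
  induction r using FR_induction with
  | h0 => simp
  | ht x y =>
    simp only [rho_tmul, mR_tmul, cR_tmul, hP, op_add, tmul_add, AlgHom.toLinearMap_apply, op_smul,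
      tmul_smul, smul_tmul', add_comm]
  | hadd x y hx hy => simp only [mul_add, map_add, hx, hy, add_tmul]; abel

lemma cR_mL (l : FA K n →ₗ[K] K) (Q : FA K n →ₗ[K] FA K n) (r : FR K n) :
    cR l (mL Q r) = Q (cR l r) := by
  induction r using FR_induction with
  | h0 => simp
  | ht x y => simp only [mL_tmul, cR_tmul, map_smul]
  | hadd x y hx hy => simp only [map_add, hx, hy]

lemma cR_mR (l : FA K n →ₗ[K] K) (Q : FA K n →ₗ[K] FA K n) (r : FR K n) :
    cR l (mR Q r) = cR (l ∘ₗ Q) r := by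
  induction r using FR_induction with
  | h0 => simp
  | ht x y => simp only [mR_tmul, cR_tmul, LinearMap.comp_apply]
  | hadd x y hx hy => simp only [map_add, hx, hy]

lemma cL_mL (l : FA K n →ₗ[K] K) (Q : FA K n →ₗ[K] FA K n) (r : FR K n) :
    cL l (mL Q r) = cL (l ∘ₗ Q) r := by
  induction r using FR_induction with
  | h0 => simp
  | ht x y => simp only [mL_tmul, cL_tmul, LinearMap.comp_apply]
  | hadd x y hx hy => simp only [map_add, hx, hy]

lemma cL_mR (l : FA K n →ₗ[K] K) (Q : FA K n →ₗ[K] FA K n) (r : FR K n) :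
    cL l (mR Q r) = Q (cL l r) := by
  induction r using FR_induction with
  | h0 => simp
  | ht x y => simp only [mR_tmul, cL_tmul, map_smul]
  | hadd x y hx hy => simp only [map_add, hx, hy]

lemma cL_cR (l l' : FA K n →ₗ[K] K) (r : FR K n) : l' (cL l r) = l (cR l' r) := by
  induction r using FR_induction with
  | h0 => simp
  | ht x y => simp only [cR_tmul, cL_tmul, map_smul, smul_eq_mul, mul_comm]
  | hadd x y hx hy => simp only [map_add, hx, hy]

noncomputable def cLl (r : FR K n) : (FA K n →ₗ[K] K) →ₗ[K] FA K n where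
  toFun l := cL l r
  map_add' l l' := by
    induction r using FR_induction with
    | h0 => simp
    | ht x y => simp only [cL_tmul, LinearMap.add_apply, add_smul]
    | hadd x y hx hy => simp only [map_add, hx, hy]; abel
  map_smul' c l := by
    induction r using FR_induction with
    | h0 => simp
    | ht x y => simp only [cL_tmul, LinearMap.smul_apply, smul_eq_mul, RingHom.id_apply, smul_smul]
    | hadd x y hx hy => simp only [map_add, hx, hy, smul_add]

lemma exists_fd (r : FR K n) : ∃ U : Submodule K (FA K n), U.FG ∧ ∀ l, cR l r ∈ U := by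
  induction r using FR_induction with
  | h0 => exact ⟨⊥, Submodule.fg_bot, fun l => by simp⟩
  | ht x y =>
    exact ⟨K ∙ x, Submodule.fg_span_singleton x, fun l => by
      rw [cR_tmul]; exact Submodule.smul_mem _ _ (Submodule.mem_span_singleton_self x)⟩
  | hadd x y hx hy =>
    obtain ⟨U, h1, h2⟩ := hx
    obtain ⟨U', h1', h2'⟩ := hy
    exact ⟨U ⊔ U', h1.sup h1', fun l => by
      rw [map_add]; exact Submodule.add_mem_sup (h2 l) (h2' l)⟩

variable (K n) in
noncomputable def retr : FR K n →ₐ[K] FA K n :=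
  Algebra.TensorProduct.lift (AlgHom.id K _)
    ((Algebra.ofId K _).comp (AlgHom.fromOpposite (eps K n) fun _ _ => Commute.all _ _))
    fun a b => (Algebra.commutes (eps K n (unop b)) a).symm

lemma retr_lam (a : FA K n) : retr K n (lam K n a) = a := by simp [retr, lam_apply]

section dual

variable (φ : FA K n →ₐ[K] FA K n) (W : Matrix (Fin n) (Fin n) (FR K n))

noncomputable def DD (j : Fin n) : FA K n →ₗ[K] FR K n :=
  ∑ k, LinearMap.mulRight K (W k j) ∘ₗ del K k

lemma DD_apply (j : Fin n) (a : FA K n) : DD W j a = ∑ k, del K k a * W k j := by simp [DD]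

lemma DD_isDer (j : Fin n) : IsDer (DD W j) := by
  intro a b
  simp only [DD_apply, del_isDer _ _ _, add_mul, Finset.sum_add_distrib, Finset.mul_sum, mul_assoc]

variable {φ W}

lemma DD_f (h1 : Jac φ * W = 1) (i j : Fin n) :
    DD W j (φ (FreeAlgebra.ι K i)) = if i = j then 1 else 0 := by
  rw [DD_apply, ← Matrix.one_apply, ← h1, Matrix.mul_apply]
  rfl

lemma der_zero (h2 : W * Jac φ = 1) {E : FA K n →ₗ[K] FR K n} (hE : IsDer E)
    (h : ∀ i, E (φ (FreeAlgebra.ι K i)) = 0) (a : FA K n) : E a = 0 := by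
  have h3 : (Jac φ).mulVec (fun k => E (FreeAlgebra.ι K k)) = 0 := by
    funext i
    have := h i
    rw [hE.expand] at this
    exact this
  have h4 : (fun k => E (FreeAlgebra.ι K k)) = 0 := by
    rw [← Matrix.one_mulVec (fun k => E (FreeAlgebra.ι K k)), ← h2, ← Matrix.mulVec_mulVec, h3,
      Matrix.mulVec_zero]
  exact der_unique E (lam K n) (rho K n) (by simp) (by simp) hE (fun j => congrFun h4 j) a

lemma univ_id (h1 : Jac φ * W = 1) (h2 : W * Jac φ = 1) (a : FA K n) :
    lam K n a - rho K n a = ∑ j, DD W j a *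
      (lam K n (φ (FreeAlgebra.ι K j)) - rho K n (φ (FreeAlgebra.ι K j))) := by
  let E : FA K n →ₗ[K] FR K n := ((lam K n).toLinearMap - rho K n) - ∑ j, LinearMap.mulRight K
    (lam K n (φ (FreeAlgebra.ι K j)) - rho K n (φ (FreeAlgebra.ι K j))) ∘ₗ DD W j
  have hE : ∀ a, E a = (lam K n a - rho K n a) - ∑ j, DD W j a *
      (lam K n (φ (FreeAlgebra.ι K j)) - rho K n (φ (FreeAlgebra.ι K j))) := by
    intro a; simp [E]
  rw [← sub_eq_zero, ← hE]
  apply der_zero h2
  · intro a b
    rw [hE, hE, hE, mul_sub, mul_sub (rho K n b), Finset.mul_sum, Finset.mul_sum]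
    simp only [DD_isDer W _ _ _, add_mul, Finset.sum_add_distrib, mul_assoc]
    rw [map_mul, rho_mul, mul_sub (lam K n a), mul_sub (rho K n b), rho_mul_lam]
    abel
  · intro i
    simp [hE, DD_f h1]

lemma chr_eq (h1 : Jac φ * W = 1) (h2 : W * Jac φ = 1) (e e' : FA K n →ₐ[K] K)
    (h : ∀ i, e (φ (FreeAlgebra.ι K i)) = e' (φ (FreeAlgebra.ι K i))) (a : FA K n) :
    e a = e' a := by
  have l1 : ∀ a, chr e e' (lam K n a) = e a := fun a => by
    rw [lam_apply, ← op_one, chr_tmul]; simp
  have l2 : ∀ a, chr e e' (rho K n a) = e' a := fun a => by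
    rw [rho_apply, chr_tmul]; simp
  have := congrArg (chr e e') (univ_id h1 h2 a)
  simp only [map_sub, map_sum, map_mul, l1, l2, h, sub_self, mul_zero,
    Finset.sum_const_zero] at this
  exact sub_eq_zero.mp this

variable (W) in
noncomputable def QQ (j : Fin n) : FA K n →ₗ[K] FA K n := cR (epl K n) ∘ₗ DD W j

variable (W) in
noncomputable def PQ (j : Fin n) : FA K n →ₗ[K] FA K n := cL (epl K n) ∘ₗ DD W j

lemma QQ_mul (j : Fin n) (a b : FA K n) :
    QQ W j (a * b) = a * QQ W j b + eps K n b • QQ W j a := by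
  simp only [QQ, LinearMap.comp_apply, DD_isDer W _ _ _, map_add, cR_lam_mul, cR_rho_mul]

lemma PQ_mul (j : Fin n) (a b : FA K n) :
    PQ W j (a * b) = eps K n a • PQ W j b + PQ W j a * b := by
  simp only [PQ, LinearMap.comp_apply, DD_isDer W _ _ _, map_add, cL_lam_mul, cL_rho_mul]

lemma id_one (h1 : Jac φ * W = 1) (h2 : W * Jac φ = 1)
    (hφ : ∀ i, eps K n (φ (FreeAlgebra.ι K i)) = 0) (a : FA K n) :
    a = algebraMap K _ (eps K n a) + ∑ j, QQ W j a * φ (FreeAlgebra.ι K j) := by
  have := congrArg (cR (epl K n)) (univ_id h1 h2 a)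
  simp only [map_sub, map_sum, mul_sub, cR_mul_lam, cR_mul_rho, hφ, zero_smul, sub_zero] at this
  rw [lam_apply, rho_apply, ← op_one, cR_tmul, cR_tmul] at this
  simp only [QQ, LinearMap.comp_apply]
  rw [← this, Algebra.algebraMap_eq_smul_one]
  simp

lemma id_two (h1 : Jac φ * W = 1) (h2 : W * Jac φ = 1)
    (hφ : ∀ i, eps K n (φ (FreeAlgebra.ι K i)) = 0) (a : FA K n) :
    a = algebraMap K _ (eps K n a) + ∑ j, φ (FreeAlgebra.ι K j) * PQ W j a := by
  have := congrArg (cL (epl K n)) (univ_id h1 h2 a)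
  simp only [map_sub, map_sum, mul_sub, cL_mul_lam, cL_mul_rho, hφ, zero_smul, zero_sub,
    Finset.sum_neg_distrib] at this
  rw [lam_apply, rho_apply, ← op_one, cL_tmul, cL_tmul, ← neg_eq_iff_eq_neg] at this
  simp only [PQ, LinearMap.comp_apply]
  rw [← this, Algebra.algebraMap_eq_smul_one]
  simp

lemma id_three (h1 : Jac φ * W = 1) (h2 : W * Jac φ = 1) (i j : Fin n) (a : FA K n) :
    mL (QQ W j) (DD W i a) = mR (PQ W i) (DD W j a) := by
  let E : FA K n →ₗ[K] FR K n := mL (QQ W j) ∘ₗ DD W i - mR (PQ W i) ∘ₗ DD W j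
  have hE : ∀ a, E a = mL (QQ W j) (DD W i a) - mR (PQ W i) (DD W j a) := fun a => rfl
  rw [← sub_eq_zero, ← hE]
  apply der_zero h2
  · intro a b
    rw [hE, hE, hE, DD_isDer, DD_isDer, map_add, map_add, mL_lam_mul (QQ_mul j), mL_rho_mul,
      mR_lam_mul, mR_rho_mul (PQ_mul i), mul_sub, mul_sub]
    have e1 : cL (epl K n) (DD W i b) = PQ W i b := rfl
    have e2 : cR (epl K n) (DD W j a) = QQ W j a := rfl
    rw [e1, e2]
    abel
  · intro k
    have e1 : mL (QQ W j) 1 = 0 := by
      rw [Algebra.TensorProduct.one_def, ← op_one, mL_tmul]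
      simp [QQ, (DD_isDer W j).one]
    have e2 : mR (PQ W i) 1 = 0 := by
      rw [Algebra.TensorProduct.one_def, ← op_one, mR_tmul]
      simp [PQ, (DD_isDer W i).one]
    rw [hE, DD_f h1, DD_f h1]
    split_ifs <;> simp [e1, e2]

variable (φ W) in
noncomputable def yy (a : FA K n) : (FA K n →ₗ[K] K) →ₗ[K] FA K n :=
  Algebra.linearMap K (FA K n) ∘ₗ LinearMap.applyₗ a +
    ∑ j, LinearMap.mulLeft K (φ (FreeAlgebra.ι K j)) ∘ₗ cLl (DD W j a)

lemma yy_apply (a : FA K n) (l : FA K n →ₗ[K] K) :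
    yy φ W a l = algebraMap K _ (l a) + ∑ j, φ (FreeAlgebra.ι K j) * cL l (DD W j a) := by
  simp [yy, cLl]

lemma yy_rec (h1 : Jac φ * W = 1) (h2 : W * Jac φ = 1)
    (hφ : ∀ i, eps K n (φ (FreeAlgebra.ι K i)) = 0) (a : FA K n) (l : FA K n →ₗ[K] K) :
    yy φ W a l = algebraMap K _ (l a) +
      ∑ j, φ (FreeAlgebra.ι K j) * yy φ W a (l ∘ₗ QQ W j) := by
  rw [yy_apply]
  congr 1
  refine Finset.sum_congr rfl fun j _ => ?_
  congr 1
  rw [id_two h1 h2 hφ (cL l (DD W j a)), yy_apply]
  congr 1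
  · congr 1
    exact cL_cR l (epl K n) _
  · refine Finset.sum_congr rfl fun i _ => ?_
    rw [← cL_mR, ← id_three h1 h2, cL_mL]

end dual

theorem core (φ : FA K n →ₐ[K] FA K n) (hφ : ∀ i, φ (FreeAlgebra.ι K i) ∈ Ipow K n 1)
    (h : ∀ m, ∃ θ : FA K n ≃ₐ[K] FA K n,
      ∀ i, φ (FreeAlgebra.ι K i) - θ (FreeAlgebra.ι K i) ∈ Ipow K n m) :
    Function.Bijective φ := by
  have h' : ∀ m, ∃ θ : FA K n ≃ₐ[K] FA K n, (∀ a, φ a - θ a ∈ Ipow K n m) ∧
      ∀ k a, a ∈ Ipow K n k → θ.symm a ∈ Ipow K n k := by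
    intro m
    obtain ⟨θ, hθ⟩ := h (m + 1)
    refine ⟨θ, fun a => Ipow_mono (by omega) (congr_Ipow (θ := θ.toAlgHom) hθ a), fun k a ha => ?_⟩
    refine map_Ipow (θ := θ.symm.toAlgHom) (symm_mem_Ipow fun j => ?_) ha
    have := sub_mem (hφ j) (Ipow_mono (by omega) (hθ j))
    simpa using this
  constructor
  · rw [injective_iff_map_eq_zero]
    intro a ha
    apply eq_zero_of_Ipow
    intro m
    obtain ⟨θ, h1, h2⟩ := h' m
    have := h2 m _ (neg_mem (h1 a))
    simpa [ha] using this
  obtain ⟨W, h1, h2⟩ := jac_inv φ fun m => by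
    obtain ⟨θ, hθ⟩ := h m
    exact ⟨AlgEquiv.refl, θ, fun i => ⟨0, by simp⟩, hθ⟩
  have hφ' : ∀ i, eps K n (φ (FreeAlgebra.ι K i)) = 0 := fun i => eps_eq_zero (hφ i)
  let V : Submodule K (FA K n) := Submodule.span K (Set.range (FreeAlgebra.ι K) ∪
    {a | ∃ i j l, a = cR l (DD W j (FreeAlgebra.ι K i))})
  have hVx : ∀ i, FreeAlgebra.ι K i ∈ V := fun i => Submodule.subset_span (Or.inl ⟨i, rfl⟩)
  have hVc : ∀ i j l, cR l (DD W j (FreeAlgebra.ι K i)) ∈ V := fun i j l =>
    Submodule.subset_span (Or.inr ⟨i, j, l, rfl⟩)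
  have hVQ : ∀ j, ∀ v ∈ V, QQ W j v ∈ V := by
    intro j v hv
    have : V ≤ V.comap (QQ W j) := by
      apply Submodule.span_le.mpr
      rintro a (⟨i, rfl⟩ | ⟨i, k, l, rfl⟩)
      · exact hVc i j _
      · change QQ W j _ ∈ V
        rw [← cR_mL, id_three h1 h2, cR_mR]
        exact hVc _ _ _
    exact this hv
  have hfd : FiniteDimensional K V := by
    choose U hU1 hU2 using fun x : Fin n × Fin n => exists_fd (DD W x.2 (FreeAlgebra.ι K x.1))
    have hfg : (Submodule.span K (Set.range (FreeAlgebra.ι K)) ⊔ ⨆ x, U x).FG :=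
      (Submodule.fg_span (Set.finite_range _)).sup (Submodule.fg_iSup U hU1)
    have : FiniteDimensional K
      (Submodule.span K (Set.range (FreeAlgebra.ι K)) ⊔ ⨆ x, U x : Submodule K (FA K n)) :=
      Module.Finite.iff_fg.mpr hfg
    apply Submodule.finiteDimensional_of_le
      (S₂ := Submodule.span K (Set.range (FreeAlgebra.ι K)) ⊔ ⨆ x, U x)
    apply Submodule.span_le.mpr
    rintro a (⟨i, rfl⟩ | ⟨i, k, l, rfl⟩)
    · exact Submodule.mem_sup_left (Submodule.subset_span ⟨i, rfl⟩)
    · exact Submodule.mem_sup_right (Submodule.mem_iSup_of_mem (i, k) (hU2 (i, k) l))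
  have hy0 : ∀ v ∈ V, ∀ l : FA K n →ₗ[K] K, (∀ w ∈ V, l w = 0) → yy φ W v l = 0 := by
    intro v hv l hl
    apply eq_zero_of_Ipow
    intro m
    induction m generalizing l with
    | zero => exact mem_Ipow_zero _
    | succ m ih =>
      rw [yy_rec h1 h2 hφ', hl v hv, map_zero, zero_add, add_comm]
      exact Submodule.sum_mem _ fun j _ => Ipow_mul (hφ j) (ih _ fun w hw => hl _ (hVQ j w hw))
  obtain ⟨π, hπ⟩ := LinearMap.exists_leftInverse_of_injective V.subtype (Submodule.ker_subtype V)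
  let b := Module.finBasis K V
  let s := Module.finrank K V
  let lk : Fin s → FA K n →ₗ[K] K := fun k => b.coord k ∘ₗ π
  let v : Fin s → FA K n := fun k => b k
  have hv : ∀ k, v k ∈ V := fun k => (b k).2
  have hπ' : ∀ w : V, π w = w := fun w => LinearMap.congr_fun hπ w
  have hexp : ∀ w ∈ V, w = ∑ k, lk k w • v k := by
    intro w hw
    have := congrArg V.subtype (b.sum_repr ⟨w, hw⟩)
    simp only [map_sum, map_smul, Submodule.subtype_apply] at this
    rw [← this]
    refine Finset.sum_congr rfl fun k _ => ?_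
    rw [this]
    have e := hπ' ⟨w, hw⟩
    simp only [lk, v, LinearMap.comp_apply, e, Basis.coord_apply]
  have hlk : ∀ k m, lk k (v m) = if k = m then 1 else 0 := by
    intro k m
    simp only [lk, v, LinearMap.comp_apply, hπ', Basis.coord_apply, Basis.repr_self,
      Finsupp.single_apply, eq_comm]
  let L : (Fin n → FA K n) → Matrix (Fin s) (Fin s) (FA K n) := fun g =>
    1 - Matrix.of fun k m => ∑ j, lk k (QQ W j (v m)) • g j
  have hLmap : ∀ (θ : FA K n →ₐ[K] FA K n) g,
      (θ : FA K n →+* FA K n).mapMatrix (L g) = L fun j => θ (g j) := by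
    intro θ g
    simp only [L, map_sub, map_one]
    congr 1
    ext1 k m
    simp
  let β : Matrix (Fin s) (Fin s) (FA K n) := Matrix.of fun k m => yy φ W (v m) (lk k)
  have hLβ : L (fun j => φ (FreeAlgebra.ι K j)) * β = 1 := by
    simp only [L]
    rw [sub_mul, one_mul]
    ext1 k m
    simp only [Matrix.sub_apply, Matrix.mul_apply, Matrix.of_apply, β]
    rw [yy_rec h1 h2 hφ', hlk, add_sub_assoc]
    have : ∑ j, φ (FreeAlgebra.ι K j) * yy φ W (v m) (lk k ∘ₗ QQ W j) =
        ∑ x, (∑ j, lk k (QQ W j (v x)) • φ (FreeAlgebra.ι K j)) * yy φ W (v m) (lk x) := by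
      simp only [Finset.sum_mul]
      rw [Finset.sum_comm]
      refine Finset.sum_congr rfl fun j _ => ?_
      have e := hy0 (v m) (hv m) (lk k ∘ₗ QQ W j - ∑ x, lk k (QQ W j (v x)) • lk x) (by
        intro w hw
        simp only [LinearMap.sub_apply, LinearMap.comp_apply, LinearMap.sum_apply,
          LinearMap.smul_apply, smul_eq_mul]
        rw [sub_eq_zero]
        conv_lhs => rw [hexp w hw, map_sum, map_sum]
        refine Finset.sum_congr rfl fun x _ => ?_
        rw [map_smul, map_smul, smul_eq_mul, mul_comm])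
      rw [map_sub, sub_eq_zero] at e
      rw [e, map_sum, Finset.mul_sum]
      refine Finset.sum_congr rfl fun x _ => ?_
      rw [map_smul, mul_smul_comm, smul_mul_assoc]
    rw [this, sub_self, add_zero, Matrix.one_apply]
    split_ifs <;> simp
  let lamM : Matrix (Fin s) (Fin s) (FA K n) →+* Matrix (Fin s) (Fin s) (FR K n) :=
    (lam K n : FA K n →+* FR K n).mapMatrix
  obtain ⟨δ, hδ⟩ := exists_MG (lamM (L (FreeAlgebra.ι K)))
  obtain ⟨m, hm⟩ := lim K n (Fin s) δ
  obtain ⟨θ, hθ1, hθ2⟩ := h' m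
  obtain ⟨W', w1, -⟩ := hm (lamM (L (FreeAlgebra.ι K)))
    (lamM (L fun j => θ.symm (φ (FreeAlgebra.ι K j)))) 1
    (lamM ((θ.symm.toAlgHom : FA K n →+* FA K n).mapMatrix β)) hδ
    (by
      rw [← map_sub]
      intro p q
      apply lam_mem_Fr
      simp only [L, sub_sub_sub_cancel_left, Matrix.sub_apply, Matrix.of_apply,
        ← Finset.sum_sub_distrib, ← smul_sub]
      refine Submodule.sum_mem _ fun j _ => Submodule.smul_mem _ _ ?_
      simpa using hθ2 m _ (hθ1 (FreeAlgebra.ι K j)))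
    (by
      have := hLmap θ.symm.toAlgHom fun j => φ (FreeAlgebra.ι K j)
      rw [one_mul, ← map_mul]
      erw [← this]
      rw [← map_mul, hLβ, map_one, map_one])
  have w2 : L (FreeAlgebra.ι K) * (retr K n : FR K n →+* FA K n).mapMatrix W' = 1 := by
    have := congrArg (retr K n : FR K n →+* FA K n).mapMatrix w1
    rw [map_mul, map_one] at this
    rw [← this]
    congr 1
    ext1 p q
    exact (retr_lam _).symm
  have w3 := congrArg (φ : FA K n →+* FA K n).mapMatrix w2
  rw [map_mul, map_one, hLmap] at w3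
  have w4 : Matrix.vecMul v (L fun j => φ (FreeAlgebra.ι K j)) =
      fun k => algebraMap K _ (eps K n (v k)) := by
    funext m
    simp only [L, Matrix.vecMul_sub, Matrix.vecMul_one, Pi.sub_apply]
    rw [sub_eq_iff_eq_add]
    conv_lhs => rw [id_one h1 h2 hφ' (v m)]
    congr 1
    simp only [Matrix.vecMul, dotProduct, Matrix.of_apply, Finset.mul_sum]
    rw [Finset.sum_comm]
    refine Finset.sum_congr rfl fun j _ => ?_
    conv_lhs => rw [hexp _ (hVQ j _ (hv m))]
    rw [Finset.sum_mul]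
    refine Finset.sum_congr rfl fun k _ => ?_
    rw [mul_smul_comm, smul_mul_assoc]
  have w5 : ∀ k, v k ∈ φ.range := by
    intro k
    have := congrArg (Matrix.vecMul v) w3
    rw [← Matrix.vecMul_vecMul, w4, Matrix.vecMul_one] at this
    rw [← this]
    simp only [Matrix.vecMul, dotProduct]
    refine Subalgebra.sum_mem _ fun j _ => mul_mem (Subalgebra.algebraMap_mem _ _) ?_
    exact ⟨_, rfl⟩
  have w6 : ∀ i, FreeAlgebra.ι K i ∈ φ.range := by
    intro i
    rw [hexp _ (hVx i)]
    exact Subalgebra.sum_mem _ fun k _ => Subalgebra.smul_mem _ (w5 k) _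
  intro a
  change a ∈ φ.range
  induction a using FreeAlgebra.induction with
  | grade0 c => exact Subalgebra.algebraMap_mem _ _
  | grade1 j => exact w6 j
  | mul a b ha hb => exact mul_mem ha hb
  | add a b ha hb => exact add_mem ha hb

noncomputable def trH (c : Fin n → K) : FA K n →ₐ[K] FA K n :=
  FreeAlgebra.lift K fun i => FreeAlgebra.ι K i + algebraMap K _ (c i)

noncomputable def tr (c : Fin n → K) : FA K n ≃ₐ[K] FA K n :=
  AlgEquiv.ofAlgHom (trH c) (trH (-c))
    (by apply FreeAlgebra.hom_ext; funext i; simp [trH])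
    (by apply FreeAlgebra.hom_ext; funext i; simp [trH])

lemma tr_ι (c : Fin n → K) (i : Fin n) :
    tr c (FreeAlgebra.ι K i) = FreeAlgebra.ι K i + algebraMap K _ (c i) := by
  simp [tr, trH]

theorem good_bij (φ : FA K n →ₐ[K] FA K n) (h : IsGood φ) : Function.Bijective φ := by
  let c : Fin n → K := fun i => -eps K n (φ (FreeAlgebra.ι K i))
  have := core (φ.comp (tr c).toAlgHom) (fun i => by
    simpa [tr_ι, c, sub_eq_add_neg] using sub_eps_mem (φ (FreeAlgebra.ι K i))) (fun m => by
    obtain ⟨ψ, θ, h1, h2⟩ := h (m + 1) (by omega)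
    refine ⟨(tr c).trans θ, fun i => Ipow_mono (Nat.le_succ m) ?_⟩
    have := congr_Ipow (φ := ψ) (θ := AlgHom.id K _) h2 (θ (tr c (FreeAlgebra.ι K i)))
    simpa [h1] using this)
  exact (Function.Bijective.of_comp_iff φ (tr c).bijective).mp this

theorem goodRev_bij (φ : FA K n →ₐ[K] FA K n) (h : IsGoodRev φ) : Function.Bijective φ := by
  choose ψ θ h1 h2 using fun m => h (m + 1) (by omega)
  let ev : ℕ → FA K n →ₐ[K] K := fun m => (eps K n).comp (θ m).symm.toAlgHom
  let c : ℕ → Fin n → K := fun m i => ev m (FreeAlgebra.ι K i)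
  have hev : ∀ m a, eps K n (tr (c m) a) = ev m a := by
    intro m a
    have : (eps K n).comp (tr (c m)).toAlgHom = ev m := by
      apply FreeAlgebra.hom_ext
      funext i
      simp [tr_ι, c]
    exact DFunLike.congr_fun this a
  have hevφ : ∀ m i, ev m (φ (FreeAlgebra.ι K i)) = 0 := by
    intro m i
    have := eps_eq_zero (Ipow_mono (Nat.le_add_left 1 m) (h2 m i))
    rw [h1 m]
    simpa [ev] using this
  have happ : ∀ m i, tr (c m) (φ (FreeAlgebra.ι K i)) -
      ((θ m).trans (tr (c m))) (FreeAlgebra.ι K i) ∈ Ipow K n m := by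
    intro m i
    have := map_Ipow (θ := ((θ m).trans (tr (c m))).toAlgHom) (fun j => by
      rw [mem_Ipow_one_iff]
      simp [hev, ev]) (h2 m i)
    rw [h1 m]
    exact Ipow_mono (Nat.le_succ m) (by simpa using this)
  obtain ⟨W, w1, w2⟩ := jac_inv φ fun m =>
    ⟨tr (c m), (θ m).trans (tr (c m)), fun i => ⟨c m i, tr_ι _ _⟩, happ m⟩
  have hc : ∀ m, c m = c 0 := fun m => funext fun i =>
    chr_eq w1 w2 (ev m) (ev 0) (fun i => by rw [hevφ, hevφ]) _
  have := core ((tr (c 0)).toAlgHom.comp φ) (fun i => by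
    rw [mem_Ipow_one_iff]
    simp [hev, hevφ]) (fun m => ⟨(θ m).trans (tr (c m)), fun i => by
      rw [← hc m]; exact happ m i⟩)
  exact (Function.Bijective.of_comp_iff' (tr (c 0)).bijective φ).mp this

end Pool.Agent.H597Z.Good
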