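import Mathlib

set_option autoImplicit false

namespace Pool.Agent.H597Z.Mlat

/-- A local monoid on `X`: a set of maps `X → X` which contains the identity, is closed under
composition, and is a closed subset of `X → X` (product topology). -/
def IsLocalMonoid {X : Type} [TopologicalSpace X] (M : Set (X → X)) : Prop :=
  id ∈ M ∧ (∀ f ∈ M, ∀ g ∈ M, f ∘ g ∈ M) ∧ IsClosed M

/-- A locally closed permutation group on `X`: a subgroup of the symmetric group which is closed
in the topology which the symmetric group inherits as a subspace of `X → X` (product topology). -/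
def IsLocalGroup {X : Type} [TopologicalSpace X] (G : Subgroup (Equiv.Perm X)) : Prop :=
  @IsClosed (Equiv.Perm X)
    (TopologicalSpace.induced (fun σ : Equiv.Perm X => (σ : X → X)) inferInstance)
    (G : Set (Equiv.Perm X))

/-- The bounded lattice `L` consists of a least element, a greatest element and an antichain of
the cardinality of the continuum. -/
def IsMContinuum (L : Type) [Lattice L] [BoundedOrder L] : Prop :=
  IsAntichain (· ≤ ·) {a : L | a ≠ ⊥ ∧ a ≠ ⊤} ∧
    Cardinal.mk {a : L | a ≠ ⊥ ∧ a ≠ ⊤} = Cardinal.continuum

end Pool.Agent.H597Z.Mlat
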