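import Mathlib
import Pool.Agent.H597Z.MlatDefs

set_option autoImplicit false

namespace Pool.Agent.H597Z.Mlat

open Filter Topology Set

instance factTwo : Fact (Nat.Prime 2) := ⟨Nat.prime_two⟩

/-- the plane over the 2-adic numbers -/
abbrev V : Type := ℚ_[2] × ℚ_[2]

theorem V_norm_add (x y : V) : ‖x + y‖ ≤ max ‖x‖ ‖y‖ := by
  rw [Prod.norm_def, Prod.norm_def, Prod.norm_def]
  have h1 := Padic.nonarchimedean x.1 y.1
  have h2 := Padic.nonarchimedean x.2 y.2
  refine max_le ?_ ?_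
  · exact h1.trans (max_le_max (le_max_left _ _) (le_max_left _ _))
  · exact h2.trans (max_le_max (le_max_right _ _) (le_max_right _ _))

/-- the open ball of radius `1 / (n + 1)` -/
def U (n : ℕ) : AddSubgroup V where
  carrier := {x | ‖x‖ < 1 / ((n : ℝ) + 1)}
  add_mem' := fun {x y} hx hy => (V_norm_add x y).trans_lt (max_lt hx hy)
  zero_mem' := by
    simp only [mem_ofPred_eq, norm_zero]
    positivity
  neg_mem' := fun {x} hx => by simpa using hx

theorem U_open (n : ℕ) : IsOpen (U n : Set V) := isOpen_lt continuous_norm continuous_const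

/-- the disjoint union of the coset spaces -/
abbrev X0 : Type := Σ n : ℕ, V ⧸ U n

instance cntQ (n : ℕ) : Countable (V ⧸ U n) := by
  have : DiscreteTopology (V ⧸ U n) := QuotientAddGroup.discreteTopology (U_open n)
  rw [← TopologicalSpace.separableSpace_iff_countable]
  exact (QuotientAddGroup.isQuotientMap_mk (U n)).separableSpace

instance infX0 : Infinite X0 :=
  Infinite.of_injective (fun n : ℕ => (⟨n, 0⟩ : X0)) (fun _ _ h => congrArg Sigma.fst h)

/-- translation -/
noncomputable def act (v : V) (x : X0) : X0 := ⟨x.1, (v : V ⧸ U x.1) + x.2⟩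

theorem act_zero (x : X0) : act 0 x = x := by simp [act]

theorem act_add (u v : V) (x : X0) : act (u + v) x = act u (act v x) := by
  unfold act
  simp only [QuotientAddGroup.mk_add, add_assoc]

theorem act_eq_iff (u v : V) (x : X0) : act u x = act v x ↔ ‖u - v‖ < 1 / ((x.1 : ℝ) + 1) := by
  unfold act
  rw [Sigma.mk.inj_iff]
  simp only [heq_eq_eq, true_and, add_left_inj]
  rw [QuotientAddGroup.eq_iff_sub_mem]
  rfl

section transfer

variable {X : Type} [TopologicalSpace X] [DiscreteTopology X] (e : X0 ≃ X)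

/-- translation, transported to `X` -/
noncomputable def T (v : V) : X → X := fun x => e (act v (e.symm x))

omit [TopologicalSpace X] [DiscreteTopology X] in
theorem T_zero : T e 0 = id := by
  funext x; simp [T, act_zero]

omit [TopologicalSpace X] [DiscreteTopology X] in
theorem T_add (u v : V) : T e (u + v) = T e u ∘ T e v := by
  funext x; simp [T, act_add]

omit [TopologicalSpace X] [DiscreteTopology X] in
theorem T_eq_iff (u v : V) (x : X) :
    T e u x = T e v x ↔ ‖u - v‖ < 1 / (((e.symm x).1 : ℝ) + 1) := by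
  unfold T
  rw [e.apply_eq_iff_eq, act_eq_iff]

omit [TopologicalSpace X] [DiscreteTopology X] in
theorem T_inj : Function.Injective (T e) := by
  intro u v h
  rw [← sub_eq_zero, ← norm_le_zero_iff]
  by_contra hc
  push Not at hc
  obtain ⟨n, hn⟩ := exists_nat_one_div_lt hc
  have h1 := (T_eq_iff e u v (e ⟨n, 0⟩)).1 (by rw [h])
  rw [e.symm_apply_apply] at h1
  exact lt_asymm h1 hn

theorem T_closed {S : Set V} (hS : IsClosed S) : IsClosed (T e '' S) := by
  apply isClosed_of_closure_subset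
  intro f hf
  have hne : (comap (T e) (𝓝 f) ⊓ 𝓟 S).NeBot := by
    rw [mem_closure_iff_clusterPt] at hf
    have h1 : (𝓝 f ⊓ 𝓟 (T e '' S)).NeBot := hf
    rw [← map_principal, ← Filter.push_pull'] at h1
    exact h1.of_map
  have hmem : ∀ x : X, {v | T e v x = f x} ∈ comap (T e) (𝓝 f) ⊓ 𝓟 S := by
    intro x
    apply mem_inf_of_left
    have h1 : {g : X → X | g x = f x} ∈ 𝓝 f := by
      have h2 : IsOpen {g : X → X | g x = f x} :=
        (isOpen_discrete {f x}).preimage (continuous_apply (A := fun _ : X => X) x)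
      exact h2.mem_nhds rfl
    exact preimage_mem_comap h1
  have hc : Cauchy (comap (T e) (𝓝 f) ⊓ 𝓟 S) := by
    rw [Metric.cauchy_iff]
    refine ⟨hne, fun ε hε => ?_⟩
    obtain ⟨n, hn⟩ := exists_nat_one_div_lt hε
    refine ⟨_, hmem (e ⟨n, 0⟩), fun u hu v hv => ?_⟩
    have h1 := (T_eq_iff e u v (e ⟨n, 0⟩)).1 (by rw [hu, hv])
    rw [e.symm_apply_apply] at h1
    rw [dist_eq_norm]
    exact h1.trans hn
  obtain ⟨v, hv⟩ := CompleteSpace.complete hc
  have hvS : v ∈ S := by
    apply hS.mem_of_tendsto (f := id) (b := comap (T e) (𝓝 f) ⊓ 𝓟 S) hv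
    exact mem_inf_of_right (mem_principal_self S)
  refine ⟨v, hvS, funext fun x => ?_⟩
  have h1 : {u | ‖u - v‖ < 1 / (((e.symm x).1 : ℝ) + 1)} ∈ 𝓝 v := by
    apply IsOpen.mem_nhds
    · exact isOpen_lt (by fun_prop) continuous_const
    · simp only [mem_ofPred_eq, sub_self, norm_zero]
      positivity
  obtain ⟨u, hu1, hu2⟩ := hne.nonempty_of_mem (inter_mem (hv h1) (hmem x))
  rw [← hu2]
  exact ((T_eq_iff e u v x).2 hu1).symm

/-- translation as a permutation -/
noncomputable def TP (v : V) : Equiv.Perm X where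
  toFun := T e v
  invFun := T e (-v)
  left_inv := fun x => by
    have := congrFun (T_add e (-v) v) x
    rw [neg_add_cancel, T_zero] at this
    exact this.symm
  right_inv := fun x => by
    have := congrFun (T_add e v (-v)) x
    rw [add_neg_cancel, T_zero] at this
    exact this.symm

/-- the group of translations by the elements of `H` -/
def TG (H : AddSubgroup V) : Subgroup (Equiv.Perm X) where
  carrier := {σ | (σ : X → X) ∈ T e '' (H : Set V)}
  one_mem' := ⟨0, H.zero_mem, T_zero e⟩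
  mul_mem' := by
    rintro σ τ ⟨u, hu, h1⟩ ⟨v, hv, h2⟩
    refine ⟨u + v, H.add_mem hu hv, ?_⟩
    rw [T_add, h1, h2]
    rfl
  inv_mem' := by
    rintro σ ⟨u, hu, h1⟩
    refine ⟨-u, H.neg_mem hu, ?_⟩
    have h2 : σ = TP e u := Equiv.ext fun x => (congrFun h1 x).symm
    rw [h2]
    rfl

theorem TM_local {H : AddSubgroup V} (hH : IsClosed (H : Set V)) :
    IsLocalMonoid (T e '' (H : Set V)) := by
  refine ⟨⟨0, H.zero_mem, T_zero e⟩, ?_, T_closed e hH⟩
  rintro _ ⟨u, hu, rfl⟩ _ ⟨v, hv, rfl⟩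
  exact ⟨u + v, H.add_mem hu hv, T_add e u v⟩

theorem TG_local {H : AddSubgroup V} (hH : IsClosed (H : Set V)) : IsLocalGroup (TG e H) := by
  unfold IsLocalGroup
  rw [isClosed_induced_iff]
  exact ⟨_, T_closed e hH, rfl⟩

end transfer

/-- the line of slope `a` -/
def line (a : ℚ_[2]) : AddSubgroup V where
  carrier := {x | x.2 = a * x.1}
  add_mem' := fun {x y} hx hy => by
    simp only [mem_ofPred_eq, Prod.snd_add, Prod.fst_add] at hx hy ⊢
    rw [hx, hy]; ring
  zero_mem' := by simp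
  neg_mem' := fun {x} hx => by
    simp only [mem_ofPred_eq, Prod.snd_neg, Prod.fst_neg] at hx ⊢
    rw [hx]; ring

theorem mem_line (a : ℚ_[2]) (x : V) : x ∈ line a ↔ x.2 = a * x.1 := Iff.rfl

theorem line_closed (a : ℚ_[2]) : IsClosed (line a : Set V) :=
  isClosed_eq continuous_snd (by fun_prop)

theorem line_inf {a b : ℚ_[2]} (h : a ≠ b) : line a ⊓ line b = ⊥ := by
  rw [eq_bot_iff]
  rintro x ⟨h1, h2⟩
  have h3 : x.2 = a * x.1 := h1
  have h4 : x.2 = b * x.1 := h2
  have h5 : (a - b) * x.1 = 0 := by rw [sub_mul, ← h3, ← h4, sub_self]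
  have h6 : x.1 = 0 := (mul_eq_zero.1 h5).resolve_left (sub_ne_zero.2 h)
  rw [AddSubgroup.mem_bot]
  exact Prod.ext h6 (by rw [h3, h6]; simp)

theorem line_sup {a b : ℚ_[2]} (h : a ≠ b) : line a ⊔ line b = ⊤ := by
  rw [eq_top_iff]
  intro x _
  have hab : a - b ≠ 0 := sub_ne_zero.2 h
  rw [AddSubgroup.mem_sup]
  refine ⟨((x.2 - b * x.1) / (a - b), a * ((x.2 - b * x.1) / (a - b))), rfl,
    ((a * x.1 - x.2) / (a - b), b * ((a * x.1 - x.2) / (a - b))), rfl, ?_⟩
  ext
  · simp only [Prod.mk_add_mk]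
    field_simp
    ring
  · simp only [Prod.mk_add_mk]
    field_simp
    ring

theorem line_ne_bot (a : ℚ_[2]) : line a ≠ ⊥ := by
  intro h
  have h1 : ((1, a) : V) ∈ line a := by simp [mem_line]
  rw [h, AddSubgroup.mem_bot] at h1
  exact one_ne_zero (congrArg Prod.fst h1)

theorem line_ne_top (a : ℚ_[2]) : line a ≠ ⊤ := by
  intro h
  have h1 : ((0, 1) : V) ∈ line a := by rw [h]; trivial
  simp [mem_line] at h1

/-- The lattice embeds into the lattice of all subgroups of the plane, with closed values. -/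
theorem exists_phi (L : Type) [Lattice L] [BoundedOrder L] (hL : IsMContinuum L) :
    ∃ φ : L → AddSubgroup V, Function.Injective φ ∧ (∀ a, IsClosed (φ a : Set V)) ∧
      ∀ a b, φ (a ⊓ b) = φ a ⊓ φ b ∧ φ (a ⊔ b) = φ a ⊔ φ b := by
  classical
  obtain ⟨hanti, hcard⟩ := hL
  obtain ⟨g⟩ : Nonempty ({a : L | a ≠ ⊥ ∧ a ≠ ⊤} ↪ ℚ_[2]) := by
    rw [← Cardinal.le_def, hcard]
    exact continuum_le_cardinal_of_nontriviallyNormedField ℚ_[2]
  have hbt : (⊤ : L) ≠ ⊥ := by
    intro h
    have h1 : {a : L | a ≠ ⊥ ∧ a ≠ ⊤} = ∅ := by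
      ext a
      simp only [mem_ofPred_eq, mem_empty_iff_false, iff_false, not_and, not_not]
      intro ha
      exact absurd (le_bot_iff.1 (h ▸ le_top)) ha
    rw [h1] at hcard
    simp only [Cardinal.mk_eq_zero] at hcard
    exact Cardinal.continuum_ne_zero hcard.symm
  let φ : L → AddSubgroup V := fun a =>
    if h1 : a = ⊥ then ⊥ else if h2 : a = ⊤ then ⊤ else line (g ⟨a, h1, h2⟩)
  have hb : φ ⊥ = ⊥ := by simp [φ]
  have ht : φ ⊤ = ⊤ := by simp [φ, hbt]
  have hm : ∀ (a : L) (h1 : a ≠ ⊥) (h2 : a ≠ ⊤), φ a = line (g ⟨a, h1, h2⟩) := by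
    intro a h1 h2
    simp [φ, h1, h2]
  have hVbt : (⊤ : AddSubgroup V) ≠ ⊥ := by
    intro h
    exact line_ne_bot 0 (le_bot_iff.1 (h ▸ le_top))
  have hg : ∀ (a b : L) (h1 : a ≠ ⊥) (h2 : a ≠ ⊤) (h3 : b ≠ ⊥) (h4 : b ≠ ⊤), a ≠ b →
      g ⟨a, h1, h2⟩ ≠ g ⟨b, h3, h4⟩ := by
    intro a b h1 h2 h3 h4 hab h
    exact hab (congrArg Subtype.val (g.injective h))
  have hle : ∀ a b : L, a ≤ b → a = ⊥ ∨ b = ⊤ ∨ a = b := by
    intro a b hab
    by_contra hc
    push Not at hc
    obtain ⟨h1, h2, h3⟩ := hc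
    have h4 : a ≠ ⊤ := fun h => h2 (top_le_iff.1 (h ▸ hab))
    have h5 : b ≠ ⊥ := fun h => h1 (le_bot_iff.1 (h ▸ hab))
    exact hanti ⟨h1, h4⟩ ⟨h5, h2⟩ h3 hab
  refine ⟨φ, ?_, ?_, ?_⟩
  · intro a b hab
    by_cases h1 : a = ⊥
    · by_cases h3 : b = ⊥
      · rw [h1, h3]
      · by_cases h4 : b = ⊤
        · rw [h1, h4, hb, ht] at hab
          exact absurd hab.symm hVbt
        · rw [h1, hb, hm b h3 h4] at hab
          exact absurd hab.symm (line_ne_bot _)
    · by_cases h2 : a = ⊤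
      · by_cases h3 : b = ⊥
        · rw [h2, h3, hb, ht] at hab
          exact absurd hab hVbt
        · by_cases h4 : b = ⊤
          · rw [h2, h4]
          · rw [h2, ht, hm b h3 h4] at hab
            exact absurd hab.symm (line_ne_top _)
      · by_cases h3 : b = ⊥
        · rw [h3, hb, hm a h1 h2] at hab
          exact absurd hab (line_ne_bot _)
        · by_cases h4 : b = ⊤
          · rw [h4, ht, hm a h1 h2] at hab
            exact absurd hab (line_ne_top _)
          · by_contra hne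
            rw [hm a h1 h2, hm b h3 h4] at hab
            have h5 := line_inf (hg a b h1 h2 h3 h4 hne)
            rw [hab, inf_idem] at h5
            exact line_ne_bot _ h5
  · intro a
    by_cases h1 : a = ⊥
    · rw [h1, hb, AddSubgroup.coe_bot]
      exact isClosed_singleton
    · by_cases h2 : a = ⊤
      · rw [h2, ht, AddSubgroup.coe_top]
        exact isClosed_univ
      · rw [hm a h1 h2]
        exact line_closed _
  · intro a b
    by_cases h1 : a = ⊥
    · subst h1
      simp [hb]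
    by_cases h2 : a = ⊤
    · subst h2
      simp [ht]
    by_cases h3 : b = ⊥
    · subst h3
      simp [hb]
    by_cases h4 : b = ⊤
    · subst h4
      simp [ht]
    by_cases h5 : a = b
    · subst h5
      simp
    have h6 : a ⊓ b = ⊥ := by
      rcases hle (a ⊓ b) a inf_le_left with h | h | h
      · exact h
      · exact absurd h h2
      · rcases hle a b (inf_eq_left.1 h) with h' | h' | h'
        · exact absurd h' h1
        · exact absurd h' h4
        · exact absurd h' h5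
    have h7 : a ⊔ b = ⊤ := by
      rcases hle a (a ⊔ b) le_sup_left with h | h | h
      · exact absurd h h1
      · exact h
      · rcases hle b a (sup_eq_left.1 h.symm) with h' | h' | h'
        · exact absurd h' h3
        · exact absurd h' h2
        · exact absurd h'.symm h5
    rw [h6, h7, hb, ht, hm a h1 h2, hm b h3 h4, line_inf (hg a b h1 h2 h3 h4 h5),
      line_sup (hg a b h1 h2 h3 h4 h5)]
    exact ⟨rfl, rfl⟩

theorem monoids (X : Type) [Countable X] [Infinite X] [TopologicalSpace X] [DiscreteTopology X]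
    (L : Type) [Lattice L] [BoundedOrder L] (hL : IsMContinuum L) :
    ∃ f : L → {M : Set (X → X) // IsLocalMonoid M}, Function.Injective f ∧
      ∀ a b : L, IsGLB {f a, f b} (f (a ⊓ b)) ∧ IsLUB {f a, f b} (f (a ⊔ b)) := by
  obtain ⟨φ, hinj, hcl, hφ⟩ := exists_phi L hL
  obtain ⟨e⟩ : Nonempty (X0 ≃ X) := nonempty_equiv_of_countable
  refine ⟨fun a => ⟨T e '' (φ a : Set V), TM_local e (hcl a)⟩, ?_, fun a b => ⟨⟨?_, ?_⟩, ?_, ?_⟩⟩
  · intro a b hab
    have h1 : T e '' (φ a : Set V) = T e '' (φ b : Set V) := congrArg Subtype.val hab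
    exact hinj (SetLike.coe_injective ((T_inj e).image_injective h1))
  · rintro M (rfl | rfl)
    · show T e '' _ ⊆ T e '' _
      apply image_mono
      rw [(hφ a b).1]
      exact fun x hx => hx.1
    · show T e '' _ ⊆ T e '' _
      apply image_mono
      rw [(hφ a b).1]
      exact fun x hx => hx.2
  · intro M hM
    have h1 : M.1 ⊆ T e '' (φ a : Set V) := hM (Or.inl rfl)
    have h2 : M.1 ⊆ T e '' (φ b : Set V) := hM (Or.inr rfl)
    show M.1 ⊆ T e '' _
    intro f hf
    obtain ⟨u, hu, rfl⟩ := h1 hf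
    obtain ⟨v, hv, huv⟩ := h2 hf
    rw [T_inj e huv] at hv
    refine ⟨u, ?_, rfl⟩
    rw [(hφ a b).1]
    exact ⟨hu, hv⟩
  · rintro M (rfl | rfl)
    · show T e '' _ ⊆ T e '' _
      apply image_mono
      rw [(hφ a b).2]
      exact (le_sup_left : φ a ≤ φ a ⊔ φ b)
    · show T e '' _ ⊆ T e '' _
      apply image_mono
      rw [(hφ a b).2]
      exact (le_sup_right : φ b ≤ φ a ⊔ φ b)
  · intro M hM
    have h1 : T e '' (φ a : Set V) ⊆ M.1 := hM (Or.inl rfl)
    have h2 : T e '' (φ b : Set V) ⊆ M.1 := hM (Or.inr rfl)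
    show T e '' _ ⊆ M.1
    rintro _ ⟨w, hw, rfl⟩
    rw [(hφ a b).2] at hw
    obtain ⟨u, hu, v, hv, rfl⟩ := AddSubgroup.mem_sup.1 hw
    rw [T_add]
    exact M.2.2.1 _ (h1 ⟨u, hu, rfl⟩) _ (h2 ⟨v, hv, rfl⟩)

theorem groups (X : Type) [Countable X] [Infinite X] [TopologicalSpace X] [DiscreteTopology X]
    (L : Type) [Lattice L] [BoundedOrder L] (hL : IsMContinuum L) :
    ∃ f : L → {G : Subgroup (Equiv.Perm X) // IsLocalGroup G}, Function.Injective f ∧
      ∀ a b : L, IsGLB {f a, f b} (f (a ⊓ b)) ∧ IsLUB {f a, f b} (f (a ⊔ b)) := by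
  obtain ⟨φ, hinj, hcl, hφ⟩ := exists_phi L hL
  obtain ⟨e⟩ : Nonempty (X0 ≃ X) := nonempty_equiv_of_countable
  have hmono : ∀ H K : AddSubgroup V, H ≤ K → TG e H ≤ TG e K := by
    intro H K h σ hσ
    exact image_mono h hσ
  have hTP : ∀ (H : AddSubgroup V) (v : V), TP e v ∈ TG e H ↔ v ∈ H := by
    intro H v
    constructor
    · rintro ⟨u, hu, h⟩
      rw [← T_inj e h]
      exact hu
    · intro hv
      exact ⟨v, hv, rfl⟩
  refine ⟨fun a => ⟨TG e (φ a), TG_local e (hcl a)⟩, ?_, fun a b => ⟨⟨?_, ?_⟩, ?_, ?_⟩⟩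
  · intro a b hab
    have h1 : TG e (φ a) = TG e (φ b) := congrArg Subtype.val hab
    apply hinj
    ext v
    rw [← hTP, ← hTP, h1]
  · rintro M (rfl | rfl)
    · show TG e _ ≤ TG e _
      apply hmono
      rw [(hφ a b).1]
      exact inf_le_left
    · show TG e _ ≤ TG e _
      apply hmono
      rw [(hφ a b).1]
      exact inf_le_right
  · intro M hM
    have h1 : M.1 ≤ TG e (φ a) := hM (Or.inl rfl)
    have h2 : M.1 ≤ TG e (φ b) := hM (Or.inr rfl)
    show M.1 ≤ TG e _
    intro f hf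
    obtain ⟨u, hu, hf1⟩ := h1 hf
    obtain ⟨v, hv, hf2⟩ := h2 hf
    rw [T_inj e (hf2.trans hf1.symm)] at hv
    refine ⟨u, ?_, hf1⟩
    rw [(hφ a b).1]
    exact ⟨hu, hv⟩
  · rintro M (rfl | rfl)
    · show TG e _ ≤ TG e _
      apply hmono
      rw [(hφ a b).2]
      exact le_sup_left
    · show TG e _ ≤ TG e _
      apply hmono
      rw [(hφ a b).2]
      exact le_sup_right
  · intro M hM
    have h1 : TG e (φ a) ≤ M.1 := hM (Or.inl rfl)
    have h2 : TG e (φ b) ≤ M.1 := hM (Or.inr rfl)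
    show TG e _ ≤ M.1
    rintro σ ⟨w, hw, hσ⟩
    rw [(hφ a b).2] at hw
    obtain ⟨u, hu, v, hv, rfl⟩ := AddSubgroup.mem_sup.1 hw
    have h3 : σ = TP e u * TP e v := by
      apply Equiv.ext
      intro x
      rw [← hσ, T_add]
      rfl
    rw [h3]
    exact M.1.mul_mem (h1 ((hTP _ _).2 hu)) (h2 ((hTP _ _).2 hv))

end Pool.Agent.H597Z.Mlat
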