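import Mathlib
import Pool.Agent.H597Z.UrGB

set_option autoImplicit false
set_option linter.unreachableTactic false
set_option linter.unusedTactic false

universe u

namespace Pool.Agent.H597Z.Ur

variable {S : Str.{u}} {C : Type u} {cm : S.M → C → Prop}

theorem isP_iff (h : ZCU S) {W : Fin 1 → S.M → Prop} {I t e f e' f' : S.M}
    (h1 : IsP S W I t e f) (h2 : IsP S W I t e' f') (x i : S.M) (hx : ¬ S.ur x)
    (hxI : ∀ j, S.mem j x → S.mem j I) (h3 : Phi S W I e f x i) : Phi S W I e' f' x i := by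
  obtain ⟨q, hq⟩ := op_exists h.pair h.ext x i
  obtain ⟨x', i', h4, _, _, h5⟩ := (h2.2 q).1 ((h1.2 q).2 ⟨x, i, hq, hx, hxI, h3⟩)
  obtain ⟨rfl, rfl⟩ := op_inj h.pair hq h4
  exact h5

theorem phi_single (h : ZCU S) {W : Fin 1 → S.M → Prop}
    (hF1 : ∀ x y z, Rel S (W 0) x y → Rel S (W 0) x z → y = z)
    (hF2 : ∀ x, ¬ S.ur x → (∃ y, S.mem y x) → ∃ y, S.mem y x ∧ Rel S (W 0) x y)
    {I e f x i j : S.M} (hf : Lab S I f) (hx : ∀ t, S.mem t x ↔ t = j) :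
    Phi S W I e f x i ↔ ∃ b, E S I f j b ∧ E S I e i b := by
  constructor
  · rintro ⟨y, b, h1, h2, h3, h4⟩
    obtain ⟨c, hc1, hc2⟩ := hF2 y h1.1 h2
    obtain rfl := hF1 y b c h3 hc2
    obtain ⟨j', h5, h6⟩ := (h1.2 b).1 hc1
    rw [(hx j').1 h5] at h6
    exact ⟨b, h6, h4⟩
  · rintro ⟨b, h1, h2⟩
    obtain ⟨y, hy, hy'⟩ := h.pair b b
    obtain ⟨c, hc1, hc2⟩ := hF2 y hy ⟨b, (hy' b).2 (Or.inl rfl)⟩
    have h3 : c = b := by rcases (hy' c).1 hc1 with h3 | h3 <;> exact h3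
    subst h3
    refine ⟨y, c, ⟨hy, fun d => (hy' d).trans ⟨?_, ?_⟩⟩, ⟨c, hc1⟩, hc2, h2⟩
    · rintro (rfl | rfl) <;> exact ⟨j, (hx j).2 rfl, h1⟩
    · rintro ⟨j', h4, h5⟩
      rw [(hx j').1 h4] at h5
      exact Or.inl (hf j d c h5 h1)

theorem pat (h : ZCU S) {W : Fin 1 → S.M → Prop}
    (hF1 : ∀ x y z, Rel S (W 0) x y → Rel S (W 0) x z → y = z)
    (hF2 : ∀ x, ¬ S.ur x → (∃ y, S.mem y x) → ∃ y, S.mem y x ∧ Rel S (W 0) x y)
    {I t e f e' f' : S.M} (h1 : IsP S W I t e f) (h2 : IsP S W I t e' f')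
    (hf : Lab S I f) (hf' : Lab S I f') {i j b : S.M} (h3 : E S I f j b) (h4 : E S I e i b) :
    ∃ c, E S I f' j c ∧ E S I e' i c := by
  obtain ⟨x, hx, hx'⟩ := h.pair j j
  have hx2 : ∀ t, S.mem t x ↔ t = j := fun t => (hx' t).trans or_self_iff
  rw [← phi_single h hF1 hF2 hf' hx2]
  refine isP_iff h h1 h2 x i hx (fun t ht => ?_) ((phi_single h hF1 hF2 hf hx2).2 ⟨b, h3, h4⟩)
  rw [(hx2 t).1 ht]
  exact h3.1

/-- the sets of indices which are carried into their images -/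
def Good (S : Str.{u}) (I f f' Y : S.M) : Prop :=
  ∀ j, S.mem j Y → (¬ ∃ b, E S I f j b ∧ E S I f' j b) ∧
    ∃ k b, S.mem k Y ∧ E S I f' j b ∧ E S I f k b

theorem GBC.sep5 (h : GBC S C cm) (F : C) (P : S.M → S.M → S.M → S.M → S.M → Prop)
    (hp : D (WW cm F) (fun w : Fin 5 → S.M => P (w 0) (w 1) (w 2) (w 3) (w 4)))
    (a b c d w : S.M) : ∃ s, ¬ S.ur s ∧ ∀ z, S.mem z s ↔ S.mem z w ∧ P z a b c d := by
  obtain ⟨R, hR⟩ := h.classOf F hp ![a, b, c, d]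
  obtain ⟨s, hs, h1⟩ := h.sepCls R w
  exact ⟨s, hs, fun z => (h1 z).trans (and_congr_right fun _ => hR z)⟩

theorem GBC.sigma (h : GBC S C cm) : Sigma S := by
  by_contra hc
  unfold Sigma at hc
  push Not at hc
  obtain ⟨hA, I, hI⟩ := hc
  obtain ⟨F, hF1, hF2⟩ := h.gc
  have hF1' : ∀ x y z, Rel S (WW cm F 0) x y → Rel S (WW cm F 0) x z → y = z := hF1
  have hF2' : ∀ x, ¬ S.ur x → (∃ y, S.mem y x) → ∃ y, S.mem y x ∧ Rel S (WW cm F 0) x y := hF2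
  obtain ⟨v1, hv1⟩ := h.coll1 F I
  obtain ⟨Q, _, hQ⟩ := h.ran F I v1
  obtain ⟨a, ha1, ha2⟩ := hA Q
  obtain ⟨B1, _, hB1⟩ := h.zcu.insert Q a
  obtain ⟨e1, he1, he1'⟩ := hI B1 fun b hb => by
    rcases (hB1 b).1 hb with h1 | rfl
    · obtain ⟨f, _, i, h2⟩ := (hQ b).1 h1
      exact h2.2.1
    · exact ha1
  obtain ⟨_, htp, _⟩ := h.tp F I
  obtain ⟨t, ht⟩ := htp e1
  obtain ⟨e0, he0v, he0, ht0⟩ := hv1 t e1 he1 ht
  obtain ⟨v2, hv2⟩ := h.coll2 F I t e1 ht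
  obtain ⟨v3, _, hv3⟩ := h.zcu.insert v2 e1
  obtain ⟨Q', _, hQ'⟩ := h.ran F I v3
  obtain ⟨f', hf', hf''⟩ := hI Q' fun b hb => by
    obtain ⟨f, _, i, h2⟩ := (hQ' b).1 hb
    exact h2.2.1
  have r01 : RanSub S I e0 e1 := fun i b hb =>
    he1' b ((hB1 b).2 (Or.inl ((hQ b).2 ⟨e0, he0v, i, hb⟩)))
  have r1f' : RanSub S I e1 f' := fun i b hb =>
    hf'' b ((hQ' b).2 ⟨e1, (hv3 e1).2 (Or.inr rfl), i, hb⟩)
  have r0f' : RanSub S I e0 f' := fun i b hb => by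
    obtain ⟨j, hj⟩ := r01 i b hb
    exact r1f' j b hj
  obtain ⟨_, hP, _⟩ := h.tok F I
  obtain ⟨t1, ht1⟩ := hP e0 f'
  obtain ⟨t2, ht2⟩ := hP f' f'
  obtain ⟨q, hq⟩ := op_exists h.zcu.pair h.zcu.ext t1 t2
  obtain ⟨f, hfv, hf, r1f, t1', t2', ht1', ht2', hq'⟩ :=
    hv2 q ((ht0.2 q).2 ⟨f', hf', r0f', t1, t2, ht1, ht2, hq⟩)
  obtain ⟨rfl, rfl⟩ := op_inj h.zcu.pair hq hq'
  have rff' : RanSub S I f f' := fun i b hb =>
    hf'' b ((hQ' b).2 ⟨f, (hv3 f).2 (Or.inl hfv), i, hb⟩)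
  have p1 : ∀ {i j b}, E S I f' j b → E S I e0 i b → ∃ c, E S I f j c ∧ E S I e1 i c :=
    fun h3 h4 => pat h.zcu hF1' hF2' ht1 ht1' hf' hf h3 h4
  have p1' : ∀ {i j b}, E S I f j b → E S I e1 i b → ∃ c, E S I f' j c ∧ E S I e0 i c :=
    fun h3 h4 => pat h.zcu hF1' hF2' ht1' ht1 hf hf' h3 h4
  have p2' : ∀ {i j b}, E S I f j b → E S I f i b → ∃ c, E S I f' j c ∧ E S I f' i c :=
    fun h3 h4 => pat h.zcu hF1' hF2' ht2' ht2 hf hf' h3 h4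
  -- the first good set
  obtain ⟨Y0, _, hY0⟩ := h.sep5 F (fun j I e0 e1 f' => ∃ i b, E S I f' j b ∧ E S I e1 i b ∧
      ¬ E S I e0 i b) (by
    unfold E
    repeat' first
      | exact T.var _
      | apply D.ex | apply D.and | apply D.or | apply D.iff | apply D.not | apply D.all
      | apply D.imp | apply D.mem | apply D.ur | apply D.eq | apply D.cls) I e0 e1 f' I
  have gY0 : Good S I f f' Y0 := by
    intro j hj
    obtain ⟨_, i, b, h1, h2, h3⟩ := (hY0 j).1 hj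
    constructor
    · rintro ⟨c, h4, h5⟩
      obtain rfl := hf' j b c h1 h5
      obtain ⟨d, h6, h7⟩ := p1' h4 h2
      obtain rfl := hf' j b d h1 h6
      exact h3 h7
    · obtain ⟨k, hk⟩ := r1f i b h2
      obtain ⟨c, h4, h5⟩ := p1' hk h2
      refine ⟨k, b, (hY0 k).2 ⟨hk.1, ?_⟩, h1, hk⟩
      obtain ⟨i', hi'⟩ := r01 i c h5
      refine ⟨i', c, h4, hi', fun h6 => ?_⟩
      obtain ⟨d, h7, h8⟩ := p1 h4 h6
      obtain rfl := he1 i' c d hi' h8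
      obtain rfl := hf k b c hk h7
      exact h3 h5
  obtain ⟨ia, hia⟩ := he1' a ((hB1 a).2 (Or.inr rfl))
  obtain ⟨ja, hja⟩ := r1f' ia a hia
  have hjaY : S.mem ja Y0 :=
    (hY0 ja).2 ⟨hja.1, ia, a, hja, hia, fun h1 => ha2 ((hQ a).2 ⟨e0, he0v, ia, h1⟩)⟩
  -- the largest good set
  obtain ⟨X, hXs, hX⟩ := h.sep F (fun j I f f' => ∃ Y, S.mem j Y ∧ Good S I f f' Y) (by
    unfold Good E
    repeat' first
      | exact T.var _
      | apply D.ex | apply D.and | apply D.or | apply D.iff | apply D.not | apply D.all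
      | apply D.imp | apply D.mem | apply D.ur | apply D.eq | apply D.cls) I f f' I
  have hXmem : ∀ Y j, Good S I f f' Y → S.mem j Y → S.mem j X := by
    intro Y j hY hj
    obtain ⟨_, k, b, _, h1, _⟩ := hY j hj
    exact (hX j).2 ⟨h1.1, Y, hj, hY⟩
  obtain ⟨y, hy⟩ := h.img F I f' X
  have hy2 : Img S I f X y := by
    refine ⟨hy.1, fun b => (hy.2 b).trans ⟨?_, ?_⟩⟩
    · rintro ⟨j, hj, h1⟩
      obtain ⟨_, Y, hjY, hY⟩ := (hX j).1 hj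
      obtain ⟨_, k, c, h2, h3, h4⟩ := hY j hjY
      obtain rfl := hf' j b c h1 h3
      exact ⟨k, hXmem Y k hY h2, h4⟩
    · rintro ⟨k, hk, h1⟩
      obtain ⟨_, Y, hkY, hY⟩ := (hX k).1 hk
      obtain ⟨j, hj⟩ := rff' k b h1
      obtain ⟨Y', _, hY'⟩ := h.zcu.insert Y j
      refine ⟨j, hXmem Y' j (fun l hl => ?_) ((hY' j).2 (Or.inr rfl)), hj⟩
      rcases (hY' l).1 hl with h2 | rfl
      · obtain ⟨h3, k', c, h4, h5, h6⟩ := hY l h2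
        exact ⟨h3, k', c, (hY' k').2 (Or.inl h4), h5, h6⟩
      · refine ⟨?_, k, b, (hY' k).2 (Or.inl hkY), hj, h1⟩
        rintro ⟨c, h3, h4⟩
        obtain rfl := hf' l b c hj h4
        obtain ⟨d, h5, h6⟩ := p2' h3 h1
        obtain rfl := hf' l b d hj h5
        exact (hY k hkY).1 ⟨b, h1, h6⟩
  have hyne : ∃ c, S.mem c y := ⟨a, (hy.2 a).2 ⟨ja, hXmem Y0 ja gY0 hjaY, hja⟩⟩
  obtain ⟨b, hb1, hb2⟩ := hF2' y hy.1 hyne
  obtain ⟨i, hi, hib⟩ := (hy.2 b).1 hb1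
  obtain ⟨y', b', h1, _, h2, h3⟩ := isP_iff h.zcu ht2 ht2' X i hXs (fun j hj => ((hX j).1 hj).1)
    ⟨y, b, hy, hyne, hb2, hib⟩
  obtain rfl : y = y' := h.zcu.ext y y' hy.1 h1.1 fun z => (hy2.2 z).trans (h1.2 z).symm
  obtain rfl := hF1' y b b' hb2 h2
  obtain ⟨_, Y, hiY, hY⟩ := (hX i).1 hi
  exact (hY i hiY).1 ⟨b, h3, hib⟩

end Pool.Agent.H597Z.Ur
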