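import Mathlib
import Pool.Agent.H597Z.UrBasic

set_option autoImplicit false

namespace Pool.Agent.H597Z.Ur

/-- well-founded trees with urelements at some leaves -/
inductive PU (A : Type) : Type 1
  | ur (a : A) : PU A
  | mk (ι : Type) (f : ι → PU A) : PU A

namespace PU

variable {A : Type}

/-- extensional equivalence -/
def Eqv : PU A → PU A → Prop
  | ur a, ur b => a = b
  | mk _ f, mk _ g => (∀ i, ∃ j, Eqv (f i) (g j)) ∧ ∀ j, ∃ i, Eqv (f i) (g j)
  | ur _, mk _ _ => False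
  | mk _ _, ur _ => False

theorem Eqv.refl : ∀ x : PU A, Eqv x x
  | ur _ => rfl
  | mk _ f => ⟨fun i => ⟨i, Eqv.refl (f i)⟩, fun i => ⟨i, Eqv.refl (f i)⟩⟩

theorem Eqv.symm : ∀ {x y : PU A}, Eqv x y → Eqv y x
  | ur _, ur _, h => Eq.symm h
  | mk _ _, mk _ _, h => ⟨fun j => let ⟨i, hi⟩ := h.2 j; ⟨i, Eqv.symm hi⟩,
      fun i => let ⟨j, hj⟩ := h.1 i; ⟨j, Eqv.symm hj⟩⟩
  | ur _, mk _ _, h => h.elim
  | mk _ _, ur _, h => h.elim

theorem Eqv.trans : ∀ {x y z : PU A}, Eqv x y → Eqv y z → Eqv x z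
  | ur _, ur _, ur _, h, h' => Eq.trans h h'
  | mk _ _, mk _ _, mk _ _, h, h' =>
    ⟨fun i => let ⟨j, hj⟩ := h.1 i; let ⟨k, hk⟩ := h'.1 j; ⟨k, Eqv.trans hj hk⟩,
      fun k => let ⟨j, hj⟩ := h'.2 k; let ⟨i, hi⟩ := h.2 j; ⟨i, Eqv.trans hi hj⟩⟩
  | ur _, mk _ _, _, h, _ => h.elim
  | mk _ _, ur _, _, h, _ => h.elim
  | ur _, ur _, mk _ _, _, h => h.elim
  | mk _ _, mk _ _, ur _, _, h => h.elim

instance setoid (A : Type) : Setoid (PU A) := ⟨Eqv, Eqv.refl, Eqv.symm, Eqv.trans⟩

/-- membership -/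
def Mem (x : PU A) : PU A → Prop
  | ur _ => False
  | mk _ f => ∃ i, Eqv x (f i)

theorem Mem.congr {x x' : PU A} (hx : Eqv x x') : ∀ {y y' : PU A}, Eqv y y' → Mem x y → Mem x' y'
  | ur _, _, _, h => h.elim
  | mk _ _, ur _, h, _ => h.elim
  | mk _ _, mk _ _, h, ⟨i, hi⟩ => let ⟨j, hj⟩ := h.1 i; ⟨j, hx.symm.trans (hi.trans hj)⟩

/-- the set of urelements in the transitive closure -/
def ker : PU A → Set A
  | ur a => {a}
  | mk _ f => ⋃ i, ker (f i)

theorem ker_congr : ∀ {x y : PU A}, Eqv x y → ker x = ker y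
  | ur a, ur b, h => by rw [show a = b from h]
  | mk _ f, mk _ g, h => by
    apply Set.Subset.antisymm
    · refine Set.iUnion_subset fun i => ?_
      obtain ⟨j, hj⟩ := h.1 i
      rw [ker_congr hj]
      exact Set.subset_iUnion (fun j => ker (g j)) j
    · refine Set.iUnion_subset fun j => ?_
      obtain ⟨i, hi⟩ := h.2 j
      rw [← ker_congr hi]
      exact Set.subset_iUnion (fun i => ker (f i)) i
  | ur _, mk _ _, h => h.elim
  | mk _ _, ur _, h => h.elim

/-- the action of a map of the urelements -/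
def map (π : A → A) : PU A → PU A
  | ur a => ur (π a)
  | mk ι f => mk ι fun i => map π (f i)

theorem map_congr (π : A → A) : ∀ {x y : PU A}, Eqv x y → Eqv (map π x) (map π y)
  | ur _, ur _, h => congrArg π h
  | mk _ _, mk _ _, h => ⟨fun i => let ⟨j, hj⟩ := h.1 i; ⟨j, map_congr π hj⟩,
      fun j => let ⟨i, hi⟩ := h.2 j; ⟨i, map_congr π hi⟩⟩
  | ur _, mk _ _, h => h.elim
  | mk _ _, ur _, h => h.elim

theorem map_map (π ρ : A → A) : ∀ x : PU A, map π (map ρ x) = map (π ∘ ρ) x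
  | ur _ => rfl
  | mk ι f => by
    simp only [map]
    congr 1
    funext i
    exact map_map π ρ (f i)

theorem map_fix (π : A → A) : ∀ x : PU A, (∀ a ∈ ker x, π a = a) → map π x = x
  | ur a, h => by simp only [map]; rw [h a rfl]
  | mk ι f, h => by
    simp only [map]
    congr 1
    funext i
    exact map_fix π (f i) fun a ha => h a (Set.mem_iUnion.2 ⟨i, ha⟩)

theorem ker_map (π : A → A) : ∀ x : PU A, ker (map π x) = π '' ker x
  | ur _ => by simp [map, ker]
  | mk _ f => by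
    simp only [map, ker, Set.image_iUnion]
    congr 1
    funext i
    exact ker_map π (f i)

theorem mem_map (π : A → A) {x : PU A} : ∀ {y : PU A}, Mem x y → Mem (map π x) (map π y)
  | ur _, h => h.elim
  | mk _ _, ⟨i, hi⟩ => ⟨i, map_congr π hi⟩

theorem acc : ∀ x y : PU A, Eqv y x → Acc Mem y
  | ur _, ur _, _ => ⟨_, fun _ h => h.elim⟩
  | ur _, mk _ _, h => h.elim
  | mk _ _, ur _, h => h.elim
  | mk _ f, mk _ _, h => ⟨_, fun z ⟨i, hi⟩ => let ⟨j, hj⟩ := h.1 i; acc (f j) z (hi.trans hj)⟩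

end PU

/-- the universe with urelements -/
def Z (A : Type) : Type 1 := Quotient (PU.setoid A)

namespace Z

variable {A : Type}

/-- class of a tree -/
def of (x : PU A) : Z A := Quotient.mk (PU.setoid A) x

theorem of_eq {x y : PU A} : of x = of y ↔ PU.Eqv x y := Quotient.eq

theorem ind {p : Z A → Prop} (h : ∀ x, p (of x)) (z : Z A) : p z := Quotient.ind h z

/-- membership -/
def Mem : Z A → Z A → Prop :=
  Quotient.lift₂ PU.Mem fun _ _ _ _ h1 h2 =>
    propext ⟨PU.Mem.congr h1 h2, PU.Mem.congr (PU.Eqv.symm h1) (PU.Eqv.symm h2)⟩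

theorem mem_of (x y : PU A) : Mem (of x) (of y) ↔ PU.Mem x y := Iff.rfl

/-- urelements -/
def ur (a : A) : Z A := of (.ur a)

/-- being a urelement -/
def IsUr (x : Z A) : Prop := ∃ a, x = ur a

/-- kernel -/
def ker : Z A → Set A := Quotient.lift PU.ker fun _ _ h => PU.ker_congr h

theorem ker_of (x : PU A) : ker (of x) = PU.ker x := rfl

theorem ker_ur (a : A) : ker (ur a) = {a} := rfl

theorem ur_inj {a b : A} (h : ur a = ur b) : a = b := of_eq.1 h

/-- action -/
def map (π : A → A) : Z A → Z A := Quotient.map (PU.map π) fun _ _ h => PU.map_congr π h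

theorem map_of (π : A → A) (x : PU A) : map π (of x) = of (PU.map π x) := rfl

theorem map_map (π ρ : A → A) (x : Z A) : map π (map ρ x) = map (π ∘ ρ) x := by
  induction x using ind with
  | h x => rw [map_of, map_of, map_of, PU.map_map]

theorem map_fix (π : A → A) (x : Z A) (h : ∀ a ∈ ker x, π a = a) : map π x = x := by
  induction x using ind with
  | h x => rw [map_of, PU.map_fix π x h]

theorem ker_map (π : A → A) (x : Z A) : ker (map π x) = π '' ker x := by
  induction x using ind with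
  | h x => rw [map_of, ker_of, ker_of, PU.ker_map]

theorem mem_map (π : A → A) {x y : Z A} (h : Mem x y) : Mem (map π x) (map π y) := by
  induction x using ind with
  | h x =>
    induction y using ind with
    | h y => exact PU.mem_map π h

theorem isUr_map (π : A → A) {x : Z A} (h : IsUr x) : IsUr (map π x) := by
  obtain ⟨a, rfl⟩ := h
  exact ⟨π a, rfl⟩

theorem not_mem_ur {x y : Z A} (h : IsUr x) : ¬ Mem y x := by
  obtain ⟨a, rfl⟩ := h
  induction y using ind with
  | h y => exact fun h => h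

theorem not_isUr_mk (ι : Type) (f : ι → PU A) : ¬ IsUr (of (.mk ι f)) := by
  rintro ⟨a, h⟩
  exact of_eq.1 h

theorem mem_mk (ι : Type) (f : ι → PU A) (z : Z A) :
    Mem z (of (.mk ι f)) ↔ ∃ i, z = of (f i) := by
  induction z using ind with
  | h z => simp only [of_eq]; rfl

theorem cases (x : Z A) : IsUr x ∨ ∃ ι f, x = of (.mk ι f) := by
  induction x using ind with
  | h x =>
    cases x with
    | ur a => exact Or.inl ⟨a, rfl⟩
    | mk ι f => exact Or.inr ⟨ι, f, rfl⟩

theorem ext {x y : Z A} (hx : ¬ IsUr x) (hy : ¬ IsUr y) (h : ∀ z, Mem z x ↔ Mem z y) : x = y := by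
  obtain ⟨ι, f, rfl⟩ := (cases x).resolve_left hx
  obtain ⟨κ, g, rfl⟩ := (cases y).resolve_left hy
  simp only [mem_mk] at h
  refine of_eq.2 ⟨fun i => ?_, fun j => ?_⟩
  · obtain ⟨j, hj⟩ := (h _).1 ⟨i, rfl⟩
    exact ⟨j, of_eq.1 hj⟩
  · obtain ⟨i, hi⟩ := (h _).2 ⟨j, rfl⟩
    exact ⟨i, of_eq.1 hi.symm⟩

theorem small_mem (x : Z A) : Small.{0} {y | Mem y x} := by
  rcases cases x with h | ⟨ι, f, rfl⟩
  · have : {y | Mem y x} = ∅ := Set.eq_empty_of_forall_notMem fun y hy => not_mem_ur h hy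
    rw [this]
    infer_instance
  · have : {y | Mem y (of (.mk ι f))} = Set.range fun i => of (f i) := by
      ext y
      simp only [Set.mem_ofPred_eq, mem_mk, Set.mem_range, eq_comm]
    rw [this]
    infer_instance

theorem mem_ker {x : Z A} (hx : ¬ IsUr x) (a : A) : a ∈ ker x ↔ ∃ y, Mem y x ∧ a ∈ ker y := by
  obtain ⟨ι, f, rfl⟩ := (cases x).resolve_left hx
  simp only [mem_mk]
  rw [ker_of, PU.ker, Set.mem_iUnion]
  constructor
  · rintro ⟨i, hi⟩
    exact ⟨_, ⟨i, rfl⟩, hi⟩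
  · rintro ⟨_, ⟨i, rfl⟩, hi⟩
    exact ⟨i, hi⟩

theorem ker_mono {x y : Z A} (h : Mem y x) : ker y ⊆ ker x := fun a ha =>
  (mem_ker (fun hx => not_mem_ur hx h) a).2 ⟨y, h, ha⟩

theorem exists_set (s : Set (Z A)) [Small.{0} s] : ∃ x, ¬ IsUr x ∧ ∀ y, Mem y x ↔ y ∈ s := by
  refine ⟨of (.mk (Shrink.{0} s) fun i => Quotient.out ((equivShrink s).symm i).1),
    not_isUr_mk _ _, fun y => ?_⟩
  rw [mem_mk]
  constructor
  · rintro ⟨i, rfl⟩
    have : of (Quotient.out ((equivShrink s).symm i).1) = ((equivShrink s).symm i).1 :=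
      Quotient.out_eq _
    rw [this]
    exact ((equivShrink s).symm i).2
  · intro hy
    refine ⟨equivShrink s ⟨y, hy⟩, ?_⟩
    rw [Equiv.symm_apply_apply]
    exact (Quotient.out_eq _).symm

theorem wf : WellFounded (Mem : Z A → Z A → Prop) := by
  refine ⟨fun x => ?_⟩
  induction x using ind with
  | h x =>
    have h := PU.acc x x (PU.Eqv.refl x)
    induction h with
    | intro x _ ih =>
      refine ⟨_, fun y hy => ?_⟩
      induction y using ind with
      | h y => exact ih y hy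

end Z

end Pool.Agent.H597Z.Ur
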