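import Mathlib
import Pool.Agent.H597Z.UrPU

set_option autoImplicit false

namespace Pool.Agent.H597Z.Ur

/-- the objects with countable kernel -/
def U (A : Type) : Str.{1} where
  M := {x : Z A // (Z.ker x).Countable}
  mem := fun x y => Z.Mem x.1 y.1
  ur := fun x => Z.IsUr x.1

variable {A : Type}

theorem U_small (w : (U A).M) : Small.{0} {y : (U A).M | (U A).mem y w} := by
  have := Z.small_mem w.1
  exact small_of_injective (β := {y | Z.Mem y w.1}) (f := fun y => ⟨y.1.1, y.2⟩)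
    fun y z h => Subtype.ext (Subtype.ext (congrArg (fun t : {y | Z.Mem y w.1} => t.1) h))

theorem U_set (s : Set (U A).M) [Small.{0} s] (K : Set A) (hK : K.Countable)
    (hs : ∀ y ∈ s, Z.ker y.1 ⊆ K) :
    ∃ x : (U A).M, ¬ (U A).ur x ∧ (∀ y, (U A).mem y x ↔ y ∈ s) ∧ Z.ker x.1 ⊆ K := by
  obtain ⟨x, hx, h1⟩ := Z.exists_set ((fun y : (U A).M => y.1) '' s)
  have h2 : Z.ker x ⊆ K := by
    intro a ha
    obtain ⟨y, hy, h3⟩ := (Z.mem_ker hx a).1 ha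
    obtain ⟨z, hz, rfl⟩ := (h1 y).1 hy
    exact hs z hz h3
  refine ⟨⟨x, hK.mono h2⟩, hx, fun y => (h1 y.1).trans ⟨?_, fun hy => ⟨y, hy, rfl⟩⟩, h2⟩
  rintro ⟨z, hz, h3⟩
  rw [← Subtype.ext h3]
  exact hz

theorem U_ext (x y : (U A).M) (hx : ¬ (U A).ur x) (hy : ¬ (U A).ur y)
    (h : ∀ z, (U A).mem z x ↔ (U A).mem z y) : x = y := by
  refine Subtype.ext (Z.ext hx hy fun z => ⟨fun hz => ?_, fun hz => ?_⟩)
  · exact (h ⟨z, x.2.mono (Z.ker_mono hz)⟩).1 hz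
  · exact (h ⟨z, y.2.mono (Z.ker_mono hz)⟩).2 hz

theorem U_sub (w : (U A).M) (P : (U A).M → Prop) :
    ∃ a : (U A).M, ¬ (U A).ur a ∧ ∀ z, (U A).mem z a ↔ (U A).mem z w ∧ P z := by
  have := U_small w
  have h1 : Small.{0} {z : (U A).M | (U A).mem z w ∧ P z} :=
    small_subset (t := {z : (U A).M | (U A).mem z w ∧ P z})
      (s := {y : (U A).M | (U A).mem y w}) fun z hz => hz.1
  obtain ⟨a, ha, h2, _⟩ := U_set {z : (U A).M | (U A).mem z w ∧ P z} (Z.ker w.1) w.2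
    fun y hy => Z.ker_mono hy.1
  exact ⟨a, ha, h2⟩

theorem U_pair' (x y : (U A).M) : ∃ p : (U A).M, ¬ (U A).ur p ∧
    (∀ z, (U A).mem z p ↔ z = x ∨ z = y) ∧ Z.ker p.1 ⊆ Z.ker x.1 ∪ Z.ker y.1 := by
  obtain ⟨a, ha, h2, h3⟩ := U_set {x, y} (Z.ker x.1 ∪ Z.ker y.1) (x.2.union y.2) (by
    rintro z (rfl | rfl)
    · exact Set.subset_union_left
    · exact Set.subset_union_right)
  exact ⟨a, ha, h2, h3⟩

theorem U_pair (x y : (U A).M) : ∃ p : (U A).M, ¬ (U A).ur p ∧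
    ∀ z, (U A).mem z p ↔ z = x ∨ z = y := by
  obtain ⟨p, h1, h2, _⟩ := U_pair' x y
  exact ⟨p, h1, h2⟩

theorem U_op_ker {p x y : (U A).M} (h : OP (U A) p x y) :
    Z.ker p.1 ⊆ Z.ker x.1 ∪ Z.ker y.1 := by
  intro a ha
  obtain ⟨z, hz, h1⟩ := (Z.mem_ker h.1 a).1 ha
  obtain ⟨h2, h3⟩ := (h.2 ⟨z, p.2.mono (Z.ker_mono hz)⟩).1 hz
  obtain ⟨t, ht, h4⟩ := (Z.mem_ker h2 a).1 h1
  have h5 : (Z.ker t).Countable := (p.2.mono (Z.ker_mono hz)).mono (Z.ker_mono ht)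
  rcases h3 with h3 | h3
  · rw [← (h3 ⟨t, h5⟩).1 ht]
    exact Or.inl h4
  · rcases (h3 ⟨t, h5⟩).1 ht with h6 | h6
    · rw [← h6]; exact Or.inl h4
    · rw [← h6]; exact Or.inr h4

theorem U_range {ι : Type 1} [Small.{0} ι] (g : ι → (U A).M) (K : Set A) (hK : K.Countable)
    (hs : ∀ i, Z.ker (g i).1 ⊆ K) :
    ∃ x : (U A).M, ¬ (U A).ur x ∧ ∀ y, (U A).mem y x ↔ ∃ i, g i = y := by
  obtain ⟨a, ha, h2, _⟩ := U_set (Set.range g) K hK (by rintro _ ⟨i, rfl⟩; exact hs i)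
  exact ⟨a, ha, h2⟩

theorem U_succ (x : (U A).M) : ∃ s : (U A).M, ¬ (U A).ur s ∧
    (∀ z, (U A).mem z s ↔ (U A).mem z x ∨ z = x) ∧ Z.ker s.1 ⊆ Z.ker x.1 := by
  have := U_small x
  obtain ⟨a, ha, h2, h3⟩ := U_set ({y : (U A).M | (U A).mem y x} ∪ {x}) (Z.ker x.1) x.2 (by
    rintro z (hz | rfl)
    · exact Z.ker_mono hz
    · exact subset_rfl)
  exact ⟨a, ha, h2, h3⟩

theorem U_nat : ∃ N : ℕ → (U A).M, (∀ n, ¬ (U A).ur (N n)) ∧ (∀ n, Z.ker (N n).1 ⊆ ∅) ∧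
    (∀ z, ¬ (U A).mem z (N 0)) ∧
    (∀ n z, (U A).mem z (N (n + 1)) ↔ (U A).mem z (N n) ∨ z = N n) ∧ Function.Injective N := by
  obtain ⟨e, he1, he2, he3⟩ := U_set (∅ : Set (U A).M) ∅ Set.countable_empty (by simp)
  choose su h1 h2 h3 using U_succ (A := A)
  let N : ℕ → (U A).M := fun n => Nat.rec e (fun _ x => su x) n
  have hN : ∀ n, N (n + 1) = su (N n) := fun n => rfl
  have hlt : ∀ m n, m < n → (U A).mem (N m) (N n) := by
    intro m n hmn
    induction n, hmn using Nat.le_induction with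
    | base => exact (h2 _ _).2 (Or.inr rfl)
    | succ n _ ih => exact (h2 _ _).2 (Or.inl ih)
  have hirr : ∀ x : (U A).M, ¬ (U A).mem x x := fun x hx => Z.wf.asymmetric _ _ hx hx
  refine ⟨N, fun n => ?_, fun n => ?_, fun z hz => (he2 z).1 hz, fun n z => h2 _ z, ?_⟩
  · cases n with
    | zero => exact he1
    | succ n => exact h1 _
  · induction n with
    | zero => exact he3
    | succ n ih => exact (h3 _).trans ih
  · intro m n h
    rcases lt_trichotomy m n with h4 | h4 | h4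
    · exact absurd (h ▸ hlt m n h4) (hirr _)
    · exact h4
    · exact absurd (h ▸ hlt n m h4) (hirr _)

theorem U_omega : ∃ N : ℕ → (U A).M, (∀ n, ¬ (U A).ur (N n)) ∧ (∀ n, Z.ker (N n).1 ⊆ ∅) ∧
    (∀ z, ¬ (U A).mem z (N 0)) ∧
    (∀ n z, (U A).mem z (N (n + 1)) ↔ (U A).mem z (N n) ∨ z = N n) ∧ Function.Injective N ∧
    ∃ I : (U A).M, ∀ y, (U A).mem y I ↔ ∃ n, N n = y := by
  obtain ⟨N, h1, h2, h3, h4, h5⟩ := U_nat (A := A)
  obtain ⟨I, _, hI, _⟩ := U_set (Set.range N) ∅ Set.countable_empty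
    (by rintro _ ⟨i, rfl⟩; exact h2 i)
  exact ⟨N, h1, h2, h3, h4, h5, I, hI⟩

theorem U_zcu : ZCU (U A) where
  urEmpty := fun _ _ h => Z.not_mem_ur h
  ext := U_ext
  found := by
    rintro x ⟨y, hy⟩
    obtain ⟨m, hm, h1⟩ := Z.wf.has_min {z | Z.Mem z x.1} ⟨y.1, hy⟩
    exact ⟨⟨m, x.2.mono (Z.ker_mono hm)⟩, hm, fun z hz hzx => h1 z.1 hzx hz⟩
  pair := U_pair
  union := by
    intro x _
    have := U_small x
    have h0 := fun y : (U A).M => U_small y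
    have h1 : {z : (U A).M | ∃ y, (U A).mem y x ∧ (U A).mem z y} =
        ⋃ y : {y : (U A).M | (U A).mem y x}, {z | (U A).mem z y.1} := by
      ext z
      simp only [Set.mem_ofPred_eq, Set.mem_iUnion]
      exact ⟨fun ⟨y, h1, h2⟩ => ⟨⟨y, h1⟩, h2⟩, fun ⟨y, h2⟩ => ⟨y.1, y.2, h2⟩⟩
    have h2 : Small.{0} {z : (U A).M | ∃ y, (U A).mem y x ∧ (U A).mem z y} := by
      rw [h1]
      exact small_iUnion _
    obtain ⟨a, ha, h3, _⟩ := U_set {z : (U A).M | ∃ y, (U A).mem y x ∧ (U A).mem z y}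
      (Z.ker x.1) x.2 fun z ⟨y, h3, h4⟩ => (Z.ker_mono h4).trans (Z.ker_mono h3)
    exact ⟨a, ha, h3⟩
  power := by
    intro x _
    have := U_small x
    have h2 : Small.{0} {z : (U A).M | ¬ (U A).ur z ∧ ∀ t, (U A).mem t z → (U A).mem t x} := by
      refine small_of_injective (β := Set {y : (U A).M | (U A).mem y x})
        (f := fun z => {t | (U A).mem t.1 z.1}) fun y z h => Subtype.ext ?_
      refine U_ext _ _ y.2.1 z.2.1 fun t => ⟨fun ht => ?_, fun ht => ?_⟩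
      · exact (Set.ext_iff.1 h ⟨t, y.2.2 t ht⟩).1 ht
      · exact (Set.ext_iff.1 h ⟨t, z.2.2 t ht⟩).2 ht
    obtain ⟨a, ha, h3, _⟩ := U_set
      {z : (U A).M | ¬ (U A).ur z ∧ ∀ t, (U A).mem t z → (U A).mem t x} (Z.ker x.1) x.2 (by
      intro z hz a ha
      obtain ⟨t, ht, h4⟩ := (Z.mem_ker hz.1 a).1 ha
      exact Z.ker_mono (hz.2 ⟨t, z.2.mono (Z.ker_mono ht)⟩ ht) h4)
    exact ⟨a, ha, h3⟩
  inf := by
    obtain ⟨N, h1, _, h3, h4, _, I, hI⟩ := U_omega (A := A)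
    refine ⟨I, ⟨N 0, (hI _).2 ⟨0, rfl⟩, h1 0, h3⟩, fun x hx => ?_⟩
    obtain ⟨n, rfl⟩ := (hI x).1 hx
    exact ⟨N (n + 1), (hI _).2 ⟨n + 1, rfl⟩, h1 _, h4 n⟩
  sep := fun _ _ _ w _ => U_sub w _
  ac := by
    intro x _
    have := U_small x
    choose op hop using op_exists (S := U A) U_pair U_ext
    obtain ⟨r, wo⟩ := exists_wellFoundedLT (U A).M
    obtain ⟨R, hR, h1⟩ := U_range (fun q : {q : {y : (U A).M | (U A).mem y x} ×
        {y : (U A).M | (U A).mem y x} // q.1.1 ≤ q.2.1} => op q.1.1.1 q.1.2.1) (Z.ker x.1) x.2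
      fun q => (U_op_ker (hop _ _)).trans
        (Set.union_subset (Z.ker_mono q.1.1.2) (Z.ker_mono q.1.2.2))
    have h2 : ∀ a b, (U A).mem a x → (U A).mem b x →
        (Rel (U A) (fun p => (U A).mem p R) a b ↔ a ≤ b) := by
      intro a b ha hb
      constructor
      · rintro ⟨p, hp, h3⟩
        obtain ⟨q, rfl⟩ := (h1 p).1 hp
        obtain ⟨rfl, rfl⟩ := op_inj (S := U A) U_pair h3 (hop _ _)
        exact q.2
      · intro hab
        exact ⟨op a b, (h1 _).2 ⟨⟨(⟨a, ha⟩, ⟨b, hb⟩), hab⟩, rfl⟩, hop a b⟩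
    refine ⟨R, hR, fun a b ha hb h3 h4 => le_antisymm ((h2 a b ha hb).1 h3) ((h2 b a hb ha).1 h4),
      fun a b c ha hb hc h3 h4 => (h2 a c ha hc).2 (((h2 a b ha hb).1 h3).trans
        ((h2 b c hb hc).1 h4)), fun y hy hne => ?_⟩
    obtain ⟨m, hm, h3⟩ := wellFounded_lt.has_min {z | (U A).mem z y} hne
    exact ⟨m, hm, fun b hb => (h2 m b (hy m hm) (hy b hb)).2 (not_lt.1 (h3 b hb))⟩

/-- the action of a permutation of the urelements -/
def Umap (π : A ≃ A) (x : (U A).M) : (U A).M :=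
  ⟨Z.map π x.1, by rw [Z.ker_map]; exact x.2.image π⟩

theorem Umap_symm (π : A ≃ A) (x : (U A).M) : Umap π.symm (Umap π x) = x := by
  apply Subtype.ext
  show Z.map π.symm (Z.map π x.1) = x.1
  rw [Z.map_map]
  exact Z.map_fix _ _ fun a _ => π.symm_apply_apply a

theorem Umap_symm' (π : A ≃ A) (x : (U A).M) : Umap π (Umap π.symm x) = x :=
  Umap_symm π.symm x

theorem sat_map (π : A ≃ A) : ∀ {n : ℕ} (φ : Fml Empty n) (v : Fin n → (U A).M),
    Sat (U A) Empty.elim φ (fun i => Umap π (v i)) ↔ Sat (U A) Empty.elim φ v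
  | _, .mem i j, v => by
    refine ⟨fun h => ?_, fun h => Z.mem_map π h⟩
    have h1 : (U A).mem (Umap π.symm (Umap π (v i))) (Umap π.symm (Umap π (v j))) :=
      Z.mem_map π.symm h
    rwa [Umap_symm, Umap_symm] at h1
  | _, .eq i j, v => by
    refine ⟨fun h => ?_, fun h => congrArg (Umap π) h⟩
    have h1 := congrArg (Umap π.symm) h
    simp only [Umap_symm] at h1
    exact h1
  | _, .ur i, v => by
    refine ⟨fun h => ?_, fun h => Z.isUr_map π h⟩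
    have h1 : (U A).ur (Umap π.symm (Umap π (v i))) := Z.isUr_map π.symm h
    rwa [Umap_symm] at h1
  | _, .cls _ k, _ => k.elim
  | _, .bot, _ => Iff.rfl
  | _, .imp φ ψ, v => imp_congr (sat_map π φ v) (sat_map π ψ v)
  | _, .all φ, v => by
    have h1 : ∀ x, (Fin.cons (Umap π x) (fun i => Umap π (v i)) : Fin _ → (U A).M) =
        fun i => Umap π ((Fin.cons x v : Fin _ → (U A).M) i) := by
      intro x
      funext i
      refine Fin.cases rfl (fun i => rfl) i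
    constructor
    · intro h x
      rw [← sat_map π φ, ← h1]
      exact h _
    · intro h x
      rw [← Umap_symm' π x, h1, sat_map π φ]
      exact h _

theorem exists_perm [Uncountable A] (K : Set A) (hK : K.Countable) :
    ∃ K' : Set A, K'.Countable ∧ ∀ L : Set A, L.Countable →
      ∃ π : A ≃ A, (∀ a ∈ K, π a = a) ∧ π '' L ⊆ K' := by
  classical
  have hinf : Kᶜ.Infinite := by
    intro h
    have := hK.union h.countable
    rw [Set.union_compl_self] at this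
    exact Set.not_countable_univ this
  let g := hinf.natEmbedding
  refine ⟨K ∪ Set.range fun n => (g n : A), hK.union (Set.countable_range _), fun L hL => ?_⟩
  obtain ⟨h, hh⟩ := Set.countable_iff_exists_injOn.1 (hK.union hL)
  let f : (K ∪ L : Set A) ↪ A := ⟨fun a => if a.1 ∈ K then a.1 else g (h a.1), by
    intro a b hab
    simp only at hab
    apply Subtype.ext
    split_ifs at hab with h1 h2 h2
    · exact hab
    · exact absurd (hab ▸ h1) (g (h b.1)).2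
    · exact absurd (hab ▸ h2) (g (h a.1)).2
    · exact hh a.2 b.2 (g.injective (Subtype.ext hab))⟩
  obtain ⟨π, hπ⟩ := Cardinal.extend_function_of_lt f
    (lt_of_le_of_lt (hK.union hL).le_aleph0 Cardinal.aleph0_lt_mk) ⟨Equiv.refl A⟩
  refine ⟨π, fun a ha => ?_, ?_⟩
  · rw [hπ ⟨a, Or.inl ha⟩]
    exact if_pos ha
  · rintro _ ⟨a, ha, rfl⟩
    rw [hπ ⟨a, Or.inr ha⟩]
    show (if a ∈ K then a else g (h a)) ∈ _
    split_ifs with h1
    · exact Or.inl h1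
    · exact Or.inr ⟨h a, rfl⟩

theorem U_coll [Uncountable A] (n : ℕ) (φ : Fml Empty (n + 2)) (v : Fin n → (U A).M)
    (w : (U A).M) (h : ∀ x, (U A).mem x w →
      ∃ y, Sat (U A) Empty.elim φ (Fin.cons y (Fin.cons x v))) :
    ∃ a, ¬ (U A).ur a ∧ ∀ x, (U A).mem x w →
      ∃ y, (U A).mem y a ∧ Sat (U A) Empty.elim φ (Fin.cons y (Fin.cons x v)) := by
  have := U_small w
  obtain ⟨K', hK', h1⟩ := exists_perm (Z.ker w.1 ∪ ⋃ i, Z.ker (v i).1)
    (w.2.union (Set.countable_iUnion fun i => (v i).2))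
  have h2 : ∀ x : {y : (U A).M | (U A).mem y w}, ∃ y : (U A).M, Z.ker y.1 ⊆ K' ∧
      Sat (U A) Empty.elim φ (Fin.cons y (Fin.cons x.1 v)) := by
    intro x
    obtain ⟨y, hy⟩ := h x.1 x.2
    obtain ⟨π, hπ1, hπ2⟩ := h1 (Z.ker y.1) y.2
    refine ⟨Umap π y, ?_, ?_⟩
    · show Z.ker (Z.map π y.1) ⊆ K'
      rw [Z.ker_map]
      exact hπ2
    · rw [← sat_map π] at hy
      convert hy using 1
      funext i
      refine Fin.cases rfl (fun i => Fin.cases ?_ (fun i => ?_) i) i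
      · exact (Subtype.ext (Z.map_fix _ _ fun a ha => hπ1 a (Or.inl (Z.ker_mono x.2 ha)))).symm
      · exact (Subtype.ext (Z.map_fix _ _ fun a ha =>
          hπ1 a (Or.inr (Set.mem_iUnion.2 ⟨i, ha⟩)))).symm
  choose g hg1 hg2 using h2
  obtain ⟨a, ha, h3⟩ := U_range g K' hK' hg1
  exact ⟨a, ha, fun x hx => ⟨g ⟨x, hx⟩, (h3 _).2 ⟨_, rfl⟩, hg2 ⟨x, hx⟩⟩⟩

theorem repl_of_coll {w : (U A).M} {P : (U A).M → (U A).M → Prop}
    (h : ∀ x, (U A).mem x w → ∃! y, P x y)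
    (hc : ∃ a, ¬ (U A).ur a ∧ ∀ x, (U A).mem x w → ∃ y, (U A).mem y a ∧ P x y) :
    ∃ a, ¬ (U A).ur a ∧ ∀ y, (U A).mem y a ↔ ∃ x, (U A).mem x w ∧ P x y := by
  obtain ⟨a, _, h1⟩ := hc
  obtain ⟨b, hb, h2⟩ := U_sub a fun y => ∃ x, (U A).mem x w ∧ P x y
  refine ⟨b, hb, fun y => (h2 y).trans ⟨fun h3 => h3.2, fun h3 => ⟨?_, h3⟩⟩⟩
  obtain ⟨x, hx, h4⟩ := h3
  obtain ⟨y', h5, h6⟩ := h1 x hx
  rw [(h x hx).unique h4 h6]
  exact h5

theorem U_zfcu [Uncountable A] : ZFCU (U A) where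
  zcu := U_zcu
  repl := fun n φ v w _ h => repl_of_coll h (U_coll n φ v w fun x hx => (h x hx).exists)
  coll := fun n φ v w _ h => U_coll n φ v w h

theorem U_not_sigma [Uncountable A] : ¬ Sigma (U A) := by
  rintro (⟨s, hs⟩ | h)
  · apply Set.not_countable_univ (α := A)
    refine s.2.mono fun a _ => ?_
    have h1 : Z.Mem (Z.ur a) s.1 := hs ⟨Z.ur a, Set.countable_singleton a⟩ ⟨a, rfl⟩
    exact Z.ker_mono h1 rfl
  · obtain ⟨N, h1, h2, _, _, h5, I, hI⟩ := U_omega (A := A)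
    obtain ⟨B, hB, h3⟩ := h I
    obtain ⟨c, hc⟩ := Set.countable_iff_exists_injOn.1 B.2
    choose pr hp1 hp2 hp3 using U_pair' (A := A)
    let u : A → (U A).M := fun a => ⟨Z.ur a, Set.countable_singleton a⟩
    obtain ⟨f, _, hf, _⟩ := U_set (Set.range fun a : Z.ker B.1 => pr (N (c a)) (u a))
      (Z.ker B.1) B.2 (by
      rintro _ ⟨a, rfl⟩
      refine (hp3 _ _).trans (Set.union_subset ((h2 _).trans (Set.empty_subset _)) ?_)
      exact Set.singleton_subset_iff.2 a.2)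
    have key : ∀ i b, E (U A) I f i b → ∃ a : Z.ker B.1, i = N (c a) ∧ b = u a := by
      rintro i b ⟨hi, hb, p, hp, hip, hbp⟩
      obtain ⟨a, rfl⟩ := (hf p).1 hp
      obtain ⟨n, rfl⟩ := (hI i).1 hi
      refine ⟨a, ?_, ?_⟩
      · rcases (hp2 _ _ _).1 hip with h4 | h4
        · exact h4
        · exact absurd (h4 ▸ ⟨a, rfl⟩) (h1 n)
      · rcases (hp2 _ _ _).1 hbp with h4 | h4
        · exact absurd (h4 ▸ hb) (h1 _)
        · exact h4
    refine h3 f ⟨fun i b b' h4 h6 => ?_, fun b hb => ?_⟩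
    · obtain ⟨a, rfl, rfl⟩ := key i b h4
      obtain ⟨a', h7, rfl⟩ := key _ b' h6
      rw [hc a.2 a'.2 (h5 h7)]
    · obtain ⟨a, ha⟩ := hB b hb
      have h4 : a ∈ Z.ker B.1 := Z.ker_mono hb (ha ▸ rfl)
      have h6 : b = u a := Subtype.ext ha
      exact ⟨N (c a), (hI _).2 ⟨_, rfl⟩, ⟨a, ha⟩, pr (N (c a)) (u a), (hf _).2 ⟨⟨a, h4⟩, rfl⟩,
        (hp2 _ _ _).2 (Or.inl rfl), (hp2 _ _ _).2 (Or.inr h6)⟩

theorem U_gbc [Countable A] : GBC (U A) (Set (U A).M) (fun x c => x ∈ c) := by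
  have hcoll : ∀ (w : (U A).M) (P : (U A).M → (U A).M → Prop), (∀ x, (U A).mem x w → ∃ y, P x y) →
      ∃ a, ¬ (U A).ur a ∧ ∀ x, (U A).mem x w → ∃ y, (U A).mem y a ∧ P x y := by
    intro w P h
    have := U_small w
    choose g hg using fun x : {y : (U A).M | (U A).mem y w} => h x.1 x.2
    obtain ⟨a, ha, h3⟩ := U_range g Set.univ Set.countable_univ fun _ => Set.subset_univ _
    exact ⟨a, ha, fun x hx => ⟨g ⟨x, hx⟩, (h3 _).2 ⟨_, rfl⟩, hg ⟨x, hx⟩⟩⟩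
  refine ⟨U_zcu, fun c d h => Set.ext h, fun m n φ W v => ⟨{x | _}, fun x => Iff.rfl⟩,
    fun c w _ h => repl_of_coll h (hcoll w _ fun x hx => (h x hx).exists),
    fun c w _ h => hcoll w _ h, ?_⟩
  classical
  let ch : (U A).M → (U A).M := fun x => if h : ∃ y, (U A).mem y x then h.choose else x
  have key : ∀ x y, Rel (U A) (fun p => p ∈ {p | ∃ x, OP (U A) p x (ch x)}) x y ↔ y = ch x := by
    intro x y
    constructor
    · rintro ⟨p, ⟨x', h1⟩, h2⟩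
      obtain ⟨rfl, rfl⟩ := op_inj (S := U A) U_pair h2 h1
      rfl
    · rintro rfl
      obtain ⟨p, hp⟩ := op_exists (S := U A) U_pair U_ext x (ch x)
      exact ⟨p, ⟨x, hp⟩, hp⟩
  refine ⟨{p | ∃ x, OP (U A) p x (ch x)}, fun x y z h1 h2 => ?_, fun x _ h => ⟨ch x, ?_, ?_⟩⟩
  · rw [(key x y).1 h1, (key x z).1 h2]
  · simp only [ch, dif_pos h]
    exact h.choose_spec
  · exact (key x _).2 rfl

end Pool.Agent.H597Z.Ur
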